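import Pool.Agent.Q221.Forest.Suff

set_option autoImplicit false

/-!
# The certificate for classes with a rare element
-/

namespace Pool.Agent.Q221.Forest

open SimpleGraph

/-- the certificate for classes with an element which occurs only once: `Z` is an element on
`[0, m + r + N)`, the rare element is the part of `Z` on `[m, m + N)` -/
structure CertB (A : SimpleGraph ℤ → ℤ → ℤ → Prop) (c N : ℤ) (Z : SimpleGraph ℤ) (m r : ℤ) :
    Prop where
  hN : c ≤ N
  hN2 : 2 ≤ N
  hm : 0 ≤ m
  hr : 0 ≤ r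
  ext : ∀ X n, A X 0 n → n ≤ N → ∃ W s, A W 0 (N + 1) ∧ Occ X n W 0 (N + 1) s
  conn : Conn A N
  mem : A Z 0 (m + r + N)
  all : ∀ Y, A Y 0 (N + 1) → ∃ q, 0 ≤ q ∧ q < m + r ∧ Agr Y Z 0 (N + 1) q
  right : ∀ p q, m ≤ p → p < m + r → 0 ≤ q → q < m + r → Agr Z Z p (p + N) (q - p) →
    Agr Z Z p (p + (N + 1)) (q - p)
  left : ∀ p q, 0 < p → p ≤ m → 0 < q → q ≤ m + r → Agr Z Z p (p + N) (q - p) →
    Agr Z Z (p - 1) (p + N) (q - p)
  uniq : ∀ p q, 0 ≤ p → p ≤ m → m ≤ q → q ≤ m + r → Agr Z Z p (p + N) (q - p) → p = q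

variable {A : SimpleGraph ℤ → ℤ → ℤ → Prop} {c N : ℤ} {Z : SimpleGraph ℤ} {m r : ℤ}

theorem CertB.occ (h : CertB A c N Z m r) (hA : Cls A c) {X : SimpleGraph ℤ} {x y : ℤ}
    (hX : A X x y) (hy : y = x + (N + 1)) :
    ∃ q, 0 ≤ q ∧ q < m + r ∧ Agr Z X q (q + (N + 1)) (x - q) := by
  obtain ⟨q, hq, hq', h1⟩ := h.all (sh X (-x)) (hA.sh_mem hX (by omega) (by omega))
  refine ⟨q, hq, hq', ?_⟩
  have h2 : Agr X (sh X (-x)) x (x + (N + 1)) (-x) := agr_sh _ _ _ _
  exact (h1.symm (a' := q) (b' := q + (N + 1)) (t' := -q) (by omega) (by omega) rfl).trans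
    (h2.symm (a' := 0) (b' := N + 1) (t' := x) (by omega) (by omega) (by omega))
    (by omega) (by omega) (by omega)

theorem CertB.stepF (h : CertB A c N Z m r) (hA : Cls A c) {X : SimpleGraph ℤ} {x y q : ℤ}
    (hX : A X x y) (hy : y = x + (N + 1)) (hq : m ≤ q) (hq' : q ≤ m + r)
    (h1 : Agr Z X q (q + N) (x - q)) :
    ∃ q', m ≤ q' ∧ q' < m + r ∧ Agr Z X q' (q' + (N + 1)) (x - q') := by
  have hm := h.hm
  obtain ⟨q', hq1, hq2, h2⟩ := h.occ hA hX hy
  refine ⟨q', ?_, hq2, h2⟩
  by_contra hcon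
  have h3 : Agr Z Z q' (q' + N) (q - q') :=
    (h2.mono (b' := q' + N) le_rfl (by omega)).trans (h1.symm (a' := x) (b' := x + N)
      (t' := q - x) (by omega) (by omega) (by omega)) (by omega) (by omega) (by omega)
  have := h.uniq q' q hq1 (by omega) hq hq' h3
  omega

theorem CertB.stepP (h : CertB A c N Z m r) (hA : Cls A c) {X : SimpleGraph ℤ} {x y q : ℤ}
    (hX : A X x y) (hy : y = x + (N + 1)) (hq : 0 ≤ q) (hq' : q ≤ m)
    (h1 : Agr Z X q (q + N) (x + 1 - q)) :
    ∃ q', 0 ≤ q' ∧ q' < m ∧ Agr Z X q' (q' + (N + 1)) (x - q') := by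
  have hr := h.hr
  obtain ⟨q', hq1, hq2, h2⟩ := h.occ hA hX hy
  refine ⟨q', hq1, ?_, h2⟩
  by_contra hcon
  have h3 : Agr Z Z q (q + N) (q' + 1 - q) :=
    h1.trans ((h2.mono (a' := q' + 1) (b' := q' + 1 + N) (by omega) (by omega)).symm
      (a' := x + 1) (b' := x + 1 + N) (t' := q' - x) (by omega) (by omega) (by omega))
      (by omega) (by omega) (by omega)
  have := h.uniq q (q' + 1) hq hq' (by omega) (by omega) h3
  omega

theorem CertB.detF (h : CertB A c N Z m r) (hA : Cls A c) {X X' : SimpleGraph ℤ} {x y q : ℤ}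
    (hX : A X x y) (hX' : A X' x y) (hy : y = x + (N + 1)) (hq : m ≤ q) (hq' : q ≤ m + r)
    (h1 : Agr Z X q (q + N) (x - q)) (h2 : Agr Z X' q (q + N) (x - q)) : Agr X X' x y 0 := by
  have hm := h.hm
  obtain ⟨p, hp, hp', h3⟩ := h.stepF hA hX hy hq hq' h1
  obtain ⟨p', hp1, hp1', h4⟩ := h.stepF hA hX' hy hq hq' h2
  have e1 : Agr Z Z p (p + N) (q - p) := (h3.mono (b' := p + N) le_rfl (by omega)).trans
    (h1.symm (a' := x) (b' := x + N) (t' := q - x) (by omega) (by omega) (by omega))
    (by omega) (by omega) (by omega)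
  have e2 : Agr Z Z q (q + N) (p' - q) := h2.trans
    ((h4.mono (b' := p' + N) le_rfl (by omega)).symm (a' := x) (b' := x + N) (t' := p' - x)
      (by omega) (by omega) (by omega)) (by omega) (by omega) (by omega)
  have e3 : Agr Z Z p (p + N) (p' - p) := e1.trans e2 (by omega) (by omega) (by omega)
  have e4 := h.right p p' hp hp' (by omega) hp1' e3
  exact ((h3.symm (a' := x) (b' := x + (N + 1)) (t' := p - x) (by omega) (by omega)
    (by omega)).trans e4 (t'' := p' - x) (by omega) (by omega) (by omega)).trans h4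
    (by omega) (by omega) (by omega) |>.mono le_rfl (by omega)

theorem CertB.detP (h : CertB A c N Z m r) (hA : Cls A c) {X X' : SimpleGraph ℤ} {x y q : ℤ}
    (hX : A X x y) (hX' : A X' x y) (hy : y = x + (N + 1)) (hq : 0 ≤ q) (hq' : q ≤ m)
    (h1 : Agr Z X q (q + N) (x + 1 - q)) (h2 : Agr Z X' q (q + N) (x + 1 - q)) :
    Agr X X' x y 0 := by
  have hr := h.hr
  obtain ⟨p, hp, hp', h3⟩ := h.stepP hA hX hy hq hq' h1
  obtain ⟨p', hp1, hp1', h4⟩ := h.stepP hA hX' hy hq hq' h2
  have e1 : Agr Z Z (p + 1) (p + 1 + N) (q - (p + 1)) :=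
    (h3.mono (a' := p + 1) (b' := p + 1 + N) (by omega) (by omega)).trans
    (h1.symm (a' := x + 1) (b' := x + 1 + N) (t' := q - (x + 1)) (by omega) (by omega)
      (by omega)) (by omega) (by omega) (by omega)
  have e2 : Agr Z Z q (q + N) (p' + 1 - q) := h2.trans
    ((h4.mono (a' := p' + 1) (b' := p' + 1 + N) (by omega) (by omega)).symm (a' := x + 1)
      (b' := x + 1 + N) (t' := p' - x) (by omega) (by omega) (by omega)) (by omega) (by omega)
      (by omega)
  have e3 : Agr Z Z (p + 1) (p + 1 + N) (p' + 1 - (p + 1)) :=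
    e1.trans e2 (by omega) (by omega) (by omega)
  have e4 := h.left (p + 1) (p' + 1) (by omega) (by omega) (by omega) (by omega) e3
  have e5 : Agr Z Z p (p + (N + 1)) (p' - p) := by
    have e6 : p' + 1 - (p + 1) = p' - p := by ring
    rw [e6] at e4
    exact e4.mono (by omega) (by omega)
  exact ((h3.symm (a' := x) (b' := x + (N + 1)) (t' := p - x) (by omega) (by omega)
    (by omega)).trans e5 (t'' := p' - x) (by omega) (by omega) (by omega)).trans h4
    (by omega) (by omega) (by omega) |>.mono le_rfl (by omega)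

/-- elements which begin with the rare element are determined by their length -/
theorem CertB.detR (h : CertB A c N Z m r) (hA : Cls A c) (k : ℕ) :
    ∀ (V V' : SimpleGraph ℤ) (b : ℤ), b = m + N + k → A V m b → A V' m b →
      Agr Z V m (m + N) 0 → Agr Z V' m (m + N) 0 →
      Agr V V' m b 0 ∧ ∃ q, m ≤ q ∧ q ≤ m + r ∧ Agr Z V q (q + N) (m + k - q) := by
  have hN2 := h.hN2
  have hr := h.hr
  induction k with
  | zero =>
    intro V V' b hb hV hV' h1 h2
    have hb' : b = m + N := by push_cast at hb; omega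
    subst hb'
    refine ⟨(h1.symm (a' := m) (b' := m + N) (t' := 0) (by omega) (by omega) (by omega)).trans h2
      (by omega) (by omega) (by omega), m, le_rfl, by omega, ?_⟩
    have e : m + ((0 : ℕ) : ℤ) - m = 0 := by push_cast; ring
    rw [e]
    exact h1
  | succ k ih =>
    intro V V' b hb hV hV' h1 h2
    push_cast at hb
    obtain ⟨h3, q, hq, hq', h4⟩ := ih V V' (m + N + k) rfl
      (hA.sub hV le_rfl (by omega) (by omega)) (hA.sub hV' le_rfl (by omega) (by omega)) h1 h2
    have h5 : Agr Z V' q (q + N) (m + k - q) := h4.trans h3 (by omega) (by omega) (by omega)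
    have hVx : A V (m + k) b := hA.sub hV (by omega) (by omega) le_rfl
    have hVx' : A V' (m + k) b := hA.sub hV' (by omega) (by omega) le_rfl
    have h6 := h.detF hA hVx hVx' (by omega) hq hq' h4 h5
    obtain ⟨q', hq1, hq2, h7⟩ := h.stepF hA hVx (by omega) hq hq' h4
    refine ⟨agr_of_eq fun i j hi hi' hj hj' => ?_, q' + 1, by omega, by omega, ?_⟩
    · by_cases c1 : i < m + N + k ∧ j < m + N + k
      · exact h3.eq hi c1.1 hj c1.2
      · by_cases c2 : m + k ≤ i ∧ m + k ≤ j
        · exact h6.eq c2.1 hi' c2.2 hj'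
        · have c3 : N ≤ j - i ∨ N ≤ i - j := by omega
          exact iff_of_false (no_long' hA hN2 h.conn hV hi hi' hj hj' c3)
            (no_long' hA hN2 h.conn hV' hi hi' hj hj' c3)
    · have e : m + ((k + 1 : ℕ) : ℤ) - (q' + 1) = m + k - q' := by push_cast; ring
      rw [e]
      exact h7.mono (by omega) (by omega)

/-- elements which end with the rare element are determined by their length -/
theorem CertB.detL (h : CertB A c N Z m r) (hA : Cls A c) (k : ℕ) :
    ∀ (V V' : SimpleGraph ℤ) (a : ℤ), a = m - k → A V a (m + N) → A V' a (m + N) →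
      Agr Z V m (m + N) 0 → Agr Z V' m (m + N) 0 →
      Agr V V' a (m + N) 0 ∧ ∃ q, 0 ≤ q ∧ q ≤ m ∧ Agr Z V q (q + N) (m - k - q) := by
  have hN2 := h.hN2
  have hm := h.hm
  induction k with
  | zero =>
    intro V V' a ha hV hV' h1 h2
    have ha' : a = m := by push_cast at ha; omega
    subst ha'
    refine ⟨(h1.symm (a' := a) (b' := a + N) (t' := 0) (by omega) (by omega) (by omega)).trans h2
      (by omega) (by omega) (by omega), a, hm, le_rfl, ?_⟩
    have e : a - ((0 : ℕ) : ℤ) - a = 0 := by push_cast; ring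
    rw [e]
    exact h1
  | succ k ih =>
    intro V V' a ha hV hV' h1 h2
    push_cast at ha
    obtain ⟨h3, q, hq, hq', h4⟩ := ih V V' (m - k) rfl
      (hA.sub hV (by omega) (by omega) le_rfl) (hA.sub hV' (by omega) (by omega) le_rfl) h1 h2
    have e1 : m - k - q = a + 1 - q := by omega
    rw [e1] at h4
    have h5 : Agr Z V' q (q + N) (a + 1 - q) := h4.trans h3 (by omega) (by omega) (by omega)
    have hVx : A V a (a + (N + 1)) := hA.sub hV le_rfl (by omega) (by omega)
    have hVx' : A V' a (a + (N + 1)) := hA.sub hV' le_rfl (by omega) (by omega)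
    have h6 := h.detP hA hVx hVx' rfl hq hq' h4 h5
    obtain ⟨q', hq1, hq2, h7⟩ := h.stepP hA hVx rfl hq hq' h4
    refine ⟨agr_of_eq fun i j hi hi' hj hj' => ?_, q', by omega, by omega, ?_⟩
    · by_cases c1 : m - k ≤ i ∧ m - k ≤ j
      · exact h3.eq c1.1 hi' c1.2 hj'
      · by_cases c2 : i < a + (N + 1) ∧ j < a + (N + 1)
        · exact h6.eq hi c2.1 hj c2.2
        · have c3 : N ≤ j - i ∨ N ≤ i - j := by omega
          exact iff_of_false (no_long' hA hN2 h.conn hV hi hi' hj hj' c3)
            (no_long' hA hN2 h.conn hV' hi hi' hj hj' c3)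
    · have e : m - ((k + 1 : ℕ) : ℤ) - q' = a - q' := by push_cast; omega
      rw [e]
      exact h7.mono le_rfl (by omega)

/-- elements which contain the rare element are determined by its position and the length -/
theorem CertB.det (h : CertB A c N Z m r) (hA : Cls A c) {V V' : SimpleGraph ℤ} {a b : ℤ}
    (ha : a ≤ m) (hb : m + N ≤ b) (hV : A V a b) (hV' : A V' a b)
    (h1 : Agr Z V m (m + N) 0) (h2 : Agr Z V' m (m + N) 0) : Agr V V' a b 0 := by
  have hN2 := h.hN2
  have h3 := (h.detR hA (b - (m + N)).toNat V V' b (by omega) (hA.sub hV ha (by omega) le_rfl)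
    (hA.sub hV' ha (by omega) le_rfl) h1 h2).1
  have h4 := (h.detL hA (m - a).toNat V V' a (by omega) (hA.sub hV le_rfl (by omega) hb)
    (hA.sub hV' le_rfl (by omega) hb) h1 h2).1
  refine agr_of_eq fun i j hi hi' hj hj' => ?_
  by_cases c1 : m ≤ i ∧ m ≤ j
  · exact h3.eq c1.1 hi' c1.2 hj'
  · by_cases c2 : i < m + N ∧ j < m + N
    · exact h4.eq hi c2.1 hj c2.2
    · have c3 : N ≤ j - i ∨ N ≤ i - j := by omega
      exact iff_of_false (no_long' hA hN2 h.conn hV hi hi' hj hj' c3)
        (no_long' hA hN2 h.conn hV' hi hi' hj hj' c3)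

/-- discrete intermediate value -/
theorem exists_switch {P : ℤ → Prop} {a b : ℤ} (hab : a ≤ b) (ha : ¬ P a) (hb : P b) :
    ∃ i, a ≤ i ∧ i < b ∧ ¬ P i ∧ P (i + 1) := by
  by_contra hcon
  push Not at hcon
  have key : ∀ k : ℕ, a + k ≤ b → ¬ P (a + k) := by
    intro k
    induction k with
    | zero => intro _; simpa using ha
    | succ k ih =>
      intro hk
      push_cast at hk
      have h1 := hcon (a + k) (by omega) (by omega) (ih (by omega))
      push_cast
      rwa [← add_assoc]
  have h2 := key (b - a).toNat (by omega)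
  rw [Int.toNat_of_nonneg (by omega)] at h2
  apply h2
  have : a + (b - a) = b := by ring
  rwa [this]

/-- every long element occurs in an element with the rare element -/
theorem CertB.sup (h : CertB A c N Z m r) (hA : Cls A c) {X : SimpleGraph ℤ} {n : ℤ}
    (hX : A X 0 n) (hn : N + 1 ≤ n) :
    ∃ V a b s, A V a b ∧ a ≤ m ∧ m + N ≤ b ∧ Agr Z V m (m + N) 0 ∧ Occ X n V a b s := by
  classical
  have hN := h.hN
  have hN2 := h.hN2
  have hm := h.hm
  have hr := h.hr
  have hex : ∀ i, 0 ≤ i → i + (N + 1) ≤ n →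
      ∃ q, 0 ≤ q ∧ q < m + r ∧ Agr Z X q (q + (N + 1)) (i - q) := fun i hi hi' =>
    h.occ hA (hA.sub hX hi (by omega) hi' : A X i (i + (N + 1))) rfl
  -- the property `q_i ≥ m` for some choice
  by_cases c0 : ∃ q, m ≤ q ∧ q < m + r ∧ Agr Z X q (q + (N + 1)) (0 - q)
  · -- the first window is to the right of the rare element
    obtain ⟨q, hq, hq', h1⟩ := c0
    have hXq : A (sh X q) q (q + n) := hA.sh_mem hX (by omega) (by omega)
    have h2 : Agr Z (sh X q) q (q + N) 0 :=
      (h1.mono (b' := q + N) le_rfl (by omega)).trans (agr_sh X 0 n q) (by omega) (by omega)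
        (by omega)
    have hZq : A Z m (q + N) := hA.sub h.mem hm (by omega) (by omega)
    have h3 := hA.glue_conn hZq hXq hq (by omega) (by omega) h2 (fun x y hx hx' hy hy' =>
      conn_all' hA hN2 h.conn (by omega) (hA.sub hXq le_rfl (by omega) (by omega)) hx hx' hy hy')
    refine ⟨_, m, q + n, q, h3, le_rfl, by omega, (gl_left h2).mono le_rfl (by omega), by omega,
      by omega, ?_⟩
    exact (agr_sh X 0 n q).trans (gl_right h2) (by omega) (by omega) (by omega)
  · -- otherwise
    set P : ℤ → Prop := fun i => ∃ q, m ≤ q ∧ q < m + r ∧ Agr Z X q (q + (N + 1)) (i - q) with hP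
    by_cases c1 : P (n - (N + 1))
    · obtain ⟨i, hi, hi', hPi, q', hq1, hq2, h4⟩ := exists_switch (P := P)
        (by omega : (0 : ℤ) ≤ n - (N + 1)) c0 c1
      obtain ⟨q, hq, hq', h5⟩ := hex i hi (by omega)
      have hqm : q < m := by
        by_contra hcon
        exact hPi ⟨q, by omega, hq', h5⟩
      have h6 : Agr Z Z (q + 1) (q + 1 + N) (q' - (q + 1)) :=
        (h5.mono (a' := q + 1) (b' := q + 1 + N) (by omega) (by omega)).trans
          ((h4.mono (b' := q' + N) le_rfl (by omega)).symm (a' := i + 1) (b' := i + 1 + N)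
            (t' := q' - (i + 1)) (by omega) (by omega) (by omega)) (by omega) (by omega)
          (by omega)
      have h7 := h.uniq (q + 1) q' (by omega) (by omega) hq1 (by omega) h6
      have h8 : q' = m := by omega
      subst h8
      refine ⟨sh X (q' - (i + 1)), q' - (i + 1), q' - (i + 1) + n, q' - (i + 1),
        hA.sh_mem hX (by omega) (by omega), by omega, by omega, ?_, le_rfl, le_rfl,
        agr_sh X _ _ _⟩
      exact (h4.mono (b' := q' + N) le_rfl (by omega)).trans (agr_sh X (i + 1) (i + 1 + N) _)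
        (by omega) (by omega) (by omega)
    · -- the last window is to the left of the rare element
      obtain ⟨q, hq, hq', h5⟩ := hex (n - (N + 1)) (by omega) (by omega)
      have hqm : q < m := by
        by_contra hcon
        exact c1 ⟨q, by omega, hq', h5⟩
      set t := q + (N + 1) - n with ht
      have hXt : A (sh X t) t (q + 1 + N) := hA.sh_mem hX (by omega) (by omega)
      have h2 : Agr (sh X t) Z (q + 1) (q + 1 + N) 0 := by
        have h3 : Agr Z (sh X t) (q + 1) (q + 1 + N) 0 :=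
          (h5.mono (a' := q + 1) (b' := q + 1 + N) (by omega) (by omega)).trans
            (agr_sh X (n - N) n t) (by omega) (by omega) (by omega)
        exact h3.symm (by omega) (by omega) (by omega)
      have hZq : A Z (q + 1) (m + N) := hA.sub h.mem (by omega) (by omega) (by omega)
      have h3 := hA.glue_conn hXt hZq (by omega) (by omega) (by omega) h2
        (fun x y hx hx' hy hy' => conn_all' hA hN2 h.conn (by omega)
          (hA.sub hZq le_rfl (by omega) (by omega)) hx hx' hy hy')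
      refine ⟨_, t, m + N, t, h3, by omega, le_rfl, (gl_right h2).mono (by omega) le_rfl, le_rfl,
        by omega, ?_⟩
      exact (agr_sh X 0 n t).trans (gl_left h2) (by omega) (by omega) (by omega)

theorem jep_of_certB (hA : Cls A c) (h : CertB A c N Z m r) : JEP A := by
  have hN := h.hN
  have hN2 := h.hN2
  have key : ∀ X n, A X 0 n →
      ∃ V a b s, A V a b ∧ a ≤ m ∧ m + N ≤ b ∧ Agr Z V m (m + N) 0 ∧ Occ X n V a b s := by
    intro X n hX
    rcases le_or_gt n N with h1 | h1
    · obtain ⟨W, s, hW, hs⟩ := h.ext X n hX h1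
      obtain ⟨V, a, b, s', hV, ha, hb, hZ, hs'⟩ := h.sup hA hW le_rfl
      exact ⟨V, a, b, s + s', hV, ha, hb, hZ, hs.trans hs'⟩
    · exact h.sup hA hX (by omega)
  intro X n Y k hX hY
  obtain ⟨V, a, b, s, hV, ha, hb, hZV, hs⟩ := key X n hX
  obtain ⟨V', a', b', s', hV', ha', hb', hZV', hs'⟩ := key Y k hY
  -- the left part
  obtain ⟨L, hL, hZL⟩ : ∃ L, A L (min a a') (m + N) ∧ Agr Z L m (m + N) 0 := by
    rcases le_total a a' with h1 | h1
    · rw [min_eq_left h1]
      exact ⟨V, hA.sub hV le_rfl (by omega) hb, hZV⟩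
    · rw [min_eq_right h1]
      exact ⟨V', hA.sub hV' le_rfl (by omega) hb', hZV'⟩
  obtain ⟨R, hR, hZR⟩ : ∃ R, A R m (max b b') ∧ Agr Z R m (m + N) 0 := by
    rcases le_total b b' with h1 | h1
    · rw [max_eq_right h1]
      exact ⟨V', hA.sub hV' ha' (by omega) le_rfl, hZV'⟩
    · rw [max_eq_left h1]
      exact ⟨V, hA.sub hV ha (by omega) le_rfl, hZV⟩
  have h1 : Agr L R m (m + N) 0 := (hZL.symm (a' := m) (b' := m + N) (t' := 0) (by omega)
    (by omega) (by omega)).trans hZR (by omega) (by omega) (by omega)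
  have hmin : min a a' ≤ m := le_trans (min_le_left _ _) ha
  have hmax : m + N ≤ max b b' := le_trans hb (le_max_left _ _)
  have h2 := hA.glue_conn hL hR hmin (by omega) hmax h1
    (fun x y hx hx' hy hy' => conn_all' hA hN2 h.conn (by omega)
      (hA.sub hR le_rfl (by omega) hmax) hx hx' hy hy')
  set U := gl L (min a a') (m + N) R m (max b b') with hU
  have hZU : Agr Z U m (m + N) 0 := hZL.trans (gl_left h1) (by omega) (by omega) (by omega)
  have h3 : Agr V U a b 0 := h.det hA ha hb hV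
    (hA.sub h2 (min_le_left _ _) (by omega) (le_max_left _ _)) hZV hZU
  have h4 : Agr V' U a' b' 0 := h.det hA ha' hb' hV'
    (hA.sub h2 (min_le_right _ _) (by omega) (le_max_right _ _)) hZV' hZU
  have e1 : a ≤ s := hs.1
  have e2 : s + n ≤ b := hs.2.1
  have e3 : a' ≤ s' := hs'.1
  have e4 : s' + k ≤ b' := hs'.2.1
  refine ⟨U, min a a', max b b', s, s', h2, ⟨by have := min_le_left a a'; omega,
    by have := le_max_left b b'; omega, hs.2.2.trans h3 (by omega) (by omega) (by omega)⟩,
    ⟨by have := min_le_right a a'; omega, by have := le_max_right b b'; omega,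
      hs'.2.2.trans h4 (by omega) (by omega) (by omega)⟩⟩

/-- finite classes -/
theorem jep_of_certF (hA : Cls A c) {l : ℤ} (hZ : A Z 0 l)
    (h : ∀ X n, A X 0 n → n ≤ l + 1 → ∃ s, Occ X n Z 0 l s) : JEP A := by
  have key : ∀ X n, A X 0 n → ∃ s, Occ X n Z 0 l s := by
    intro X n hX
    rcases le_or_gt n (l + 1) with h1 | h1
    · exact h X n hX h1
    · exfalso
      have hl := hA.pos hZ
      obtain ⟨s, hs1, hs2, _⟩ := h X (l + 1) (hA.sub hX le_rfl (by omega) h1.le) le_rfl
      omega
  intro X n Y m hX hY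
  obtain ⟨s, hs⟩ := key X n hX
  obtain ⟨t, ht⟩ := key Y m hY
  exact ⟨Z, 0, l, s, t, hZ, hs, ht⟩

end Pool.Agent.Q221.Forest
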