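import Pool.Agent.Q221.Forest.Code

set_option autoImplicit false

/-!
# Certificates in terms of codes
-/

namespace Pool.Agent.Q221.Forest

open SimpleGraph

variable {B : List FCode}

theorem occ_of_wn {X Z : SimpleGraph ℤ} {n l s x g : ℕ} (hx : Agr X (gr x) 0 n 0)
    (hg : Agr Z (gr g) 0 l 0) (hs : s + n ≤ l) (h : Wn x 0 g s n) : Occ X n Z 0 l s := by
  rw [Wn_iff] at h
  refine ⟨by omega, by omega, ?_⟩
  have h1 : Agr X (gr g) 0 n s := hx.trans h (by (try push_cast) <;> omega) (by (try push_cast) <;> omega)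
    (by (try push_cast) <;> omega)
  exact h1.trans ((hg.mono (a' := s) (b' := s + n) (by omega) (by omega)).symm (a' := s)
    (b' := s + n) (t' := 0) (by omega) (by omega) (by omega)) (by omega) (by omega) (by omega)

theorem wn_of_occ {X Z : SimpleGraph ℤ} {n l x g : ℕ} {s : ℤ} (hx : Agr X (gr x) 0 n 0)
    (hg : Agr Z (gr g) 0 l 0) (h : Occ X n Z 0 l s) :
    ∃ s' : ℕ, s = s' ∧ s' + n ≤ l ∧ Wn x 0 g s' n := by
  obtain ⟨h1, h2, h3⟩ := h
  lift s to ℕ using h1
  refine ⟨s, rfl, by omega, ?_⟩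
  rw [Wn_iff]
  have h4 : Agr (gr x) X 0 n 0 := hx.symm (by omega) (by omega) (by omega)
  have h5 : Agr (gr x) Z 0 n s := h4.trans h3 (by omega) (by omega) (by omega)
  exact h5.trans hg (by (try push_cast) <;> omega) (by (try push_cast) <;> omega) (by (try push_cast) <;> omega) |>.mono
    (by (try push_cast) <;> omega) (by (try push_cast) <;> omega)

theorem gr_agr (g : ℕ) (a b : ℤ) : Agr (gr g) (gr g) a b 0 := agr_refl _ _ _

theorem PE_iff {c : ℤ} (hA : Cls (AB B) c) : ¬ AP B 0 1 ↔ ∀ X n, ¬ AB B X 0 n := by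
  constructor
  · intro h X n hX
    have hn := hA.pos hX
    apply h
    rw [AP_iff]
    have h1 : AB B X 0 1 := hA.sub hX le_rfl (by omega) (by omega)
    refine hA.agr0 (by exact_mod_cast h1) (agr_of_eq fun i j hi hi' hj hj' => ?_)
    have e : i = j := by push_cast at hi' hj'; omega
    subst e
    exact ⟨fun h => absurd h (X.irrefl), fun h => absurd h ((gr 0).irrefl)⟩
  · intro h h1
    rw [AP_iff] at h1
    exact h _ _ h1

/-- the certificate of finite classes -/
def PF (B : List FCode) (K : ℕ) : Prop := ∃ g < K, ∃ l < K, AP B g l ∧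
  ∀ n < l + 2, ∀ x < 2 ^ (n * n), AP B x n → ∃ s < l + 1, s + n ≤ l ∧ Wn x 0 g s n

theorem PF_iff {c : ℤ} (hA : Cls (AB B) c) : (∃ K, PF B K) ↔
    ∃ Z l, AB B Z 0 l ∧ ∀ X n, AB B X 0 n → n ≤ l + 1 → ∃ s, Occ X n Z 0 l s := by
  constructor
  · rintro ⟨K, g, _, l, _, hg, h⟩
    refine ⟨gr g, l, (AP_iff B g l).1 hg, fun X n hX hn => ?_⟩
    have hn0 := hA.pos hX
    lift n to ℕ using hn0.le
    obtain ⟨x, hx, hx1, hx2⟩ := exists_code hA hX
    obtain ⟨s, _, hs, hw⟩ := h n (by omega) x hx hx2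
    exact ⟨s, occ_of_wn hx1 (gr_agr _ _ _) hs hw⟩
  · rintro ⟨Z, l, hZ, h⟩
    have hl0 := hA.pos hZ
    lift l to ℕ using hl0.le
    obtain ⟨g, hg, hg1, hg2⟩ := exists_code hA hZ
    refine ⟨g + l + 1, g, by omega, l, by omega, hg2, fun n hn x _ hx => ?_⟩
    obtain ⟨s, hs⟩ := h (gr x) n ((AP_iff B x n).1 hx) (by omega)
    obtain ⟨s', _, hs2, hs3⟩ := wn_of_occ (gr_agr _ _ _) hg1 hs
    exact ⟨s', by omega, hs2, hs3⟩

/-- the certificate of classes in which everything can be repeated: the first part -/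
def PX (B : List FCode) (c M : ℕ) : Prop := ∀ n < c + 1, ∀ x < 2 ^ (n * n), AP B x n →
  ∃ w < 2 ^ (M * M), ∃ s < M + 1, AP B w M ∧ s + n ≤ M ∧ Wn x 0 w s n

theorem PX_iff {k : ℤ} (hA : Cls (AB B) k) (c M : ℕ) : PX B c M ↔
    ∀ X n, AB B X 0 n → n ≤ c → ∃ W s, AB B W 0 M ∧ Occ X n W 0 M s := by
  constructor
  · intro h X n hX hn
    have hn0 := hA.pos hX
    lift n to ℕ using hn0.le
    obtain ⟨x, hx, hx1, hx2⟩ := exists_code hA hX
    obtain ⟨w, _, s, _, hw, hs, hw1⟩ := h n (by omega) x hx hx2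
    exact ⟨gr w, s, (AP_iff B w M).1 hw, occ_of_wn hx1 (gr_agr _ _ _) hs hw1⟩
  · intro h n hn x _ hx
    obtain ⟨W, s, hW, hs⟩ := h (gr x) n ((AP_iff B x n).1 hx) (by omega)
    obtain ⟨w, hw, hw1, hw2⟩ := exists_code hA hW
    obtain ⟨s', _, hs2, hs3⟩ := wn_of_occ (gr_agr _ _ _) hw1 hs
    exact ⟨w, hw, s', by omega, hw2, hs2, hs3⟩

/-- the second part -/
def PU2 (B : List FCode) (c K : ℕ) : Prop :=
  ∀ w < 2 ^ (c * c), ∀ w' < 2 ^ (c * c), AP B w c → AP B w' c →
    ∃ g < K, ∃ l < K, ∃ p < K, ∃ q < K, AP B g l ∧ p + c ≤ l ∧ Wn w 0 g p c ∧ q + c ≤ l ∧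
      Wn w' 0 g q c ∧ p + c ≤ q ∧
      (∀ x < p + c, ∀ y < p + c, p ≤ x → p ≤ y → R g 0 (p + c) x y) ∧
      (∀ x < q + c, ∀ y < q + c, q ≤ x → q ≤ y → R g q l x y)

theorem PU2_mono {c K K' : ℕ} (h : K ≤ K') (h1 : PU2 B c K) : PU2 B c K' := by
  intro w hw w' hw' h2 h3
  obtain ⟨g, hg, l, hl, p, hp, q, hq, h4⟩ := h1 w hw w' hw' h2 h3
  exact ⟨g, by omega, l, by omega, p, by omega, q, by omega, h4⟩

theorem res_agr_reach {Z Z' : SimpleGraph ℤ} {l a b : ℤ} (h : Agr Z Z' 0 l 0) (ha : 0 ≤ a)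
    (hb : b ≤ l) (x y : ℤ) : (res Z a b).Reachable x y ↔ (res Z' a b).Reachable x y := by
  rw [res_eq_of_agr (h.mono ha hb)]

theorem PU_iff {c : ℕ} (hA : Cls (AB B) c) : (PX B c c ∧ ∃ K, PU2 B c K) ↔ CertU (AB B) c := by
  unfold CertU
  rw [PX_iff hA]
  refine and_congr Iff.rfl ?_
  constructor
  · rintro ⟨K, h⟩ W W' hW hW'
    obtain ⟨w, hw, hw1, hw2⟩ := exists_code hA hW
    obtain ⟨w', hw', hw1', hw2'⟩ := exists_code hA hW'
    obtain ⟨g, _, l, _, p, _, q, _, hg, hpl, hp, hql, hq, hpq, h1, h2⟩ :=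
      h w hw w' hw' hw2 hw2'
    refine ⟨gr g, l, p, q, (AP_iff B g l).1 hg, occ_of_wn hw1 (gr_agr _ _ _) hpl hp,
      occ_of_wn hw1' (gr_agr _ _ _) hql hq, by omega, ?_, ?_⟩
    · intro x y hx hx' hy hy'
      lift x to ℕ using by omega
      lift y to ℕ using by omega
      have h3 := (R_iff (g := g) (a := 0) (b := p + c) (u := x) (v := y) (by omega) (by omega)
        (by omega)).1 (h1 x (by omega) y (by omega) (by omega) (by omega))
      push_cast at h3
      exact h3
    · intro x y hx hx' hy hy'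
      lift x to ℕ using by omega
      lift y to ℕ using by omega
      exact (R_iff (g := g) (a := q) (b := l) (u := x) (v := y) (by omega) (by omega)
        (by omega)).1 (h2 x (by omega) y (by omega) (by omega) (by omega))
  · intro h
    -- one bound for all pairs
    have key : ∀ w w' : ℕ, AP B w c → AP B w' c →
        ∃ K, ∀ K', K ≤ K' → ∃ g < K', ∃ l < K', ∃ p < K', ∃ q < K', AP B g l ∧ p + c ≤ l ∧
          Wn w 0 g p c ∧ q + c ≤ l ∧ Wn w' 0 g q c ∧ p + c ≤ q ∧
          (∀ x < p + c, ∀ y < p + c, p ≤ x → p ≤ y → R g 0 (p + c) x y) ∧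
          (∀ x < q + c, ∀ y < q + c, q ≤ x → q ≤ y → R g q l x y) := by
      intro w w' hw hw'
      obtain ⟨Z, l, p, q, hZ, hp, hq, hpq, h1, h2⟩ :=
        h (gr w) (gr w') ((AP_iff B w c).1 hw) ((AP_iff B w' c).1 hw')
      have hl0 := hA.pos hZ
      lift l to ℕ using hl0.le
      obtain ⟨g, hg, hg1, hg2⟩ := exists_code hA hZ
      obtain ⟨p, rfl, hp2, hp3⟩ := wn_of_occ (gr_agr _ _ _) hg1 hp
      obtain ⟨q, rfl, hq2, hq3⟩ := wn_of_occ (gr_agr _ _ _) hg1 hq
      refine ⟨g + l + p + q + 1, fun K' hK => ⟨g, by omega, l, by omega, p, by omega, q,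
        by omega, hg2, hp2, hp3, hq2, hq3, by omega, ?_, ?_⟩⟩
      · intro x hx y hy hx' hy'
        rw [R_iff (by omega) (by omega) (by omega)]
        have h3 := h1 x y (by omega) (by omega) (by omega) (by omega)
        rw [res_agr_reach hg1 (by omega) (by omega)] at h3
        push_cast
        exact h3
      · intro x hx y hy hx' hy'
        rw [R_iff (by omega) (by omega) (by omega)]
        have h3 := h2 x y (by omega) (by omega) (by omega) (by omega)
        rw [res_agr_reach hg1 (by omega) (by omega)] at h3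
        exact h3
    classical
    choose! F hF using key
    refine ⟨∑ w ∈ Finset.range (2 ^ (c * c)), ∑ w' ∈ Finset.range (2 ^ (c * c)), F w w',
      fun w hw w' hw' h1 h2 => hF w w' h1 h2 _ ?_⟩
    refine (Finset.single_le_sum (f := fun w' => F w w') (fun _ _ => Nat.zero_le _)
      (Finset.mem_range.2 hw')).trans ?_
    exact Finset.single_le_sum (f := fun w => ∑ w' ∈ Finset.range (2 ^ (c * c)), F w w')
      (fun _ _ => Nat.zero_le _) (Finset.mem_range.2 hw)

/-- the conditions on the windows of `g` -/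
def PB2 (N g m r : ℕ) : Prop :=
  (∀ p < m + r, ∀ q < m + r, m ≤ p → Wn g p g q N → Wn g p g q (N + 1)) ∧
  (∀ p < m + 1, ∀ q < m + r + 1, 0 < p → 0 < q → Wn g p g q N →
    Wn g (p - 1) g (q - 1) (N + 1)) ∧
  (∀ p < m + 1, ∀ q < m + r + 1, m ≤ q → Wn g p g q N → p = q)

/-- the certificate of classes with a rare element -/
def PB1 (B : List FCode) (c N g m r : ℕ) : Prop :=
  c ≤ N ∧ 2 ≤ N ∧ PX B N (N + 1) ∧
  (∀ x < 2 ^ (N * N), AP B x N → ∀ u < N, ∀ v < N, R x 0 N u v) ∧ AP B g (m + r + N) ∧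
  (∀ y < 2 ^ ((N + 1) * (N + 1)), AP B y (N + 1) → ∃ q < m + r, Wn y 0 g q (N + 1)) ∧
  PB2 N g m r

theorem conn_iff {k : ℤ} (hA : Cls (AB B) k) (N : ℕ) :
    (∀ x < 2 ^ (N * N), AP B x N → ∀ u < N, ∀ v < N, R x 0 N u v) ↔ Conn (AB B) N := by
  constructor
  · intro h X hX x y hx hx' hy hy'
    obtain ⟨g, hg, hg1, hg2⟩ := exists_code hA hX
    lift x to ℕ using hx
    lift y to ℕ using hy
    rw [res_agr_reach hg1 le_rfl le_rfl]
    have h1 := (R_iff (g := g) (a := 0) (b := N) (by omega) (by omega) (by omega)).1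
      (h g hg hg2 x (by omega) y (by omega))
    push_cast at h1
    exact h1
  · intro h x _ hx u hu v hv
    rw [R_iff (by omega) hu hv]
    have h1 := h (gr x) ((AP_iff B x N).1 hx) u v (by omega) (by omega) (by omega) (by omega)
    push_cast
    exact h1

theorem wn_self {g p q N : ℕ} : Wn g p g q N ↔ Agr (gr g) (gr g) p (p + N) (q - p) :=
  Wn_iff _ _ _ _ _

theorem PB1_iff {c : ℕ} (hA : Cls (AB B) c) (N g m r : ℕ) :
    PB1 B c N g m r ↔ CertB (AB B) c N (gr g) m r := by
  constructor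
  · rintro ⟨h1, h2, h3, h4, h5, h6, h7, h8, h9⟩
    refine ⟨by omega, by omega, by omega, by omega, ?_, (conn_iff hA N).1 h4, ?_, ?_, ?_, ?_, ?_⟩
    · have := (PX_iff hA N (N + 1)).1 h3
      push_cast at this
      exact this
    · have := (AP_iff B g _).1 h5
      push_cast at this
      exact this
    · intro Y hY
      have hY' : AB B Y 0 ((N + 1 : ℕ) : ℤ) := by push_cast; exact hY
      obtain ⟨y, hy, hy1, hy2⟩ := exists_code hA hY'
      obtain ⟨q, hq, hw⟩ := h6 y hy hy2
      rw [Wn_iff] at hw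
      refine ⟨q, by omega, by omega, ?_⟩
      have h10 : Agr Y (gr g) 0 ((N + 1 : ℕ) : ℤ) q := hy1.trans hw (by (try push_cast) <;> omega)
        (by (try push_cast) <;> omega) (by (try push_cast) <;> omega)
      push_cast at h10
      exact h10
    · intro p q hp hp' hq hq' h10
      lift p to ℕ using by omega
      lift q to ℕ using hq
      have := wn_self.1 (h7 p (by omega) q (by omega) (by omega) (wn_self.2 h10))
      push_cast at this
      exact this
    · intro p q hp hp' hq hq' h10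
      lift p to ℕ using by omega
      lift q to ℕ using by omega
      have := wn_self.1 (h8 p (by omega) q (by omega) (by omega) (by omega) (wn_self.2 h10))
      rw [Nat.cast_sub (by omega), Nat.cast_sub (by omega)] at this
      push_cast at this
      have e1 : (p : ℤ) - 1 + (N + 1) = p + N := by ring
      have e2 : (q : ℤ) - 1 - (p - 1) = q - p := by ring
      rwa [e1, e2] at this
    · intro p q hp hp' hq hq' h10
      lift p to ℕ using hp
      lift q to ℕ using by omega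
      have := h9 p (by omega) q (by omega) (by omega) (wn_self.2 h10)
      exact_mod_cast this
  · intro h
    refine ⟨by have := h.hN; omega, by have := h.hN2; omega, ?_, (conn_iff hA N).2 h.conn, ?_, ?_,
      ?_, ?_, ?_⟩
    · rw [PX_iff hA]
      push_cast
      exact h.ext
    · rw [AP_iff]
      push_cast
      exact h.mem
    · intro y _ hy
      rw [AP_iff] at hy
      push_cast at hy
      obtain ⟨q, hq, hq', h1⟩ := h.all _ hy
      lift q to ℕ using hq
      refine ⟨q, by omega, ?_⟩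
      rw [Wn_iff]
      push_cast
      exact h1.mono le_rfl (by omega) |>.trans (agr_refl _ _ _) le_rfl le_rfl (by omega)
    · intro p hp q hq hmp h1
      rw [wn_self]
      push_cast
      exact h.right p q (by omega) (by omega) (by omega) (by omega) (wn_self.1 h1)
    · intro p hp q hq hp0 hq0 h1
      rw [wn_self, Nat.cast_sub (by omega), Nat.cast_sub (by omega)]
      push_cast
      have e1 : (p : ℤ) - 1 + (N + 1) = p + N := by ring
      have e2 : (q : ℤ) - 1 - (p - 1) = q - p := by ring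
      rw [e1, e2]
      exact h.left p q (by omega) (by omega) (by omega) (by omega) (wn_self.1 h1)
    · intro p hp q hq hmq h1
      have := h.uniq p q (by omega) (by omega) (by omega) (by omega) (wn_self.1 h1)
      exact_mod_cast this

theorem CertB_agr {c : ℤ} (hA : Cls (AB B) c) {N m r : ℤ} {Z Z' : SimpleGraph ℤ}
    (h : CertB (AB B) c N Z m r) (hag : Agr Z Z' 0 (m + r + N) 0) :
    CertB (AB B) c N Z' m r := by
  have hN2 := h.hN2
  have hm := h.hm
  have hr := h.hr
  have key : ∀ p q n : ℤ, 0 ≤ p → 0 ≤ q → p + n ≤ m + r + N → q + n ≤ m + r + N →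
      (Agr Z' Z' p (p + n) (q - p) ↔ Agr Z Z p (p + n) (q - p)) := by
    intro p q n hp hq hpn hqn
    constructor
    · intro h1
      exact ((hag.mono (a' := p) (b' := p + n) hp hpn).trans h1 (t'' := q - p) (by omega)
        (by omega) (by omega)).trans ((hag.mono (a' := q) (b' := q + n) hq hqn).symm (a' := q)
        (b' := q + n) (t' := 0) (by omega) (by omega) (by omega)) (by omega) (by omega) (by omega)
    · intro h1
      exact (((hag.mono (a' := p) (b' := p + n) hp hpn).symm (a' := p) (b' := p + n) (t' := 0)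
        (by omega) (by omega) (by omega)).trans h1 (t'' := q - p) (by omega)
        (by omega) (by omega)).trans (hag.mono (a' := q) (b' := q + n) hq hqn) (by omega)
          (by omega) (by omega)
  refine ⟨h.hN, hN2, hm, hr, h.ext, h.conn, hA.agr0 h.mem hag, ?_, ?_, ?_, ?_⟩
  · intro Y hY
    obtain ⟨q, hq, hq', h1⟩ := h.all Y hY
    exact ⟨q, hq, hq', h1.trans hag (by omega) (by omega) (by omega)⟩
  · intro p q hp hp' hq hq' h1
    rw [key p q N (by omega) (by omega) (by omega) (by omega)] at h1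
    rw [key p q (N + 1) (by omega) (by omega) (by omega) (by omega)]
    exact h.right p q hp hp' hq hq' h1
  · intro p q hp hp' hq hq' h1
    rw [key p q N (by omega) (by omega) (by omega) (by omega)] at h1
    have h2 := h.left p q hp hp' hq hq' h1
    have h3 := key (p - 1) (q - 1) (N + 1) (by omega) (by omega) (by omega) (by omega)
    have e1 : p - 1 + (N + 1) = p + N := by ring
    have e2 : q - 1 - (p - 1) = q - p := by ring
    rw [e1, e2] at h3
    rw [h3]
    exact h2
  · intro p q hp hp' hq hq' h1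
    rw [key p q N (by omega) (by omega) (by omega) (by omega)] at h1
    exact h.uniq p q hp hp' hq hq' h1

/-- the certificate -/
def PB (B : List FCode) (c K : ℕ) : Prop :=
  ∃ N < K, ∃ g < K, ∃ m < K, ∃ r < K, PB1 B c N g m r

theorem PB_iff {c : ℕ} (hA : Cls (AB B) c) :
    (∃ K, PB B c K) ↔ ∃ N Z m r, CertB (AB B) c N Z m r := by
  constructor
  · rintro ⟨K, N, _, g, _, m, _, r, _, h⟩
    exact ⟨N, gr g, m, r, (PB1_iff hA N g m r).1 h⟩
  · rintro ⟨N, Z, m, r, h⟩
    have hN2 := h.hN2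
    obtain ⟨N, rfl⟩ := Int.eq_ofNat_of_zero_le (by omega : 0 ≤ N)
    obtain ⟨m, rfl⟩ := Int.eq_ofNat_of_zero_le h.hm
    obtain ⟨r, rfl⟩ := Int.eq_ofNat_of_zero_le h.hr
    obtain ⟨g, _, hg⟩ := exists_gr Z (m + r + N)
    have h1 := CertB_agr hA h (by push_cast at hg; exact hg)
    exact ⟨N + g + m + r + 1, N, by omega, g, by omega, m, by omega, r, by omega,
      (PB1_iff hA N g m r).2 h1⟩

/-- the certificate for the failure of the joint embedding property -/
def PN (B : List FCode) (c K : ℕ) : Prop :=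
  ∃ n < K, ∃ x < K, ∃ m < K, ∃ y < K, AP B x n ∧ AP B y m ∧
    ∀ l < n + m + (c + stn c) + 1, ∀ g < 2 ^ (l * l), AP B g l → ∀ s < l + 1, ∀ t < l + 1,
      ¬ (s + n ≤ l ∧ t + m ≤ l ∧ Wn x 0 g s n ∧ Wn y 0 g t m)

theorem PN_iff {c : ℕ} (hA : Cls (AB B) c) : (∃ K, PN B c K) ↔ ¬ JEP (AB B) := by
  rw [jep_iff_bounded hA]
  constructor
  · rintro ⟨K, n, _, x, _, m, _, y, _, hx, hy, h⟩ hJ
    obtain ⟨l, hl, Z, s, t, hZ, hs, ht⟩ := hJ (gr x) n (gr y) m ((AP_iff B x n).1 hx)
      ((AP_iff B y m).1 hy)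
    have hl0 := hA.pos hZ
    lift l to ℕ using hl0.le
    obtain ⟨g, hg, hg1, hg2⟩ := exists_code hA hZ
    obtain ⟨s, rfl, hs2, hs3⟩ := wn_of_occ (gr_agr _ _ _) hg1 hs
    obtain ⟨t, rfl, ht2, ht3⟩ := wn_of_occ (gr_agr _ _ _) hg1 ht
    exact h l (by push_cast at hl; omega) g hg hg2 s (by omega) t (by omega)
      ⟨hs2, ht2, hs3, ht3⟩
  · intro h
    push Not at h
    obtain ⟨X, n, Y, m, hX, hY, h1⟩ := h
    have hn0 := hA.pos hX
    have hm0 := hA.pos hY
    lift n to ℕ using hn0.le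
    lift m to ℕ using hm0.le
    obtain ⟨x, hx, hx1, hx2⟩ := exists_code hA hX
    obtain ⟨y, hy, hy1, hy2⟩ := exists_code hA hY
    refine ⟨n + x + m + y + 1, n, by omega, x, by omega, m, by omega, y, by omega, hx2, hy2,
      fun l hl g _ hg s _ t _ h2 => ?_⟩
    obtain ⟨h3, h4, h5, h6⟩ := h2
    exact h1 l (by push_cast; omega) ⟨gr g, s, t, (AP_iff B g l).1 hg,
      occ_of_wn hx1 (gr_agr _ _ _) h3 h5, occ_of_wn hy1 (gr_agr _ _ _) h4 h6⟩

end Pool.Agent.Q221.Forest
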