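import Pool.Agent.Q221.Forest.Glue

set_option autoImplicit false

/-!
# Classes of ordered forests which are given by local conditions

The vertices are integers; an ordered forest is a graph `G` together with an interval `[a, b)`.
-/

namespace Pool.Agent.Q221.Forest

open SimpleGraph

/-- the part of `G` inside `[a, b)` -/
def res (G : SimpleGraph ℤ) (a b : ℤ) : SimpleGraph ℤ where
  Adj i j := G.Adj i j ∧ (a ≤ i ∧ i < b) ∧ (a ≤ j ∧ j < b)
  symm := ⟨fun _ _ h => ⟨h.1.symm, h.2.2, h.2.1⟩⟩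
  loopless := ⟨fun _ h => h.1.ne rfl⟩

/-- `G` on `[a, b)` is the same as `G'` on `[a + t, b + t)` -/
def Agr (G G' : SimpleGraph ℤ) (a b t : ℤ) : Prop :=
  ∀ i j, a ≤ i → i < b → a ≤ j → j < b → (G.Adj i j ↔ G'.Adj (i + t) (j + t))

/-- the translate of `G` by `t` -/
def sh (G : SimpleGraph ℤ) (t : ℤ) : SimpleGraph ℤ where
  Adj i j := G.Adj (i - t) (j - t)
  symm := ⟨fun _ _ h => h.symm⟩
  loopless := ⟨fun _ h => h.ne rfl⟩

theorem agr_refl (G : SimpleGraph ℤ) (a b : ℤ) : Agr G G a b 0 := by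
  intro i j _ _ _ _; rw [add_zero, add_zero]

theorem Agr.mono {G G' : SimpleGraph ℤ} {a b a' b' t : ℤ} (h : Agr G G' a b t) (h1 : a ≤ a')
    (h2 : b' ≤ b) : Agr G G' a' b' t := fun i j hi hi' hj hj' =>
  h i j (by omega) (by omega) (by omega) (by omega)

theorem Agr.symm {G G' : SimpleGraph ℤ} {a b t : ℤ} (h : Agr G G' a b t) {a' b' t' : ℤ}
    (h1 : a' = a + t) (h2 : b' = b + t) (h3 : t' = -t) : Agr G' G a' b' t' := by
  subst h1 h2 h3
  intro i j hi hi' hj hj'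
  have := h (i + -t) (j + -t) (by omega) (by omega) (by omega) (by omega)
  rw [this]
  simp

theorem Agr.trans {G G' G'' : SimpleGraph ℤ} {a b t a' b' t' t'' : ℤ} (h : Agr G G' a b t)
    (h' : Agr G' G'' a' b' t') (h1 : a' ≤ a + t) (h2 : b + t ≤ b') (h3 : t'' = t + t') :
    Agr G G'' a b t'' := by
  subst h3
  intro i j hi hi' hj hj'
  rw [h i j hi hi' hj hj', h' (i + t) (j + t) (by omega) (by omega) (by omega) (by omega)]
  rw [add_assoc, add_assoc]

theorem agr_sh (G : SimpleGraph ℤ) (a b t : ℤ) : Agr G (sh G t) a b t := by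
  intro i j _ _ _ _
  simp [sh]

theorem agr_of_eq {G G' : SimpleGraph ℤ} {a b : ℤ}
    (h : ∀ i j, a ≤ i → i < b → a ≤ j → j < b → (G.Adj i j ↔ G'.Adj i j)) : Agr G G' a b 0 := by
  intro i j hi hi' hj hj'; rw [add_zero, add_zero]; exact h i j hi hi' hj hj'

theorem Agr.eq {G G' : SimpleGraph ℤ} {a b : ℤ} (h : Agr G G' a b 0) {i j : ℤ} (hi : a ≤ i)
    (hi' : i < b) (hj : a ≤ j) (hj' : j < b) : G.Adj i j ↔ G'.Adj i j := by
  have := h i j hi hi' hj hj'
  rwa [add_zero, add_zero] at this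

theorem res_mono_left {G : SimpleGraph ℤ} {a b a' b' : ℤ} (h1 : a' ≤ a) (h2 : b ≤ b') :
    res G a b ≤ res G a' b' := by
  intro i j h
  obtain ⟨h, h3, h4⟩ := h
  exact ⟨h, ⟨by omega, by omega⟩, ⟨by omega, by omega⟩⟩

theorem res_le (G : SimpleGraph ℤ) (a b : ℤ) : res G a b ≤ G := fun _ _ h => h.1

theorem res_eq_of_agr {G G' : SimpleGraph ℤ} {a b : ℤ} (h : Agr G G' a b 0) :
    res G a b = res G' a b := by
  ext i j
  constructor
  · rintro ⟨h1, h2, h3⟩
    exact ⟨(h.eq h2.1 h2.2 h3.1 h3.2).1 h1, h2, h3⟩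
  · rintro ⟨h1, h2, h3⟩
    exact ⟨(h.eq h2.1 h2.2 h3.1 h3.2).2 h1, h2, h3⟩

/-- translation of reachability -/
theorem reach_shift {G G' : SimpleGraph ℤ} {a b t : ℤ} (h : Agr G G' a b t) {x y : ℤ}
    (hr : (res G a b).Reachable x y) : (res G' (a + t) (b + t)).Reachable (x + t) (y + t) := by
  rw [reachable_iff_reflTransGen] at hr
  induction hr with
  | refl => exact Reachable.refl _
  | @tail y z _ hyz ih =>
    obtain ⟨h1, h2, h3⟩ := hyz
    refine ih.trans (Adj.reachable ⟨(h y z h2.1 h2.2 h3.1 h3.2).1 h1, ⟨by omega, by omega⟩,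
      ⟨by omega, by omega⟩⟩)

theorem reach_shift_iff {G G' : SimpleGraph ℤ} {a b t a' b' : ℤ} (h : Agr G G' a b t)
    (ha : a' = a + t) (hb : b' = b + t) {x y : ℤ} :
    (res G' a' b').Reachable (x + t) (y + t) ↔ (res G a b).Reachable x y := by
  subst ha hb
  refine ⟨fun hr => ?_, reach_shift h⟩
  have := reach_shift (h.symm rfl rfl rfl) hr
  simpa using this

/-- A class of ordered forests which is closed under intervals and translations, with a local
condition of size `c + 1`. -/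
structure Cls (A : SimpleGraph ℤ → ℤ → ℤ → Prop) (c : ℤ) : Prop where
  one_le : 1 ≤ c
  pos : ∀ {G a b}, A G a b → a < b
  agr : ∀ {G G' a b t}, A G a b → Agr G G' a b t → A G' (a + t) (b + t)
  sub : ∀ {G a b a' b'}, A G a b → a ≤ a' → a' < b' → b' ≤ b → A G a' b'
  acyc : ∀ {G a b}, A G a b → (res G a b).IsAcyclic
  loc : ∀ {G a b}, c + 1 ≤ b - a → (res G a b).IsAcyclic →
    (∀ p, a ≤ p → p + (c + 1) ≤ b → A G p (p + (c + 1))) → A G a b

variable {A : SimpleGraph ℤ → ℤ → ℤ → Prop} {c : ℤ}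

theorem Cls.agr' (hA : Cls A c) {G G' : SimpleGraph ℤ} {a b t a' b' : ℤ} (h : A G a b)
    (h1 : Agr G G' a b t) (ha : a' = a + t) (hb : b' = b + t) : A G' a' b' := by
  subst ha hb; exact hA.agr h h1

theorem Cls.agr0 (hA : Cls A c) {G G' : SimpleGraph ℤ} {a b : ℤ} (h : A G a b)
    (h1 : Agr G G' a b 0) : A G' a b := hA.agr' h h1 (by omega) (by omega)

theorem Cls.short_agr (hA : Cls A c) {G G' : SimpleGraph ℤ} {a b : ℤ} (h : A G a b)
    (h1 : ∀ i j, a ≤ i → i < j → j < b → j - i ≤ c → (G.Adj i j ↔ G'.Adj i j))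
    (h2 : (res G' a b).IsAcyclic) : A G' a b := by
  have h1' : ∀ i j, a ≤ i → i < b → a ≤ j → j < b → j - i ≤ c → i - j ≤ c →
      (G.Adj i j ↔ G'.Adj i j) := by
    intro i j hi hi' hj hj' h3 h4
    rcases lt_trichotomy i j with h5 | h5 | h5
    · exact h1 i j hi h5 hj' h3
    · subst h5; exact ⟨fun h => absurd h (G.irrefl), fun h => absurd h (G'.irrefl)⟩
    · have := h1 j i hj h5 hi' h4
      rw [adj_comm, this, adj_comm]
  rcases lt_or_ge (b - a) (c + 1) with h3 | h3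
  · exact hA.agr0 h (agr_of_eq fun i j hi hi' hj hj' =>
      h1' i j hi hi' hj hj' (by omega) (by omega))
  · refine hA.loc h3 h2 fun p hp hp' => ?_
    have h4 := hA.sub h hp (by have := hA.one_le; omega) hp'
    exact hA.agr0 h4 (agr_of_eq fun i j hi hi' hj hj' =>
      h1' i j (by omega) (by omega) (by omega) (by omega) (by omega) (by omega))

/-- gluing -/
def gl (X : SimpleGraph ℤ) (a b : ℤ) (Y : SimpleGraph ℤ) (a' b' : ℤ) : SimpleGraph ℤ :=
  res X a b ⊔ res Y a' b'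

theorem gl_left {X Y : SimpleGraph ℤ} {a b a' b' : ℤ} (h : Agr X Y a' b 0) :
    Agr X (gl X a b Y a' b') a b 0 := by
  refine agr_of_eq fun i j hi hi' hj hj' => ⟨fun h1 => Or.inl ⟨h1, ⟨hi, hi'⟩, ⟨hj, hj'⟩⟩, ?_⟩
  rintro (⟨h1, -, -⟩ | ⟨h1, h2, h3⟩)
  · exact h1
  · exact (h.eq h2.1 hi' h3.1 hj').2 h1

theorem gl_right {X Y : SimpleGraph ℤ} {a b a' b' : ℤ} (h : Agr X Y a' b 0) :
    Agr Y (gl X a b Y a' b') a' b' 0 := by
  refine agr_of_eq fun i j hi hi' hj hj' => ⟨fun h1 => Or.inr ⟨h1, ⟨hi, hi'⟩, ⟨hj, hj'⟩⟩, ?_⟩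
  rintro (⟨h1, h2, h3⟩ | ⟨h1, -, -⟩)
  · exact (h.eq hi h2.2 hj h3.2).1 h1
  · exact h1

theorem Cls.glue (hA : Cls A c) {X Y : SimpleGraph ℤ} {a b a' b' : ℤ} (hX : A X a b)
    (hY : A Y a' b') (h1 : a ≤ a') (h2 : a' + c ≤ b) (h3 : b ≤ b') (h : Agr X Y a' b 0)
    (hac : (gl X a b Y a' b').IsAcyclic) : A (gl X a b Y a' b') a b' := by
  have hc := hA.one_le
  have hres : (res (gl X a b Y a' b') a b').IsAcyclic := hac.anti (res_le _ _ _)
  rcases lt_or_ge (b' - a) (c + 1) with h4 | h4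
  · -- then `a = a'` and `b = b'`
    have e1 : a = a' := by omega
    have e2 : b = b' := by omega
    subst e1 e2
    exact hA.agr0 hX (gl_left h)
  · refine hA.loc h4 hres fun p hp hp' => ?_
    rcases le_or_gt (p + (c + 1)) b with h5 | h5
    · exact hA.agr0 (hA.sub hX hp (by omega) h5) ((gl_left h).mono hp h5)
    · exact hA.agr0 (hA.sub hY (by omega) (by omega) hp') ((gl_right h).mono (by omega) hp')

theorem Cls.glue_conn (hA : Cls A c) {X Y : SimpleGraph ℤ} {a b a' b' : ℤ} (hX : A X a b)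
    (hY : A Y a' b') (h1 : a ≤ a') (h2 : a' + c ≤ b) (h3 : b ≤ b') (h : Agr X Y a' b 0)
    (hco : ∀ x y, a' ≤ x → x < b → a' ≤ y → y < b → (res Y a' b).Reachable x y) :
    A (gl X a b Y a' b') a b' := by
  refine hA.glue hX hY h1 h2 h3 h ?_
  have key := glue_acyclic (res Y a' b) (res X a b) (res Y a' b' \ res Y a' b)
    {x | a' ≤ x ∧ x < b} ?_ ?_ (hA.acyc hX) ?_ ?_
  · refine key.anti ?_
    intro i j hij
    rcases hij with hij | hij
    · exact Or.inl hij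
    · by_cases h4 : i < b ∧ j < b
      · obtain ⟨h5, h6, h7⟩ := hij
        exact Or.inl ⟨(h.eq h6.1 h4.1 h7.1 h4.2).2 h5, ⟨by omega, h4.1⟩, ⟨by omega, h4.2⟩⟩
      · exact Or.inr ⟨hij, fun h5 => h4 ⟨h5.2.1.2, h5.2.2.2⟩⟩
  · intro x y z hxy hxz
    exact ⟨hxz.1.2.1.1, hxy.2.1.2⟩
  · intro x hx y hy _
    exact hco x y hx.1 hx.2 hy.1 hy.2
  · intro x y h4 h5
    exact h5.2 h4
  · refine (hA.acyc hY).anti ?_
    intro i j hij
    rcases hij with hij | hij
    · exact res_mono_left le_rfl h3 hij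
    · exact hij.1

/-- replacing the left part -/
theorem Cls.transfer_left (hA : Cls A c) {Z X : SimpleGraph ℤ} {a l x b : ℤ} (hZ : A Z a l)
    (hX : A X b x) (h1 : a ≤ x - c) (h2 : b ≤ x - c) (h3 : x ≤ l) (h : Agr X Z (x - c) x 0)
    (hco : ∀ u v, x - c ≤ u → u < x → x - c ≤ v → v < x → (res X b x).Reachable u v →
      (res Z a x).Reachable u v) :
    A (gl X b x Z (x - c) l) b l := by
  have hc := hA.one_le
  refine hA.glue hX (hA.sub hZ h1 (by omega) le_rfl) h2 (by omega) h3 h ?_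
  have key := glue_acyclic (res Z a x) (res X b x) (res Z (x - c) l \ res Z a x)
    {u | x - c ≤ u ∧ u < x} ?_ ?_ (hA.acyc hX) ?_ ?_
  · refine key.anti ?_
    intro i j hij
    rcases hij with hij | hij
    · exact Or.inl hij
    · by_cases h4 : i < x ∧ j < x
      · obtain ⟨h5, h6, h7⟩ := hij
        exact Or.inl ⟨(h.eq h6.1 h4.1 h7.1 h4.2).2 h5, ⟨by omega, h4.1⟩, ⟨by omega, h4.2⟩⟩
      · exact Or.inr ⟨hij, fun h5 => h4 ⟨h5.2.1.2, h5.2.2.2⟩⟩
  · intro u v w huv huw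
    exact ⟨huw.1.2.1.1, huv.2.1.2⟩
  · intro u hu v hv h4
    exact hco u v hu.1 hu.2 hv.1 hv.2 h4
  · intro u v h4 h5
    exact h5.2 h4
  · refine (hA.acyc hZ).anti ?_
    intro i j hij
    rcases hij with hij | hij
    · exact res_mono_left le_rfl h3 hij
    · exact res_mono_left h1 le_rfl hij.1

/-- replacing the right part -/
theorem Cls.transfer_right (hA : Cls A c) {Z Y : SimpleGraph ℤ} {a l x m : ℤ} (hZ : A Z a l)
    (hY : A Y x m) (h1 : a ≤ x) (h2 : x + c ≤ l) (h3 : x + c ≤ m) (h : Agr Z Y x (x + c) 0)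
    (hco : ∀ u v, x ≤ u → u < x + c → x ≤ v → v < x + c → (res Y x m).Reachable u v →
      (res Z x l).Reachable u v) :
    A (gl Z a (x + c) Y x m) a m := by
  have hc := hA.one_le
  refine hA.glue (hA.sub hZ le_rfl (by omega) h2) hY h1 le_rfl h3 h ?_
  have key := glue_acyclic (res Z x l) (res Y x m) (res Z a (x + c) \ res Z x l)
    {u | x ≤ u ∧ u < x + c} ?_ ?_ (hA.acyc hY) ?_ ?_
  · refine key.anti ?_
    intro i j hij
    rcases hij with hij | hij
    · by_cases h4 : x ≤ i ∧ x ≤ j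
      · obtain ⟨h5, h6, h7⟩ := hij
        exact Or.inl ⟨(h.eq h4.1 h6.2 h4.2 h7.2).1 h5, ⟨by omega, by omega⟩, ⟨by omega, by omega⟩⟩
      · exact Or.inr ⟨hij, fun h5 => h4 ⟨h5.2.1.1, h5.2.2.1⟩⟩
    · exact Or.inl hij
  · intro u v w huv huw
    exact ⟨huv.2.1.1, huw.1.2.1.2⟩
  · intro u hu v hv h4
    exact hco u v hu.1 hu.2 hv.1 hv.2 h4
  · intro u v h4 h5
    exact h5.2 h4
  · refine (hA.acyc hZ).anti ?_
    intro i j hij
    rcases hij with hij | hij
    · exact res_mono_left h1 le_rfl hij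
    · exact res_mono_left le_rfl h2 hij.1

end Pool.Agent.Q221.Forest
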