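import Pool.Agent.Q221.Forest.Join

set_option autoImplicit false

/-!
# Codes of graphs
-/

namespace Pool.Agent.Q221.Forest

open SimpleGraph

/-- the `k`-th bit of `S` is one -/
def bt (S k : ℕ) : Prop := S / 2 ^ k % 2 = 1

theorem bt_iff (S k : ℕ) : bt S k ↔ S.testBit k = true := by
  rw [bt, Nat.testBit_eq_decide_div_mod_eq, decide_eq_true_iff]

theorem exists_bits (M : ℕ) (P : ℕ → Prop) : ∃ S < 2 ^ M, ∀ k < M, (bt S k ↔ P k) := by
  classical
  refine ⟨Nat.ofBits fun i : Fin M => decide (P i), Nat.ofBits_lt_two_pow _, fun k hk => ?_⟩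
  rw [bt_iff, Nat.testBit_ofBits_lt _ _ hk, decide_eq_true_iff]

/-- adjacency in the graph with the code `g` -/
def E (g i j : ℕ) : Prop := i ≠ j ∧ bt g (Nat.pair (min i j) (max i j))

theorem E_comm (g i j : ℕ) : E g i j ↔ E g j i := by
  unfold E
  rw [min_comm, max_comm, ne_comm]

/-- the graph with the code `g` -/
def gr (g : ℕ) : SimpleGraph ℤ where
  Adj i j := 0 ≤ i ∧ 0 ≤ j ∧ E g i.toNat j.toNat
  symm := ⟨fun _ _ h => ⟨h.2.1, h.1, (E_comm _ _ _).1 h.2.2⟩⟩
  loopless := ⟨fun _ h => h.2.2.1 rfl⟩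

theorem gr_adj (g i j : ℕ) : (gr g).Adj i j ↔ E g i j := by
  simp [gr]

theorem exists_gr (X : SimpleGraph ℤ) (n : ℕ) : ∃ g < 2 ^ (n * n), Agr X (gr g) 0 n 0 := by
  obtain ⟨g, hg, h⟩ := exists_bits (n * n)
    fun k => X.Adj ((Nat.unpair k).1 : ℕ) ((Nat.unpair k).2 : ℕ)
  refine ⟨g, hg, agr_of_eq fun i j hi hi' hj hj' => ?_⟩
  lift i to ℕ using hi
  lift j to ℕ using hj
  rw [gr_adj]
  have key : ∀ i j : ℕ, i < n → j < n → i < j → (X.Adj i j ↔ bt g (Nat.pair i j)) := by
    intro i j hi hj hij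
    have h1 : Nat.pair i j < n * n := by
      refine (Nat.pair_lt_max_add_one_sq i j).trans_le ?_
      rw [sq]
      exact Nat.mul_le_mul (by omega) (by omega)
    rw [h _ h1, Nat.unpair_pair]
  unfold E
  rcases lt_trichotomy i j with h1 | h1 | h1
  · rw [key i j (by omega) (by omega) h1, min_eq_left h1.le, max_eq_right h1.le]
    exact ⟨fun h2 => ⟨by omega, h2⟩, fun h2 => h2.2⟩
  · subst h1
    exact ⟨fun h2 => absurd h2 (X.irrefl), fun h2 => absurd rfl h2.1⟩
  · rw [adj_comm, key j i (by omega) (by omega) h1, min_eq_right h1.le, max_eq_left h1.le]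
    exact ⟨fun h2 => ⟨by omega, h2⟩, fun h2 => h2.2⟩

/-- reachability -/
def R (g a b u v : ℕ) : Prop := ∀ S < 2 ^ b, bt S u →
  (∀ i < b, ∀ j < b, a ≤ i → a ≤ j → bt S i → E g i j → bt S j) → bt S v

theorem R_iff {g a b u v : ℕ} (hu : a ≤ u) (hu' : u < b) (hv' : v < b) :
    R g a b u v ↔ (res (gr g) a b).Reachable (u : ℤ) v := by
  classical
  constructor
  · intro h
    obtain ⟨S, hS, h1⟩ := exists_bits b fun k => (res (gr g) a b).Reachable (u : ℤ) k
    rw [← h1 v hv']
    refine h S hS ((h1 u hu').2 (Reachable.refl _)) fun i hi j hj hai haj hSi hij => ?_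
    rw [h1 i hi] at hSi
    rw [h1 j hj]
    refine hSi.trans (Adj.reachable ⟨(gr_adj g i j).2 hij, ⟨by omega, by omega⟩,
      ⟨by omega, by omega⟩⟩)
  · intro h S hS hSu hcl
    have key : ∀ z : ℤ, (res (gr g) a b).Reachable (u : ℤ) z →
        (a : ℤ) ≤ z ∧ z < b ∧ bt S z.toNat := by
      intro z hz
      rw [reachable_iff_reflTransGen] at hz
      induction hz with
      | refl => exact ⟨by omega, by omega, by simpa using hSu⟩
      | @tail y z _ hyz ih =>
        obtain ⟨h1, h2, h3⟩ := hyz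
        refine ⟨h3.1, h3.2, hcl y.toNat (by omega) z.toNat (by omega) (by omega) (by omega)
          ih.2.2 h1.2.2⟩
    simpa using (key v h).2.2

/-- acyclicity -/
def Ac (g n : ℕ) : Prop := ∀ u < n, ∀ v < n, E g u v → ∃ S < 2 ^ n, bt S u ∧ ¬ bt S v ∧
  ∀ i < n, ∀ j < n, bt S i → E g i j → ¬ ((i = u ∧ j = v) ∨ (i = v ∧ j = u)) → bt S j

theorem Ac_iff (g n : ℕ) : Ac g n ↔ (res (gr g) 0 n).IsAcyclic := by
  classical
  rw [isAcyclic_iff_forall_adj_isBridge]
  constructor
  · intro h x y hxy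
    rw [isBridge_iff]
    intro hr
    obtain ⟨h1, h2, h3⟩ := hxy
    obtain ⟨hx, hx'⟩ := h2
    obtain ⟨hy, hy'⟩ := h3
    lift x to ℕ using hx
    lift y to ℕ using hy
    rw [gr_adj] at h1
    obtain ⟨S, hS, hSx, hSy, hcl⟩ := h x (by omega) y (by omega) h1
    have key : ∀ z : ℤ, ((res (gr g) 0 n).deleteEdges {s((x : ℤ), (y : ℤ))}).Reachable
        (x : ℤ) z → 0 ≤ z ∧ z < n ∧ bt S z.toNat := by
      intro z hz
      rw [reachable_iff_reflTransGen] at hz
      induction hz with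
      | refl => exact ⟨by omega, by omega, by simpa using hSx⟩
      | @tail w z _ hwz ih =>
        rw [deleteEdges_adj] at hwz
        obtain ⟨⟨h4, h5, h6⟩, h7⟩ := hwz
        refine ⟨h6.1, h6.2, hcl w.toNat (by omega) z.toNat (by omega) ih.2.2 h4.2.2 ?_⟩
        intro h8
        apply h7
        rw [Set.mem_singleton_iff, Sym2.eq_iff]
        omega
    exact hSy (by simpa using (key y hr).2.2)
  · intro h u hu v hv huv
    have hadj : (res (gr g) 0 n).Adj (u : ℤ) v := ⟨(gr_adj g u v).2 huv, ⟨by omega, by omega⟩,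
      ⟨by omega, by omega⟩⟩
    have hb := h hadj
    rw [isBridge_iff] at hb
    obtain ⟨S, hS, h1⟩ := exists_bits n fun k =>
      ((res (gr g) 0 n).deleteEdges {s((u : ℤ), (v : ℤ))}).Reachable (u : ℤ) k
    refine ⟨S, hS, (h1 u hu).2 (Reachable.refl _), fun h2 => hb ((h1 v hv).1 h2),
      fun i hi j hj hSi hij hne => ?_⟩
    rw [h1 i hi] at hSi
    rw [h1 j hj]
    refine hSi.trans (Adj.reachable ?_)
    rw [deleteEdges_adj]
    refine ⟨⟨(gr_adj g i j).2 hij, ⟨by omega, by omega⟩, ⟨by omega, by omega⟩⟩, ?_⟩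
    rw [Set.mem_singleton_iff, Sym2.eq_iff]
    omega

/-- equality of windows -/
def Wn (g a g' a' n : ℕ) : Prop := ∀ i < n, ∀ j < n, (E g (a + i) (a + j) ↔ E g' (a' + i) (a' + j))

theorem Wn_iff (g a g' a' n : ℕ) :
    Wn g a g' a' n ↔ Agr (gr g) (gr g') a (a + n) (a' - a) := by
  constructor
  · intro h i j hi hi' hj hj'
    have h1 := h (i - a).toNat (by omega) (j - a).toNat (by omega)
    rw [← gr_adj, ← gr_adj] at h1
    push_cast at h1
    rw [Int.toNat_of_nonneg (by omega), Int.toNat_of_nonneg (by omega)] at h1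
    have e1 : (a : ℤ) + (i - a) = i := by ring
    have e2 : (a : ℤ) + (j - a) = j := by ring
    have e3 : (a' : ℤ) + (i - a) = i + (a' - a) := by ring
    have e4 : (a' : ℤ) + (j - a) = j + (a' - a) := by ring
    rwa [e1, e2, e3, e4] at h1
  · intro h i hi j hj
    have h1 := h (a + i) (a + j) (by omega) (by omega) (by omega) (by omega)
    rw [← gr_adj, ← gr_adj]
    push_cast
    have e3 : (a : ℤ) + i + (a' - a) = a' + i := by ring
    have e4 : (a : ℤ) + j + (a' - a) = a' + j := by ring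
    rwa [e3, e4] at h1

/-- a code of an ordered forest: the length and a list of the edges -/
abbrev FCode := ℕ × List (ℕ × ℕ)

/-- the window of `G` at `p` is the forest with the code `f` -/
def Mz (f : FCode) (G : SimpleGraph ℤ) (p : ℤ) : Prop :=
  ∀ i < f.1, ∀ j < f.1, (G.Adj (p + i) (p + j) ↔ ((i, j) ∈ f.2 ∨ (j, i) ∈ f.2))

/-- the class of the ordered forests which avoid the forests with codes in `B` -/
def AB (B : List FCode) (G : SimpleGraph ℤ) (a b : ℤ) : Prop :=
  a < b ∧ (res G a b).IsAcyclic ∧ ∀ f ∈ B, 0 < f.1 → ∀ p : ℤ, a ≤ p → p + f.1 ≤ b → ¬ Mz f G p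

theorem Mz_agr {f : FCode} {G G' : SimpleGraph ℤ} {a b t p : ℤ} (h : Agr G G' a b t)
    (hp : a ≤ p) (hp' : p + f.1 ≤ b) : Mz f G p ↔ Mz f G' (p + t) := by
  have key : ∀ i < f.1, ∀ j < f.1, (G.Adj (p + i) (p + j) ↔ G'.Adj (p + t + i) (p + t + j)) := by
    intro i hi j hj
    have h1 := h (p + i) (p + j) (by omega) (by omega) (by omega) (by omega)
    have e1 : p + i + t = p + t + i := by ring
    have e2 : p + j + t = p + t + j := by ring
    rwa [e1, e2] at h1
  constructor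
  · intro h1 i hi j hj
    rw [← key i hi j hj]
    exact h1 i hi j hj
  · intro h1 i hi j hj
    rw [key i hi j hj]
    exact h1 i hi j hj

theorem acyclic_shift {G G' : SimpleGraph ℤ} {a b t : ℤ} (h : Agr G G' a b t)
    (ha : (res G a b).IsAcyclic) : (res G' (a + t) (b + t)).IsAcyclic := by
  rw [isAcyclic_iff_forall_adj_isBridge] at ha ⊢
  intro x y hxy
  obtain ⟨h1, h2, h3⟩ := hxy
  have h4 : (res G a b).Adj (x - t) (y - t) := by
    refine ⟨?_, ⟨by omega, by omega⟩, ⟨by omega, by omega⟩⟩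
    rw [h (x - t) (y - t) (by omega) (by omega) (by omega) (by omega), sub_add_cancel,
      sub_add_cancel]
    exact h1
  have h5 := ha h4
  rw [isBridge_iff] at h5 ⊢
  intro hr
  apply h5
  have key : ∀ z, ((res G' (a + t) (b + t)).deleteEdges {s(x, y)}).Reachable x z →
      ((res G a b).deleteEdges {s(x - t, y - t)}).Reachable (x - t) (z - t) := by
    intro z hz
    rw [reachable_iff_reflTransGen] at hz
    induction hz with
    | refl => exact Reachable.refl _
    | @tail w z _ hwz ih =>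
      refine ih.trans (Adj.reachable ?_)
      rw [deleteEdges_adj] at hwz ⊢
      obtain ⟨⟨h6, h7, h8⟩, h9⟩ := hwz
      refine ⟨⟨?_, ⟨by omega, by omega⟩, ⟨by omega, by omega⟩⟩, ?_⟩
      · rw [h (w - t) (z - t) (by omega) (by omega) (by omega) (by omega), sub_add_cancel,
          sub_add_cancel]
        exact h6
      · rw [Set.mem_singleton_iff, Sym2.eq_iff] at h9 ⊢
        omega
  exact key y hr

theorem cls_AB {B : List FCode} {c : ℤ} (hc : 1 ≤ c) (hB : ∀ f ∈ B, (f.1 : ℤ) ≤ c + 1) :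
    Cls (AB B) c where
  one_le := hc
  pos := fun h => h.1
  agr := by
    intro G G' a b t h hag
    refine ⟨by have := h.1; omega, acyclic_shift hag h.2.1, fun f hf hf0 p hp hp' => ?_⟩
    have h1 := h.2.2 f hf hf0 (p - t) (by omega) (by omega)
    rw [Mz_agr hag (by omega) (by omega), sub_add_cancel] at h1
    exact h1
  sub := by
    intro G a b a' b' h ha hab hb
    exact ⟨hab, h.2.1.anti (res_mono_left ha hb), fun f hf hf0 p hp hp' =>
      h.2.2 f hf hf0 p (by omega) (by omega)⟩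
  acyc := fun h => h.2.1
  loc := by
    intro G a b hab hac h
    refine ⟨by omega, hac, fun f hf hf0 p hp hp' => ?_⟩
    have h1 := hB f hf
    exact (h (min p (b - (c + 1))) (by omega) (by omega)).2.2 f hf hf0 p (by omega) (by omega)

/-- the window of the graph `g` at `p` is the forest with the code `f` -/
def Mt (f : FCode) (g p : ℕ) : Prop :=
  ∀ i < f.1, ∀ j < f.1, (E g (p + i) (p + j) ↔ ((i, j) ∈ f.2 ∨ (j, i) ∈ f.2))

theorem Mt_iff (f : FCode) (g p : ℕ) : Mt f g p ↔ Mz f (gr g) p := by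
  unfold Mt Mz
  have key : ∀ i j : ℕ, E g (p + i) (p + j) ↔ (gr g).Adj ((p : ℤ) + i) (p + j) := by
    intro i j
    rw [← gr_adj]
    push_cast
    rfl
  simp only [key]

/-- membership in the class, for codes -/
def AP (B : List FCode) (g n : ℕ) : Prop :=
  0 < n ∧ Ac g n ∧ ∀ f ∈ B, 0 < f.1 → ∀ p < n + 1, p + f.1 ≤ n → ¬ Mt f g p

theorem AP_iff (B : List FCode) (g n : ℕ) : AP B g n ↔ AB B (gr g) 0 n := by
  constructor
  · rintro ⟨h1, h2, h3⟩
    refine ⟨by omega, (Ac_iff g n).1 h2, fun f hf hf0 p hp hp' h4 => ?_⟩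
    lift p to ℕ using hp
    exact h3 f hf hf0 p (by omega) (by omega) ((Mt_iff f g p).2 h4)
  · rintro ⟨h1, h2, h3⟩
    refine ⟨by omega, (Ac_iff g n).2 h2, fun f hf hf0 p _ hp' h4 => ?_⟩
    exact h3 f hf hf0 p (by omega) (by omega) ((Mt_iff f g p).1 h4)

/-- elements of the class have codes -/
theorem exists_code {B : List FCode} {c : ℤ} (hA : Cls (AB B) c) {X : SimpleGraph ℤ} {n : ℕ}
    (hX : AB B X 0 n) : ∃ g < 2 ^ (n * n), Agr X (gr g) 0 n 0 ∧ AP B g n := by
  obtain ⟨g, hg, h⟩ := exists_gr X n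
  exact ⟨g, hg, h, (AP_iff B g n).2 (hA.agr0 hX h)⟩

end Pool.Agent.Q221.Forest
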