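import Pool.Agent.Q221.Forest.Cert

set_option autoImplicit false

/-!
# The certificates can be checked by an algorithm
-/

namespace Pool.Agent.Q221.Forest

section Tools

variable {α β γ : Type} [Primcodable α] [Primcodable β] [Primcodable γ]

theorem pr_and {p q : α → Prop} (hp : PrimrecPred p) (hq : PrimrecPred q) :
    PrimrecPred fun a => p a ∧ q a := hp.and hq

theorem pr_or {p q : α → Prop} (hp : PrimrecPred p) (hq : PrimrecPred q) :
    PrimrecPred fun a => p a ∨ q a := hp.or hq

theorem pr_not {p : α → Prop} (hp : PrimrecPred p) : PrimrecPred fun a => ¬ p a := hp.not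

theorem pr_imp {p q : α → Prop} (hp : PrimrecPred p) (hq : PrimrecPred q) :
    PrimrecPred fun a => p a → q a := (hp.not.or hq).of_eq fun a => by tauto

theorem pr_iff {p q : α → Prop} (hp : PrimrecPred p) (hq : PrimrecPred q) :
    PrimrecPred fun a => (p a ↔ q a) :=
  (pr_and (pr_imp hp hq) (pr_imp hq hp)).of_eq fun a => by tauto

theorem pr_allB {l : α → List β} {p : α → β → Prop} (hl : Primrec l)
    (hp : PrimrecPred fun x : α × β => p x.1 x.2) : PrimrecPred fun a => ∀ b ∈ l a, p a b := by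
  have h1 : PrimrecRel fun (b : β) (a : α) => p a b :=
    PrimrecPred.comp hp (Primrec.snd.pair Primrec.fst)
  exact (h1.forall_mem_list.comp hl Primrec.id)

theorem pr_exB {l : α → List β} {p : α → β → Prop} (hl : Primrec l)
    (hp : PrimrecPred fun x : α × β => p x.1 x.2) : PrimrecPred fun a => ∃ b ∈ l a, p a b := by
  have h1 : PrimrecRel fun (b : β) (a : α) => p a b :=
    PrimrecPred.comp hp (Primrec.snd.pair Primrec.fst)
  exact (h1.exists_mem_list.comp hl Primrec.id)

theorem pr_all {f : α → ℕ} {p : α → ℕ → Prop} (hf : Primrec f)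
    (hp : PrimrecPred fun x : α × ℕ => p x.1 x.2) : PrimrecPred fun a => ∀ i < f a, p a i :=
  (pr_allB (Primrec.list_range.comp hf) hp).of_eq fun a => by simp

theorem pr_ex {f : α → ℕ} {p : α → ℕ → Prop} (hf : Primrec f)
    (hp : PrimrecPred fun x : α × ℕ => p x.1 x.2) : PrimrecPred fun a => ∃ i < f a, p a i :=
  (pr_exB (Primrec.list_range.comp hf) hp).of_eq fun a => by simp

theorem pr_lt {f g : α → ℕ} (hf : Primrec f) (hg : Primrec g) : PrimrecPred fun a => f a < g a :=
  Primrec.nat_lt.comp hf hg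

theorem pr_le {f g : α → ℕ} (hf : Primrec f) (hg : Primrec g) : PrimrecPred fun a => f a ≤ g a :=
  Primrec.nat_le.comp hf hg

theorem pr_eq [DecidableEq β] {f g : α → β} (hf : Primrec f) (hg : Primrec g) :
    PrimrecPred fun a => f a = g a :=
  Primrec.eq.comp hf hg

theorem pr_ne {f g : α → ℕ} (hf : Primrec f) (hg : Primrec g) : PrimrecPred fun a => f a ≠ g a :=
  (pr_eq hf hg).not

theorem pr_mem {f : α → β} {l : α → List β} (hf : Primrec f) (hl : Primrec l) :
    PrimrecPred fun a => f a ∈ l a := by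
  classical
  exact (pr_exB (p := fun a b => b = f a) hl (pr_eq Primrec.snd (hf.comp Primrec.fst))).of_eq
    fun a => by simp

theorem nat_pow_primrec : Primrec₂ fun a b : ℕ => a ^ b := by
  have h : Primrec₂ fun (a : ℕ) (b : ℕ) => Nat.rec (motive := fun _ => ℕ) 1 (fun _ y => y * a) b :=
    Primrec.nat_rec (f := fun _ : ℕ => 1) (g := fun (a : ℕ) (p : ℕ × ℕ) => p.2 * a)
      (Primrec.const 1) (Primrec.nat_mul.comp (Primrec.snd.comp Primrec.snd) Primrec.fst)
  refine h.of_eq fun a b => ?_
  induction b with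
  | zero => rfl
  | succ b ih => rw [pow_succ, ← ih]

attribute [local fun_prop] Primrec

@[local fun_prop] theorem f_id : Primrec (fun x : α => x) := Primrec.id
@[local fun_prop] theorem f_const (b : β) : Primrec (fun _ : α => b) := Primrec.const b
@[local fun_prop] theorem f_comp {f : β → γ} {g : α → β} (hf : Primrec f) (hg : Primrec g) :
    Primrec (fun x => f (g x)) := hf.comp hg
@[local fun_prop] theorem f_fst {f : α → β × γ} (hf : Primrec f) : Primrec (fun x => (f x).1) :=
  Primrec.fst.comp hf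
@[local fun_prop] theorem f_snd {f : α → β × γ} (hf : Primrec f) : Primrec (fun x => (f x).2) :=
  Primrec.snd.comp hf
@[local fun_prop] theorem f_pair {f : α → β} {g : α → γ} (hf : Primrec f) (hg : Primrec g) :
    Primrec (fun x => (f x, g x)) := hf.pair hg
@[local fun_prop] theorem f_add {f g : α → ℕ} (hf : Primrec f) (hg : Primrec g) :
    Primrec (fun x => f x + g x) := Primrec.nat_add.comp hf hg
@[local fun_prop] theorem f_sub {f g : α → ℕ} (hf : Primrec f) (hg : Primrec g) :
    Primrec (fun x => f x - g x) := Primrec.nat_sub.comp hf hg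
@[local fun_prop] theorem f_mul {f g : α → ℕ} (hf : Primrec f) (hg : Primrec g) :
    Primrec (fun x => f x * g x) := Primrec.nat_mul.comp hf hg
@[local fun_prop] theorem f_div {f g : α → ℕ} (hf : Primrec f) (hg : Primrec g) :
    Primrec (fun x => f x / g x) := Primrec.nat_div.comp hf hg
@[local fun_prop] theorem f_mod {f g : α → ℕ} (hf : Primrec f) (hg : Primrec g) :
    Primrec (fun x => f x % g x) := Primrec.nat_mod.comp hf hg
@[local fun_prop] theorem f_pow {f g : α → ℕ} (hf : Primrec f) (hg : Primrec g) :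
    Primrec (fun x => f x ^ g x) := nat_pow_primrec.comp hf hg
@[local fun_prop] theorem f_min {f g : α → ℕ} (hf : Primrec f) (hg : Primrec g) :
    Primrec (fun x => min (f x) (g x)) := Primrec.nat_min.comp hf hg
@[local fun_prop] theorem f_max {f g : α → ℕ} (hf : Primrec f) (hg : Primrec g) :
    Primrec (fun x => max (f x) (g x)) := Primrec.nat_max.comp hf hg
@[local fun_prop] theorem f_natpair {f g : α → ℕ} (hf : Primrec f) (hg : Primrec g) :
    Primrec (fun x => Nat.pair (f x) (g x)) := Primrec₂.natPair.comp hf hg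
@[local fun_prop] theorem f_unpair {f : α → ℕ} (hf : Primrec f) :
    Primrec (fun x => (f x).unpair) := Primrec.unpair.comp hf

theorem re_ex {P : α → ℕ → Prop} (h : PrimrecPred fun p : α × ℕ => P p.1 p.2) :
    REPred fun a => ∃ k, P a k := by
  classical
  have h1 : Partrec (fun x ↦ Nat.rfind fun n => Part.some (decide (P x n))) :=
    Partrec.rfind (h.computablePred.decide.partrec)
  refine (Partrec.dom_re h1).of_eq fun a => ?_
  refine Nat.rfind_dom.trans ⟨?_, ?_⟩
  · rintro ⟨n, hn, _⟩
    refine ⟨n, ?_⟩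
    have : true = decide (P a n) := Part.mem_some_iff.1 hn
    exact of_decide_eq_true this.symm
  · rintro ⟨n, hn⟩
    exact ⟨n, Part.mem_some_iff.2 (decide_eq_true hn).symm, fun _ => trivial⟩

/-! ### The predicates -/

theorem pr_bt {f g : α → ℕ} (hf : Primrec f) (hg : Primrec g) :
    PrimrecPred fun a => bt (f a) (g a) := by
  unfold bt
  exact pr_eq (by fun_prop) (by fun_prop)

theorem pr_E {g i j : α → ℕ} (hg : Primrec g) (hi : Primrec i) (hj : Primrec j) :
    PrimrecPred fun a => E (g a) (i a) (j a) := by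
  unfold E
  exact pr_and (pr_ne hi hj) (pr_bt hg (by fun_prop))

theorem pr_Wn {g a g' a' n : α → ℕ} (h1 : Primrec g) (h2 : Primrec a) (h3 : Primrec g')
    (h4 : Primrec a') (h5 : Primrec n) :
    PrimrecPred fun x => Wn (g x) (a x) (g' x) (a' x) (n x) := by
  unfold Wn
  exact pr_all h5 (pr_all (by fun_prop) (pr_iff (pr_E (by fun_prop) (by fun_prop) (by fun_prop))
    (pr_E (by fun_prop) (by fun_prop) (by fun_prop))))

theorem pr_R {g a b u v : α → ℕ} (h1 : Primrec g) (h2 : Primrec a) (h3 : Primrec b)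
    (h4 : Primrec u) (h5 : Primrec v) :
    PrimrecPred fun x => R (g x) (a x) (b x) (u x) (v x) := by
  unfold R
  refine pr_all (by fun_prop) (pr_imp (pr_bt (by fun_prop) (by fun_prop)) (pr_imp ?_
    (pr_bt (by fun_prop) (by fun_prop))))
  refine pr_all (by fun_prop) (pr_all (by fun_prop) (pr_imp (pr_le (by fun_prop) (by fun_prop))
    (pr_imp (pr_le (by fun_prop) (by fun_prop)) (pr_imp (pr_bt (by fun_prop) (by fun_prop))
    (pr_imp (pr_E (by fun_prop) (by fun_prop) (by fun_prop))
    (pr_bt (by fun_prop) (by fun_prop)))))))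

theorem pr_Ac {g n : α → ℕ} (h1 : Primrec g) (h2 : Primrec n) :
    PrimrecPred fun x => Ac (g x) (n x) := by
  unfold Ac
  refine pr_all h2 (pr_all (by fun_prop) (pr_imp (pr_E (by fun_prop) (by fun_prop) (by fun_prop))
    (pr_ex (by fun_prop) (pr_and (pr_bt (by fun_prop) (by fun_prop)) (pr_and
    (pr_bt (by fun_prop) (by fun_prop)).not ?_)))))
  refine pr_all (by fun_prop) (pr_all (by fun_prop) (pr_imp (pr_bt (by fun_prop) (by fun_prop))
    (pr_imp (pr_E (by fun_prop) (by fun_prop) (by fun_prop)) (pr_imp (pr_not ?_)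
    (pr_bt (by fun_prop) (by fun_prop))))))
  exact pr_or (pr_and (pr_eq (by fun_prop) (by fun_prop)) (pr_eq (by fun_prop) (by fun_prop)))
    (pr_and (pr_eq (by fun_prop) (by fun_prop)) (pr_eq (by fun_prop) (by fun_prop)))

theorem pr_Mt {f : α → FCode} {g p : α → ℕ} (h1 : Primrec f) (h2 : Primrec g) (h3 : Primrec p) :
    PrimrecPred fun x => Mt (f x) (g x) (p x) := by
  unfold Mt
  refine pr_all (by fun_prop) (pr_all (by fun_prop) (pr_iff
    (pr_E (by fun_prop) (by fun_prop) (by fun_prop)) (pr_or (pr_mem (by fun_prop) (by fun_prop))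
    (pr_mem (by fun_prop) (by fun_prop)))))

theorem pr_AP {B : α → List FCode} {g n : α → ℕ} (h1 : Primrec B) (h2 : Primrec g)
    (h3 : Primrec n) : PrimrecPred fun x => AP (B x) (g x) (n x) := by
  unfold AP
  refine pr_and (pr_lt (by fun_prop) (by fun_prop)) (pr_and (pr_Ac h2 h3) (pr_allB h1
    (pr_imp (pr_lt (by fun_prop) (by fun_prop)) (pr_all (by fun_prop) (pr_imp
    (pr_le (by fun_prop) (by fun_prop)) (pr_not (pr_Mt (by fun_prop) (by fun_prop)
    (by fun_prop))))))))

theorem pr_PF {B : α → List FCode} {K : α → ℕ} (h1 : Primrec B) (h2 : Primrec K) :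
    PrimrecPred fun x => PF (B x) (K x) := by
  unfold PF
  refine pr_ex h2 (pr_ex (by fun_prop) (pr_and (pr_AP (by fun_prop) (by fun_prop) (by fun_prop))
    (pr_all (by fun_prop) (pr_all (by fun_prop) (pr_imp
    (pr_AP (by fun_prop) (by fun_prop) (by fun_prop)) (pr_ex (by fun_prop) (pr_and
    (pr_le (by fun_prop) (by fun_prop)) (pr_Wn (by fun_prop) (by fun_prop) (by fun_prop)
    (by fun_prop) (by fun_prop)))))))))

theorem pr_PX {B : α → List FCode} {c M : α → ℕ} (h1 : Primrec B) (h2 : Primrec c)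
    (h3 : Primrec M) : PrimrecPred fun x => PX (B x) (c x) (M x) := by
  unfold PX
  refine pr_all (by fun_prop) (pr_all (by fun_prop) (pr_imp
    (pr_AP (by fun_prop) (by fun_prop) (by fun_prop)) (pr_ex (by fun_prop) (pr_ex (by fun_prop)
    (pr_and (pr_AP (by fun_prop) (by fun_prop) (by fun_prop)) (pr_and
    (pr_le (by fun_prop) (by fun_prop)) (pr_Wn (by fun_prop) (by fun_prop) (by fun_prop)
    (by fun_prop) (by fun_prop))))))))

theorem pr_PU2 {B : α → List FCode} {c K : α → ℕ} (h1 : Primrec B) (h2 : Primrec c)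
    (h3 : Primrec K) : PrimrecPred fun x => PU2 (B x) (c x) (K x) := by
  unfold PU2
  refine pr_all (by fun_prop) (pr_all (by fun_prop) (pr_imp
    (pr_AP (by fun_prop) (by fun_prop) (by fun_prop)) (pr_imp
    (pr_AP (by fun_prop) (by fun_prop) (by fun_prop)) ?_)))
  refine pr_ex (by fun_prop) (pr_ex (by fun_prop) (pr_ex (by fun_prop) (pr_ex (by fun_prop) ?_)))
  refine pr_and (pr_AP (by fun_prop) (by fun_prop) (by fun_prop)) (pr_and
    (pr_le (by fun_prop) (by fun_prop)) (pr_and (pr_Wn (by fun_prop) (by fun_prop) (by fun_prop)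
    (by fun_prop) (by fun_prop)) (pr_and (pr_le (by fun_prop) (by fun_prop)) (pr_and
    (pr_Wn (by fun_prop) (by fun_prop) (by fun_prop) (by fun_prop) (by fun_prop)) (pr_and
    (pr_le (by fun_prop) (by fun_prop)) (pr_and ?_ ?_))))))
  · exact pr_all (by fun_prop) (pr_all (by fun_prop) (pr_imp (pr_le (by fun_prop) (by fun_prop))
      (pr_imp (pr_le (by fun_prop) (by fun_prop)) (pr_R (by fun_prop) (by fun_prop) (by fun_prop)
      (by fun_prop) (by fun_prop)))))
  · exact pr_all (by fun_prop) (pr_all (by fun_prop) (pr_imp (pr_le (by fun_prop) (by fun_prop))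
      (pr_imp (pr_le (by fun_prop) (by fun_prop)) (pr_R (by fun_prop) (by fun_prop) (by fun_prop)
      (by fun_prop) (by fun_prop)))))

theorem pr_PB2 {N g m r : α → ℕ} (h1 : Primrec N) (h2 : Primrec g) (h3 : Primrec m)
    (h4 : Primrec r) : PrimrecPred fun x => PB2 (N x) (g x) (m x) (r x) := by
  unfold PB2
  refine pr_and ?_ (pr_and ?_ ?_)
  · exact pr_all (by fun_prop) (pr_all (by fun_prop) (pr_imp (pr_le (by fun_prop) (by fun_prop))
      (pr_imp (pr_Wn (by fun_prop) (by fun_prop) (by fun_prop) (by fun_prop) (by fun_prop))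
      (pr_Wn (by fun_prop) (by fun_prop) (by fun_prop) (by fun_prop) (by fun_prop)))))
  · exact pr_all (by fun_prop) (pr_all (by fun_prop) (pr_imp (pr_lt (by fun_prop) (by fun_prop))
      (pr_imp (pr_lt (by fun_prop) (by fun_prop))
      (pr_imp (pr_Wn (by fun_prop) (by fun_prop) (by fun_prop) (by fun_prop) (by fun_prop))
      (pr_Wn (by fun_prop) (by fun_prop) (by fun_prop) (by fun_prop) (by fun_prop))))))
  · exact pr_all (by fun_prop) (pr_all (by fun_prop) (pr_imp (pr_le (by fun_prop) (by fun_prop))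
      (pr_imp (pr_Wn (by fun_prop) (by fun_prop) (by fun_prop) (by fun_prop) (by fun_prop))
      (pr_eq (by fun_prop) (by fun_prop)))))

theorem pr_PB1 {B : α → List FCode} {c N g m r : α → ℕ} (h0 : Primrec B) (h : Primrec c)
    (h1 : Primrec N) (h2 : Primrec g) (h3 : Primrec m)
    (h4 : Primrec r) : PrimrecPred fun x => PB1 (B x) (c x) (N x) (g x) (m x) (r x) := by
  unfold PB1
  refine pr_and (pr_le h h1) (pr_and (pr_le (by fun_prop) h1) (pr_and (pr_PX h0 h1 (by fun_prop))
    (pr_and ?_ (pr_and (pr_AP h0 h2 (by fun_prop)) (pr_and ?_ (pr_PB2 h1 h2 h3 h4))))))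
  · exact pr_all (by fun_prop) (pr_imp (pr_AP (by fun_prop) (by fun_prop) (by fun_prop))
      (pr_all (by fun_prop) (pr_all (by fun_prop) (pr_R (by fun_prop) (by fun_prop) (by fun_prop)
      (by fun_prop) (by fun_prop)))))
  · exact pr_all (by fun_prop) (pr_imp (pr_AP (by fun_prop) (by fun_prop) (by fun_prop))
      (pr_ex (by fun_prop) (pr_Wn (by fun_prop) (by fun_prop) (by fun_prop)
      (by fun_prop) (by fun_prop))))

theorem pr_PB {B : α → List FCode} {c K : α → ℕ} (h1 : Primrec B) (h2 : Primrec c)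
    (h3 : Primrec K) : PrimrecPred fun x => PB (B x) (c x) (K x) := by
  unfold PB
  exact pr_ex (by fun_prop) (pr_ex (by fun_prop) (pr_ex (by fun_prop) (pr_ex (by fun_prop)
    (pr_PB1 (by fun_prop) (by fun_prop) (by fun_prop) (by fun_prop) (by fun_prop)
    (by fun_prop)))))

theorem pr_PN {B : α → List FCode} {c K : α → ℕ} (h1 : Primrec B) (h2 : Primrec c)
    (h3 : Primrec K) : PrimrecPred fun x => PN (B x) (c x) (K x) := by
  unfold PN stn
  refine pr_ex (by fun_prop) (pr_ex (by fun_prop) (pr_ex (by fun_prop) (pr_ex (by fun_prop) ?_)))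
  refine pr_and (pr_AP (by fun_prop) (by fun_prop) (by fun_prop)) (pr_and
    (pr_AP (by fun_prop) (by fun_prop) (by fun_prop)) (pr_all (by fun_prop) (pr_all (by fun_prop)
    (pr_imp (pr_AP (by fun_prop) (by fun_prop) (by fun_prop)) (pr_all (by fun_prop)
    (pr_all (by fun_prop) (pr_not ?_)))))))
  exact pr_and (pr_le (by fun_prop) (by fun_prop)) (pr_and (pr_le (by fun_prop) (by fun_prop))
    (pr_and (pr_Wn (by fun_prop) (by fun_prop) (by fun_prop) (by fun_prop) (by fun_prop))
    (pr_Wn (by fun_prop) (by fun_prop) (by fun_prop) (by fun_prop) (by fun_prop))))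

end Tools

/-- the size condition -/
def PC (B : List FCode) (c : ℕ) : Prop := 1 ≤ c ∧ ∀ f ∈ B, f.1 ≤ c + 1

theorem PC_cls {B : List FCode} {c : ℕ} (h : PC B c) : Cls (AB B) c :=
  cls_AB (by have := h.1; omega) fun f hf => by have := h.2 f hf; omega

theorem exists_PC (B : List FCode) : ∃ c, PC B c := by
  induction B with
  | nil => exact ⟨1, le_rfl, fun f hf => by simp at hf⟩
  | cons g B ih =>
    obtain ⟨c, hc, h⟩ := ih
    refine ⟨c + g.1, by omega, fun f hf => ?_⟩
    rcases List.mem_cons.1 hf with rfl | h1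
    · omega
    · have := h f h1
      omega

theorem jep_re (B : List FCode) : JEP (AB B) ↔ ∃ k : ℕ, PC B k.unpair.1 ∧
    (¬ AP B 0 1 ∨ PF B k.unpair.2 ∨ (PX B k.unpair.1 k.unpair.1 ∧
      PU2 B k.unpair.1 k.unpair.2) ∨ PB B k.unpair.1 k.unpair.2) := by
  constructor
  · intro h
    obtain ⟨c, hc⟩ := exists_PC B
    have hA := PC_cls hc
    rcases (jep_iff_cert hA).1 h with h1 | h1 | h1 | h1
    · exact ⟨Nat.pair c 0, by simpa using hc, Or.inl ((PE_iff hA).2 h1)⟩
    · obtain ⟨K, hK⟩ := (PF_iff hA).2 h1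
      exact ⟨Nat.pair c K, by simpa using hc, Or.inr (Or.inl (by simpa using hK))⟩
    · obtain ⟨hX, K, hK⟩ := (PU_iff hA).2 h1
      exact ⟨Nat.pair c K, by simpa using hc, Or.inr (Or.inr (Or.inl (by
        simpa using ⟨hX, hK⟩)))⟩
    · obtain ⟨K, hK⟩ := (PB_iff hA).2 h1
      exact ⟨Nat.pair c K, by simpa using hc, Or.inr (Or.inr (Or.inr (by simpa using hK)))⟩
  · rintro ⟨k, hc, h⟩
    have hA := PC_cls hc
    rw [jep_iff_cert hA]
    rcases h with h1 | h1 | h1 | h1
    · exact Or.inl ((PE_iff hA).1 h1)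
    · exact Or.inr (Or.inl ((PF_iff hA).1 ⟨_, h1⟩))
    · exact Or.inr (Or.inr (Or.inl ((PU_iff hA).1 ⟨h1.1, _, h1.2⟩)))
    · exact Or.inr (Or.inr (Or.inr ((PB_iff hA).1 ⟨_, h1⟩)))

theorem not_jep_re (B : List FCode) : ¬ JEP (AB B) ↔ ∃ k : ℕ, PC B k.unpair.1 ∧
    PN B k.unpair.1 k.unpair.2 := by
  constructor
  · intro h
    obtain ⟨c, hc⟩ := exists_PC B
    have hA := PC_cls hc
    obtain ⟨K, hK⟩ := (PN_iff hA).2 h
    exact ⟨Nat.pair c K, by simpa using hc, by simpa using hK⟩
  · rintro ⟨k, hc, h⟩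
    exact (PN_iff (PC_cls hc)).1 ⟨_, h⟩

section

attribute [local fun_prop] Primrec
attribute [local fun_prop] f_id f_const f_comp f_fst f_snd f_pair f_add f_unpair

variable {α : Type} [Primcodable α]

theorem pr_PC {B : α → List FCode} {c : α → ℕ} (h1 : Primrec B) (h2 : Primrec c) :
    PrimrecPred fun x => PC (B x) (c x) := by
  unfold PC
  exact pr_and (pr_le (by fun_prop) h2) (pr_allB h1 (pr_le (by fun_prop) (by fun_prop)))

/-- **The joint embedding property is decidable.** -/
theorem jep_computable : ComputablePred fun B : List FCode => JEP (AB B) := by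
  rw [ComputablePred.computable_iff_re_compl_re']
  constructor
  · refine REPred.of_eq (re_ex (P := fun (B : List FCode) (k : ℕ) => PC B k.unpair.1 ∧
      (¬ AP B 0 1 ∨ PF B k.unpair.2 ∨ (PX B k.unpair.1 k.unpair.1 ∧
      PU2 B k.unpair.1 k.unpair.2) ∨ PB B k.unpair.1 k.unpair.2)) ?_) fun B => (jep_re B).symm
    exact pr_and (pr_PC (by fun_prop) (by fun_prop)) (pr_or
      (pr_not (pr_AP (by fun_prop) (by fun_prop) (by fun_prop))) (pr_or
      (pr_PF (by fun_prop) (by fun_prop)) (pr_or (pr_and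
      (pr_PX (by fun_prop) (by fun_prop) (by fun_prop))
      (pr_PU2 (by fun_prop) (by fun_prop) (by fun_prop)))
      (pr_PB (by fun_prop) (by fun_prop) (by fun_prop)))))
  · refine REPred.of_eq (re_ex (P := fun (B : List FCode) (k : ℕ) => PC B k.unpair.1 ∧
      PN B k.unpair.1 k.unpair.2) ?_) fun B => (not_jep_re B).symm
    exact pr_and (pr_PC (by fun_prop) (by fun_prop))
      (pr_PN (by fun_prop) (by fun_prop) (by fun_prop))

end

end Pool.Agent.Q221.Forest
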