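import Mathlib

set_option autoImplicit false

/-!
# Gluing of forests
-/

namespace Pool.Agent.Q221.Forest

open SimpleGraph

variable {V : Type}

theorem exists_adj_of_reachable {G : SimpleGraph V} {x y : V} (h : G.Reachable x y) (hne : x ≠ y) :
    ∃ z, G.Adj y z := by
  rw [reachable_iff_reflTransGen] at h
  rcases Relation.ReflTransGen.cases_tail h with h1 | ⟨z, _, h2⟩
  · exact absurd h1.symm hne
  · exact ⟨z, h2.symm⟩

theorem glue_acyclic (GA GA' H : SimpleGraph V) (S : Set V)
    (hS : ∀ x y z, GA'.Adj x y → H.Adj x z → x ∈ S)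
    (hr : ∀ x ∈ S, ∀ y ∈ S, GA'.Reachable x y → GA.Reachable x y)
    (ha : GA'.IsAcyclic) (hd : ∀ x y, GA.Adj x y → ¬ H.Adj x y) (hG : (GA ⊔ H).IsAcyclic) :
    (GA' ⊔ H).IsAcyclic := by
  classical
  intro u c hc
  -- an edge of the cycle which is not in `GA'`
  have h1 : ∃ e ∈ c.edges, e ∉ GA'.edgeSet := by
    by_contra hcon
    push Not at hcon
    exact ha (c.transfer GA' hcon) (hc.transfer hcon)
  obtain ⟨e, he, heA⟩ := h1
  induction e using Sym2.ind with
  | _ p q =>
  have hadj : (GA' ⊔ H).Adj p q := c.adj_of_mem_edges he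
  have hAn : ¬ GA'.Adj p q := heA
  have hH : H.Adj p q := by
    rcases hadj with h | h
    · exact absurd h hAn
    · exact h
  obtain ⟨_, hreach⟩ := adj_and_reachable_delete_edges_iff_exists_cycle.2 ⟨u, c, hc, he⟩
  set K' := (GA' ⊔ H) \ fromEdgeSet {s(p, q)} with hK'
  set K := (GA ⊔ H) \ fromEdgeSet {s(p, q)} with hK
  have hGAK : GA ≤ K := by
    intro x y hxy
    rw [hK, sdiff_adj]
    refine ⟨Or.inl hxy, fun h => ?_⟩
    rw [fromEdgeSet_adj] at h
    obtain ⟨h, -⟩ := h
    rw [Set.mem_singleton_iff, Sym2.eq_iff] at h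
    rcases h with ⟨rfl, rfl⟩ | ⟨rfl, rfl⟩
    · exact hd _ _ hxy hH
    · exact hd _ _ hxy hH.symm
  have key : ∀ z, K'.Reachable p z →
      (K.Reachable p z ∧ ∃ w, H.Adj z w) ∨ ∃ w ∈ S, K.Reachable p w ∧ GA'.Reachable w z := by
    intro z hz
    rw [reachable_iff_reflTransGen] at hz
    induction hz with
    | refl => exact Or.inl ⟨Reachable.refl _, q, hH⟩
    | @tail y z _ hyz ih =>
      rw [hK', sdiff_adj] at hyz
      obtain ⟨hyz, hne⟩ := hyz
      rcases hyz with hyz | hyz
      · rcases ih with ⟨h2, w, hw⟩ | ⟨w, hw, h2, h3⟩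
        · exact Or.inr ⟨y, hS y z w hyz hw, h2, hyz.reachable⟩
        · exact Or.inr ⟨w, hw, h2, h3.trans hyz.reachable⟩
      · have hy : K.Reachable p y := by
          rcases ih with ⟨h2, _⟩ | ⟨w, hw, h2, h3⟩
          · exact h2
          · by_cases hwy : w = y
            · rw [← hwy]; exact h2
            · obtain ⟨x, hx⟩ := exists_adj_of_reachable h3 hwy
              exact h2.trans ((hr w hw y (hS y x z hx hyz) h3).mono hGAK)
        have hK1 : K.Adj y z := by
          rw [hK, sdiff_adj]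
          exact ⟨Or.inr hyz, hne⟩
        exact Or.inl ⟨hy.trans hK1.reachable, y, hyz.symm⟩
  have hfin : K.Reachable p q := by
    rcases key q hreach with ⟨h2, _⟩ | ⟨w, hw, h2, h3⟩
    · exact h2
    · by_cases hwq : w = q
      · rw [← hwq]; exact h2
      · obtain ⟨x, hx⟩ := exists_adj_of_reachable h3 hwq
        exact h2.trans ((hr w hw q (hS q x p hx hH.symm) h3).mono hGAK)
  obtain ⟨u', c', hc', _⟩ := adj_and_reachable_delete_edges_iff_exists_cycle.1
    ⟨(Or.inr hH : (GA ⊔ H).Adj p q), hfin⟩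
  exact hG c' hc'

/-- acyclicity along an embedding of the set of the vertices -/
theorem acyclic_map {W : Type} (f : V ↪ W) {G : SimpleGraph V} (h : G.IsAcyclic) :
    (G.map f).IsAcyclic := by
  classical
  rw [isAcyclic_iff_forall_adj_isBridge]
  intro x y hxy
  rw [map_adj] at hxy
  obtain ⟨u, v, huv, rfl, rfl⟩ := hxy
  rw [isBridge_iff]
  intro hr
  have key : ∀ z, ((G.map f).deleteEdges {s(f u, f v)}).Reachable (f u) z →
      ∃ w, f w = z ∧ (G.deleteEdges {s(u, v)}).Reachable u w := by
    intro z hz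
    rw [reachable_iff_reflTransGen] at hz
    induction hz with
    | refl => exact ⟨u, rfl, Reachable.refl _⟩
    | @tail y z _ hyz ih =>
      obtain ⟨w, rfl, hw⟩ := ih
      rw [deleteEdges_adj, map_adj] at hyz
      obtain ⟨⟨a, b, hab, ha, hb⟩, hne⟩ := hyz
      have ha' : a = w := f.injective ha
      subst ha'
      refine ⟨b, hb, hw.trans (Adj.reachable ?_)⟩
      rw [deleteEdges_adj]
      refine ⟨hab, fun h2 => hne ?_⟩
      subst hb
      rw [Set.mem_singleton_iff, Sym2.eq_iff] at h2 ⊢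
      rcases h2 with ⟨rfl, rfl⟩ | ⟨rfl, rfl⟩
      · exact Or.inl ⟨rfl, rfl⟩
      · exact Or.inr ⟨rfl, rfl⟩
  obtain ⟨w, hw, hw2⟩ := key _ hr
  have hw' : w = v := f.injective hw
  subst hw'
  exact isBridge_iff.1 ((isAcyclic_iff_forall_adj_isBridge.1 h) huv) hw2

/-- adding an edge between vertices which are not connected -/
theorem acyclic_add {G : SimpleGraph V} (h : G.IsAcyclic) {u v : V} (huv : ¬ G.Reachable u v) :
    (G ⊔ edge u v).IsAcyclic := (isAcyclic_add_edge_iff_of_not_reachable u v huv).2 h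

/-- in a forest an edge separates its ends -/
theorem not_reachable_delete {G : SimpleGraph V} (h : G.IsAcyclic) {u v : V} (huv : G.Adj u v) :
    ¬ (G.deleteEdges {s(u, v)}).Reachable u v :=
  isBridge_iff.1 ((isAcyclic_iff_forall_adj_isBridge.1 h) huv)

/-- after an edge is deleted, every vertex is still connected with one of its ends -/
theorem reachable_delete {G : SimpleGraph V} {u v z : V} (h : G.Reachable u z) :
    (G.deleteEdges {s(u, v)}).Reachable u z ∨ (G.deleteEdges {s(u, v)}).Reachable v z := by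
  rw [reachable_iff_reflTransGen] at h
  induction h with
  | refl => exact Or.inl (Reachable.refl _)
  | @tail y z _ hyz ih =>
    by_cases he : s(y, z) = s(u, v)
    · rw [Sym2.eq_iff] at he
      rcases he with ⟨rfl, rfl⟩ | ⟨rfl, rfl⟩
      · exact Or.inr (Reachable.refl _)
      · exact Or.inl (Reachable.refl _)
    · have h1 : (G.deleteEdges {s(u, v)}).Adj y z := by
        rw [deleteEdges_adj]
        exact ⟨hyz, he⟩
      rcases ih with ih | ih
      · exact Or.inl (ih.trans h1.reachable)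
      · exact Or.inr (ih.trans h1.reachable)

end Pool.Agent.Q221.Forest
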