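import Pool.Agent.Q221.Forest.Rare

set_option autoImplicit false

/-!
# A bound for joint extensions
-/

namespace Pool.Agent.Q221.Forest

open SimpleGraph

variable {A : SimpleGraph ℤ → ℤ → ℤ → Prop}

/-- `X` and `Y` have a joint extension of length at most `l` -/
def Joint (A : SimpleGraph ℤ → ℤ → ℤ → Prop) (X : SimpleGraph ℤ) (n : ℤ) (Y : SimpleGraph ℤ)
    (m l : ℤ) : Prop :=
  ∃ Z s t, A Z 0 l ∧ Occ X n Z 0 l s ∧ Occ Y m Z 0 l t

/-- the number of the states -/
def stn (c : ℕ) : ℕ := (2 ^ c) ^ c * (2 ^ c) ^ c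

theorem shorten {c : ℕ} (hA : Cls A c) {X Y : SimpleGraph ℤ} {n m l : ℤ} (hn : 0 < n)
    (hm : 0 < m) {Z : SimpleGraph ℤ} {s t : ℤ} (hZ : A Z 0 l) (hs : Occ X n Z 0 l s)
    (ht : Occ Y m Z 0 l t) (hst : s ≤ t) (hl : n + m + (c + stn c : ℕ) < l) :
    ∃ l' < l, Joint A X n Y m l' := by
  classical
  have hc := hA.one_le
  have e1 := hs.1
  have e2 := hs.2.1
  have e3 := ht.1
  have e4 := ht.2.1
  by_cases h1 : 0 < s
  · refine ⟨l - s, by omega, sh Z (-s), 0, t - s, hA.sh_mem
      (hA.sub hZ e1 (by omega) le_rfl : A Z s l) (by omega) (by omega), ⟨le_rfl, by omega, ?_⟩,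
      ⟨by omega, by omega, ?_⟩⟩
    · exact hs.2.2.trans (agr_sh Z s l (-s)) (by omega) (by omega) (by omega)
    · exact ht.2.2.trans (agr_sh Z s l (-s)) (by omega) (by omega) (by omega)
  have h0 : s = 0 := by omega
  subst h0
  by_cases h2 : max n (t + m) < l
  · exact ⟨max n (t + m), h2, Z, 0, t, hA.sub hZ le_rfl (by omega) h2.le,
      ⟨le_rfl, by omega, hs.2.2⟩, ⟨e3, by omega, ht.2.2⟩⟩
  have h3 : l = t + m := by omega
  -- the states
  set x : Fin (stn c + 1) → ℤ := fun i => n + c + (i : ℕ) with hx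
  set f : Fin (stn c + 1) → (Fin c → Fin c → Prop) × (Fin c → Fin c → Prop) := fun i =>
    (fun u v => Z.Adj (x i - c + (u : ℕ)) (x i - c + (v : ℕ)),
     fun u v => (res Z 0 (x i)).Reachable (x i - c + (u : ℕ)) (x i - c + (v : ℕ))) with hf
  have hcard : Fintype.card ((Fin c → Fin c → Prop) × (Fin c → Fin c → Prop)) <
      Fintype.card (Fin (stn c + 1)) := by
    rw [Fintype.card_fin]
    simp [stn]
  obtain ⟨i, j, hij, hfij⟩ : ∃ i j, x i < x j ∧ f i = f j := by
    obtain ⟨i, j, hne, hfij⟩ := Fintype.exists_ne_map_eq_of_card_lt f hcard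
    rcases lt_or_gt_of_ne hne with h4 | h4
    · refine ⟨i, j, ?_, hfij⟩
      have : (i : ℕ) < j := h4
      simp only [hx]
      omega
    · refine ⟨j, i, ?_, hfij.symm⟩
      have : (j : ℕ) < i := h4
      simp only [hx]
      omega
  have hxi : n + c ≤ x i ∧ x i ≤ n + c + stn c := by
    have := i.2
    simp only [hx]
    omega
  have hxj : x j ≤ n + c + stn c := by
    have := j.2
    simp only [hx]
    omega
  have hst1 : ∀ u v : Fin c, Z.Adj (x i - c + (u : ℕ)) (x i - c + (v : ℕ)) ↔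
      Z.Adj (x j - c + (u : ℕ)) (x j - c + (v : ℕ)) := fun u v =>
    Iff.of_eq (congrFun (congrFun (congrArg Prod.fst hfij) u) v)
  have hst2 : ∀ u v : Fin c, (res Z 0 (x i)).Reachable (x i - c + (u : ℕ)) (x i - c + (v : ℕ)) ↔
      (res Z 0 (x j)).Reachable (x j - c + (u : ℕ)) (x j - c + (v : ℕ)) := fun u v =>
    Iff.of_eq (congrFun (congrFun (congrArg Prod.snd hfij) u) v)
  set p := x i with hp
  set q := x j with hq
  have hql : q < l := by push_cast at hl; omega
  have hqt : q ≤ t := by push_cast at hl; omega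
  -- cutting
  have hXt : A (sh Z (q - p)) (q - p) q :=
    hA.sh_mem (hA.sub hZ le_rfl (by omega) (by omega) : A Z 0 p) (by omega) (by omega)
  have hag : Agr (sh Z (q - p)) Z (q - c) q 0 := by
    refine agr_of_eq fun u v hu hu' hv hv' => ?_
    have := hst1 ⟨(u - (q - c)).toNat, by omega⟩ ⟨(v - (q - c)).toNat, by omega⟩
    simp only [Int.toNat_of_nonneg (by omega : 0 ≤ u - (q - c)),
      Int.toNat_of_nonneg (by omega : 0 ≤ v - (q - c))] at this
    have e5 : q - (c : ℤ) + (u - (q - c)) = u := by ring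
    have e6 : q - (c : ℤ) + (v - (q - c)) = v := by ring
    have e7 : p - (c : ℤ) + (u - (q - c)) = u - (q - p) := by ring
    have e8 : p - (c : ℤ) + (v - (q - c)) = v - (q - p) := by ring
    rw [e5, e6, e7, e8] at this
    exact this
  have hres : ∀ u v, (res (sh Z (q - p)) (q - p) q).Reachable u v →
      (res Z 0 p).Reachable (u - (q - p)) (v - (q - p)) := by
    intro u v huv
    have h5 : Agr (sh Z (q - p)) Z (q - p) q (p - q) :=
      (agr_sh Z 0 p (q - p)).symm (by omega) (by omega) (by omega)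
    have h6 := reach_shift h5 huv
    have e5 : q - p + (p - q) = 0 := by ring
    have e6 : q + (p - q) = p := by ring
    have e7 : u + (p - q) = u - (q - p) := by ring
    have e8 : v + (p - q) = v - (q - p) := by ring
    rwa [e5, e6, e7, e8] at h6
  have hT := hA.transfer_left (x := q) hZ hXt (by omega) (by omega) hql.le hag (by
    intro u v hu hu' hv hv' huv
    have h5 := hres u v huv
    have := hst2 ⟨(u - (q - c)).toNat, by omega⟩ ⟨(v - (q - c)).toNat, by omega⟩
    simp only [Int.toNat_of_nonneg (by omega : 0 ≤ u - (q - c)),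
      Int.toNat_of_nonneg (by omega : 0 ≤ v - (q - c))] at this
    have e5 : q - (c : ℤ) + (u - (q - c)) = u := by ring
    have e6 : q - (c : ℤ) + (v - (q - c)) = v := by ring
    have e7 : p - (c : ℤ) + (u - (q - c)) = u - (q - p) := by ring
    have e8 : p - (c : ℤ) + (v - (q - c)) = v - (q - p) := by ring
    rw [e5, e6, e7, e8] at this
    exact this.1 h5)
  have hT' := hA.sh_mem hT (t := -(q - p)) (a' := 0) (b' := l - (q - p)) (by omega) (by omega)
  refine ⟨l - (q - p), by omega, _, 0, t - (q - p), hT', ⟨le_rfl, by omega, ?_⟩,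
    ⟨by omega, by omega, ?_⟩⟩
  · have h5 : Agr X (sh Z (q - p)) 0 n (q - p) := hs.2.2.trans (agr_sh Z 0 p (q - p)) (by omega)
      (by omega) (by omega)
    exact (h5.trans (gl_left hag) (t'' := q - p) (by omega) (by omega) (by omega)).trans
      (agr_sh _ (q - p) l (-(q - p))) (by omega) (by omega) (by omega)
  · exact (ht.2.2.trans (gl_right hag) (t'' := t) (by omega) (by omega) (by omega)).trans
      (agr_sh _ (q - p) l (-(q - p))) (by omega) (by omega) (by omega)

theorem Joint.swap {X Y : SimpleGraph ℤ} {n m l : ℤ} (h : Joint A X n Y m l) :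
    Joint A Y m X n l := by
  obtain ⟨Z, s, t, h1, h2, h3⟩ := h
  exact ⟨Z, t, s, h1, h3, h2⟩

theorem joint_bound {c : ℕ} (hA : Cls A c) {X Y : SimpleGraph ℤ} {n m : ℤ} (hn : 0 < n)
    (hm : 0 < m) (k : ℕ) : ∀ l : ℤ, l ≤ k → Joint A X n Y m l →
      ∃ l' ≤ n + m + (c + stn c : ℕ), Joint A X n Y m l' := by
  induction k with
  | zero =>
    intro l hl h
    obtain ⟨Z, s, t, h1, h2, h3⟩ := h
    have := hA.pos h1
    push_cast at hl
    omega
  | succ k ih =>
    intro l hl h
    rcases le_or_gt l (n + m + (c + stn c : ℕ)) with h1 | h1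
    · exact ⟨l, h1, h⟩
    · have key : ∃ l' < l, Joint A X n Y m l' := by
        obtain ⟨Z, s, t, hZ, hs, ht⟩ := h
        rcases le_total s t with h2 | h2
        · exact shorten hA hn hm hZ hs ht h2 h1
        · obtain ⟨l', hl', h3⟩ := shorten hA hm hn hZ ht hs h2 (by omega)
          exact ⟨l', hl', h3.swap⟩
      obtain ⟨l', hl', h2⟩ := key
      exact ih l' (by push_cast at hl; omega) h2

theorem jep_iff_bounded {c : ℕ} (hA : Cls A c) : JEP A ↔ ∀ X n Y m, A X 0 n → A Y 0 m →
    ∃ l ≤ n + m + (c + stn c : ℕ), Joint A X n Y m l := by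
  constructor
  · intro hJ X n Y m hX hY
    obtain ⟨Z, l, s, t, hZ, h1, h2⟩ := jep0 hA hJ hX hY
    exact joint_bound hA (hA.pos hX) (hA.pos hY) l.toNat l (by omega) ⟨Z, s, t, hZ, h1, h2⟩
  · intro h X n Y m hX hY
    obtain ⟨l, _, Z, s, t, hZ, h1, h2⟩ := h X n Y m hX hY
    exact ⟨Z, 0, l, s, t, hZ, h1, h2⟩

end Pool.Agent.Q221.Forest
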