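import Pool.Agent.Q221.Forest.Comp

set_option autoImplicit false

/-!
# Ordered forests under the consecutive order
-/

namespace Pool.Agent.Q221.Forest

open SimpleGraph

/-- An ordered forest of length `n ≥ 1`: a graph without cycles on the linearly ordered set
`{0, …, n - 1}`. -/
structure OrdForest where
  /-- the length -/
  n : ℕ
  pos : 1 ≤ n
  /-- the edges -/
  G : SimpleGraph (Fin n)
  acyclic : G.IsAcyclic

/-- The consecutive order: `F` is the induced subforest of `H` on the interval of the consecutive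
vertices `k, k + 1, …, k + |F| - 1` for some `k`. -/
def OrdForest.Le (F H : OrdForest) : Prop :=
  ∃ (k : ℕ) (h : k + F.n ≤ H.n), ∀ i j : Fin F.n,
    F.G.Adj i j ↔ H.G.Adj ⟨k + i, by omega⟩ ⟨k + j, by omega⟩

/-- The forests which avoid the members of `B`. -/
def Av (B : Set OrdForest) : Set OrdForest := {F | ∀ b ∈ B, ¬ b.Le F}

/-- downward closed sets of forests -/
def DownClosed (Y : Set OrdForest) : Prop := ∀ x ∈ Y, ∀ y, OrdForest.Le y x → y ∈ Y

/-- `Y` is not the union of two proper downward closed subsets. -/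
def Atomic (Y : Set OrdForest) : Prop :=
  ¬ ∃ Y₁ Y₂ : Set OrdForest, DownClosed Y₁ ∧ DownClosed Y₂ ∧ Y₁ ⊂ Y ∧ Y₂ ⊂ Y ∧ Y = Y₁ ∪ Y₂

/-- The pair `a` of a number and a list of pairs of numbers represents `F`: it consists of the length
of `F` and of a list of the edges (each in one of the two orders or in both). -/
def Codes (a : ℕ × List (ℕ × ℕ)) (F : OrdForest) : Prop :=
  F.n = a.1 ∧ ∀ i j : Fin F.n,
    F.G.Adj i j ↔ ((i : ℕ), (j : ℕ)) ∈ a.2 ∨ ((j : ℕ), (i : ℕ)) ∈ a.2

/-- the set of the forests which are represented in the list `L` -/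
def coded (L : List (ℕ × List (ℕ × ℕ))) : Set OrdForest := {F | ∃ a ∈ L, Codes a F}

theorem OrdForest.Le.refl (F : OrdForest) : F.Le F :=
  ⟨0, by omega, fun i j => by simp⟩

theorem OrdForest.Le.trans {F H K : OrdForest} (h1 : F.Le H) (h2 : H.Le K) : F.Le K := by
  obtain ⟨k, hk, h1⟩ := h1
  obtain ⟨l, hl, h2⟩ := h2
  refine ⟨l + k, by omega, fun i j => ?_⟩
  rw [h1, h2]
  simp only [add_assoc]

theorem av_down (B : Set OrdForest) : DownClosed (Av B) :=
  fun _ hx _ hy b hb h => hx b hb (h.trans hy)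

/-- atomicity is the joint embedding property -/
theorem atomic_iff {Y : Set OrdForest} (hY : DownClosed Y) :
    Atomic Y ↔ ∀ x ∈ Y, ∀ y ∈ Y, ∃ z ∈ Y, OrdForest.Le x z ∧ OrdForest.Le y z := by
  constructor
  · intro h x hx y hy
    by_contra hcon
    push Not at hcon
    apply h
    refine ⟨{z ∈ Y | ¬ OrdForest.Le x z}, {z ∈ Y | ¬ OrdForest.Le y z}, ?_, ?_, ?_, ?_, ?_⟩
    · exact fun z hz w hw => ⟨hY z hz.1 w hw, fun h1 => hz.2 (h1.trans hw)⟩
    · exact fun z hz w hw => ⟨hY z hz.1 w hw, fun h1 => hz.2 (h1.trans hw)⟩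
    · exact ⟨fun z hz => hz.1, fun h1 => (h1 hx).2 (OrdForest.Le.refl x)⟩
    · exact ⟨fun z hz => hz.1, fun h1 => (h1 hy).2 (OrdForest.Le.refl y)⟩
    · ext z
      constructor
      · intro hz
        by_cases h1 : OrdForest.Le x z
        · exact Or.inr ⟨hz, hcon z hz h1⟩
        · exact Or.inl ⟨hz, h1⟩
      · rintro (hz | hz)
        · exact hz.1
        · exact hz.1
  · rintro h ⟨Y₁, Y₂, h1, h2, h3, h4, h5⟩
    obtain ⟨x, hx, hx'⟩ := Set.exists_of_ssubset h3
    obtain ⟨y, hy, hy'⟩ := Set.exists_of_ssubset h4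
    obtain ⟨z, hz, hxz, hyz⟩ := h x hx y hy
    rw [h5] at hz
    rcases hz with hz | hz
    · exact hx' (h1 z hz x hxz)
    · exact hy' (h2 z hz y hyz)

/-! ### The connection with graphs on the integers -/

/-- the embedding -/
def em (n : ℕ) : Fin n ↪ ℤ := ⟨fun i => ((i : ℕ) : ℤ), fun i j h => by
  have : ((i : ℕ) : ℤ) = (j : ℕ) := h
  exact Fin.ext (by exact_mod_cast this)⟩

theorem em_apply (n : ℕ) (i : Fin n) : em n i = ((i : ℕ) : ℤ) := rfl

/-- the graph on the integers -/
def toG (F : OrdForest) : SimpleGraph ℤ := F.G.map (em F.n)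

theorem toG_adj (F : OrdForest) {i j : ℤ} (hi : 0 ≤ i) (hi' : i < F.n) (hj : 0 ≤ j)
    (hj' : j < F.n) : (toG F).Adj i j ↔ F.G.Adj ⟨i.toNat, by omega⟩ ⟨j.toNat, by omega⟩ := by
  unfold toG
  rw [map_adj]
  constructor
  · rintro ⟨u, v, huv, rfl, rfl⟩
    simp only [em_apply, Int.toNat_natCast, Fin.eta]
    exact huv
  · intro h
    refine ⟨_, _, h, ?_, ?_⟩
    · rw [em_apply, Int.toNat_of_nonneg hi]
    · rw [em_apply, Int.toNat_of_nonneg hj]

theorem toG_acyclic (F : OrdForest) (a b : ℤ) : (res (toG F) a b).IsAcyclic :=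
  (acyclic_map (em F.n) F.acyclic).anti (res_le _ _ _)

/-- the embedding with a translation -/
def emp (p : ℤ) (n : ℕ) : Fin n ↪ ℤ := ⟨fun i => p + (i : ℕ), fun i j hij => by
  have : p + ((i : ℕ) : ℤ) = p + (j : ℕ) := hij
  exact Fin.ext (by omega)⟩

theorem emp_apply (p : ℤ) (n : ℕ) (i : Fin n) : emp p n i = p + (i : ℕ) := rfl

/-- the window of `X` on `[p, p + n)` -/
def ofG (X : SimpleGraph ℤ) (p : ℤ) (n : ℕ) (hn : 1 ≤ n)
    (h : (res X p (p + n)).IsAcyclic) : OrdForest where
  n := n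
  pos := hn
  G := X.comap fun i : Fin n => p + (i : ℕ)
  acyclic := by
    have h1 : (X.comap fun i : Fin n => p + (i : ℕ)) =
        (res X p (p + n)).comap (emp p n) := by
      ext i j
      simp only [comap_adj, emp_apply]
      constructor
      · intro h2
        have := i.2
        have := j.2
        exact ⟨h2, ⟨by omega, by omega⟩, ⟨by omega, by omega⟩⟩
      · intro h2
        exact h2.1
    rw [h1]
    exact h.of_comap _

theorem ofG_agr (X : SimpleGraph ℤ) (p : ℤ) (n : ℕ) (hn : 1 ≤ n)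
    (h : (res X p (p + n)).IsAcyclic) : Agr (toG (ofG X p n hn h)) X 0 n p := by
  intro i j hi hi' hj hj'
  rw [toG_adj _ hi hi' hj hj']
  simp only [ofG, comap_adj]
  rw [Int.toNat_of_nonneg hi, Int.toNat_of_nonneg hj, add_comm p i, add_comm p j]

theorem le_iff_occ (F H : OrdForest) : F.Le H ↔ ∃ s, Occ (toG F) F.n (toG H) 0 H.n s := by
  constructor
  · rintro ⟨k, hk, h⟩
    refine ⟨k, by omega, by omega, fun i j hi hi' hj hj' => ?_⟩
    rw [toG_adj _ hi hi' hj hj', toG_adj _ (by omega) (by omega) (by omega) (by omega), h]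
    have e1 : (i + k).toNat = k + i.toNat := by omega
    have e2 : (j + k).toNat = k + j.toNat := by omega
    simp only [e1, e2]
  · rintro ⟨s, h1, h2, h3⟩
    lift s to ℕ using h1
    refine ⟨s, by omega, fun i j => ?_⟩
    have h4 := h3 (i : ℕ) (j : ℕ) (by omega) (by have := i.2; omega) (by omega)
      (by have := j.2; omega)
    rw [toG_adj _ (by omega) (by have := i.2; omega) (by omega) (by have := j.2; omega),
      toG_adj _ (by omega) (by have := i.2; omega) (by omega) (by have := j.2; omega)] at h4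
    have e1 : (((i : ℕ) : ℤ) + s).toNat = s + i := by omega
    have e2 : (((j : ℕ) : ℤ) + s).toNat = s + j := by omega
    simp only [e1, e2, Int.toNat_natCast] at h4
    exact h4

theorem codes_iff {a : ℕ × List (ℕ × ℕ)} {F : OrdForest} :
    Codes a F ↔ F.n = a.1 ∧ Mz a (toG F) 0 := by
  unfold Codes
  refine and_congr_right fun hn => ?_
  constructor
  · intro h i hi j hj
    rw [toG_adj _ (by omega) (by omega) (by omega) (by omega)]
    have := h ⟨i, by omega⟩ ⟨j, by omega⟩
    simpa using this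
  · intro h i j
    have h1 := h i (by have := i.2; omega) j (by have := j.2; omega)
    rw [toG_adj _ (by omega) (by have := i.2; omega) (by omega) (by have := j.2; omega)] at h1
    simpa using h1

theorem av_iff (L : List (ℕ × List (ℕ × ℕ))) (F : OrdForest) :
    F ∈ Av (coded L) ↔ AB L (toG F) 0 F.n := by
  constructor
  · intro h
    refine ⟨by have := F.pos; omega, toG_acyclic F _ _, fun f hf hf0 p hp hp' hM => ?_⟩
    have hac : (res (toG F) p (p + f.1)).IsAcyclic := toG_acyclic F _ _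
    have hag := ofG_agr (toG F) p f.1 hf0 hac
    refine h (ofG (toG F) p f.1 hf0 hac) ⟨f, hf, ?_⟩ ?_
    · rw [codes_iff]
      refine ⟨rfl, ?_⟩
      rw [Mz_agr hag le_rfl (by omega), zero_add]
      exact hM
    · rw [le_iff_occ]
      exact ⟨p, hp, by show p + (f.1 : ℤ) ≤ F.n; exact hp', hag⟩
  · rintro h H ⟨f, hf, hc⟩ hle
    rw [le_iff_occ] at hle
    obtain ⟨s, h1, h2, h3⟩ := hle
    rw [codes_iff] at hc
    obtain ⟨hn, hM⟩ := hc
    refine h.2.2 f hf (by have := H.pos; omega) s h1 (by omega) ?_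
    rw [Mz_agr h3 le_rfl (by omega), zero_add] at hM
    exact hM

theorem jep_iff (L : List (ℕ × List (ℕ × ℕ))) :
    (∀ x ∈ Av (coded L), ∀ y ∈ Av (coded L), ∃ z ∈ Av (coded L), OrdForest.Le x z ∧
      OrdForest.Le y z) ↔ JEP (AB L) := by
  obtain ⟨c, hc⟩ := exists_PC L
  have hA := PC_cls hc
  have key : ∀ (X : SimpleGraph ℤ) (n : ℤ), AB L X 0 n →
      ∃ F ∈ Av (coded L), (F.n : ℤ) = n ∧ Agr (toG F) X 0 n 0 := by
    intro X n hX
    have hn := hA.pos hX
    lift n to ℕ using hn.le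
    have hac : (res X 0 (0 + n)).IsAcyclic := by rw [zero_add]; exact hX.2.1
    have hag := ofG_agr X 0 n (by omega) hac
    refine ⟨ofG X 0 n (by omega) hac, ?_, rfl, hag⟩
    rw [av_iff]
    show AB L _ 0 (n : ℤ)
    exact hA.agr0 hX (hag.symm (by omega) (by omega) (by omega))
  constructor
  · intro h X n Y m hX hY
    obtain ⟨F, hF, hFn, hFX⟩ := key X n hX
    obtain ⟨H, hH, hHm, hHY⟩ := key Y m hY
    obtain ⟨K, hK, hFK, hHK⟩ := h F hF H hH
    rw [le_iff_occ] at hFK hHK
    rw [av_iff] at hK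
    obtain ⟨s, hs1, hs2, hs3⟩ := hFK
    obtain ⟨t, ht1, ht2, ht3⟩ := hHK
    refine ⟨toG K, 0, K.n, s, t, hK, ⟨hs1, by omega, ?_⟩, ⟨ht1, by omega, ?_⟩⟩
    · exact (hFX.symm (a' := 0) (b' := n) (t' := 0) (by omega) (by omega) (by omega)).trans hs3
        (by omega) (by omega) (by omega)
    · exact (hHY.symm (a' := 0) (b' := m) (t' := 0) (by omega) (by omega) (by omega)).trans ht3
        (by omega) (by omega) (by omega)
  · intro hJ F hF H hH
    rw [av_iff] at hF hH
    obtain ⟨Z, l, s, t, hZ, h1, h2⟩ := jep0 hA hJ hF hH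
    obtain ⟨K, hK, hKl, hKZ⟩ := key Z l hZ
    have hZK : Agr Z (toG K) 0 l 0 := hKZ.symm (by omega) (by omega) (by omega)
    refine ⟨K, hK, (le_iff_occ F K).2 ⟨s, h1.1, by have := h1.2.1; omega,
      h1.2.2.trans hZK (by have := h1.1; omega) (by have := h1.2.1; omega) (by omega)⟩,
      (le_iff_occ H K).2 ⟨t, h2.1, by have := h2.2.1; omega,
      h2.2.2.trans hZK (by have := h2.1; omega) (by have := h2.2.1; omega) (by omega)⟩⟩

/-- **Atomicity is decidable.** -/
theorem atomic_computable :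
    ComputablePred fun L : List (ℕ × List (ℕ × ℕ)) => Atomic (Av (coded L)) :=
  jep_computable.of_eq fun L => ((atomic_iff (av_down _)).trans (jep_iff L)).symm

/-- a representation determines the forest -/
theorem codes_unique {a : ℕ × List (ℕ × ℕ)} {F H : OrdForest} (hF : Codes a F)
    (hH : Codes a H) : F = H := by
  obtain ⟨n, hn, G, hG⟩ := F
  obtain ⟨n', hn', G', hG'⟩ := H
  obtain ⟨h1, h2⟩ := hF
  obtain ⟨h3, h4⟩ := hH
  simp only at h1 h3
  subst h1
  subst h3
  have : G = G' := by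
    ext i j
    rw [h2 i j, h4 i j]
  subst this
  rfl

/-- every forest has a representation -/
theorem exists_codes (F : OrdForest) : ∃ a, Codes a F := by
  classical
  refine ⟨(F.n, ((Finset.univ : Finset (Fin F.n × Fin F.n)).filter
    (fun p => F.G.Adj p.1 p.2)).toList.map fun p => ((p.1 : ℕ), (p.2 : ℕ))), rfl, fun i j => ?_⟩
  simp only [List.mem_map, Finset.mem_toList, Finset.mem_filter, Finset.mem_univ, true_and,
    Prod.mk.injEq, Prod.exists]
  constructor
  · intro h
    exact Or.inl ⟨i, j, h, rfl, rfl⟩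
  · rintro (⟨u, v, h, h1, h2⟩ | ⟨u, v, h, h1, h2⟩)
    · rwa [Fin.ext h1, Fin.ext h2] at h
    · rw [Fin.ext h1, Fin.ext h2] at h
      exact h.symm

/-- every finite set of forests has a representation -/
theorem exists_coded {B : Set OrdForest} (hB : B.Finite) : ∃ L, coded L = B := by
  induction B, hB using Set.Finite.induction_on with
  | empty => exact ⟨[], by ext F; simp [coded]⟩
  | @insert F B _ _ ih =>
    obtain ⟨L, hL⟩ := ih
    obtain ⟨a, ha⟩ := exists_codes F
    refine ⟨a :: L, ?_⟩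
    ext H
    rw [Set.mem_insert_iff, ← hL]
    constructor
    · rintro ⟨b, hb, hH⟩
      rcases List.mem_cons.1 hb with rfl | hb
      · exact Or.inl (codes_unique hH ha)
      · exact Or.inr ⟨b, hb, hH⟩
    · rintro (rfl | ⟨b, hb, hH⟩)
      · exact ⟨a, List.mem_cons_self, ha⟩
      · exact ⟨b, List.mem_cons_of_mem _ hb, hH⟩

end Pool.Agent.Q221.Forest
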