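import Pool.Agent.Q221.Forest.Bic

set_option autoImplicit false

/-!
# Classes with the joint embedding property have certificates
-/

namespace Pool.Agent.Q221.Forest

open SimpleGraph

variable {A : SimpleGraph ℤ → ℤ → ℤ → Prop} {c : ℤ}

/-- the joint embedding property, with normalized intervals -/
theorem jep0 (hA : Cls A c) (hJ : JEP A) {X Y : SimpleGraph ℤ} {n m : ℤ} (hX : A X 0 n)
    (hY : A Y 0 m) : ∃ Z l s t, A Z 0 l ∧ Occ X n Z 0 l s ∧ Occ Y m Z 0 l t := by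
  obtain ⟨Z, a, b, s, t, hZ, ⟨h1, h2, h3⟩, h4, h5, h6⟩ := hJ X n Y m hX hY
  refine ⟨sh Z (-a), b - a, s - a, t - a, hA.sh_mem hZ (by omega) (by omega),
    ⟨by omega, by omega, ?_⟩, ⟨by omega, by omega, ?_⟩⟩
  · exact h3.trans (agr_sh Z a b (-a)) (by omega) (by omega) (by omega)
  · exact h6.trans (agr_sh Z a b (-a)) (by omega) (by omega) (by omega)

/-- the pattern of `X` on `[0, k)` -/
def pat (X : SimpleGraph ℤ) (k : ℕ) : Fin k → Fin k → Prop := fun i j => X.Adj i j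

theorem agr_of_pat {X Y : SimpleGraph ℤ} {k : ℕ} (h : pat X k = pat Y k) : Agr X Y 0 k 0 := by
  refine agr_of_eq fun i j hi hi' hj hj' => ?_
  have h1 := congrFun (congrFun h ⟨i.toNat, by omega⟩) ⟨j.toNat, by omega⟩
  simp only [pat, eq_iff_iff] at h1
  rwa [Int.toNat_of_nonneg hi, Int.toNat_of_nonneg hj] at h1

theorem jep_len (hA : Cls A c) (hJ : JEP A) (k : ℕ) {X0 : SimpleGraph ℤ} {m0 : ℤ}
    (h0 : A X0 0 m0) : ∃ Z l, A Z 0 l ∧ (∃ t, Occ X0 m0 Z 0 l t) ∧
      ∀ X, A X 0 k → ∃ t, Occ X k Z 0 l t := by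
  classical
  have : Fintype (Fin k → Fin k → Prop) := Fintype.ofFinite _
  have key : ∀ s : Finset (Fin k → Fin k → Prop), ∃ Z l, A Z 0 l ∧ (∃ t, Occ X0 m0 Z 0 l t) ∧
      ∀ X, A X 0 k → pat X k ∈ s → ∃ t, Occ X k Z 0 l t := by
    intro s
    induction s using Finset.induction_on with
    | empty =>
      refine ⟨X0, m0, h0, ⟨0, le_rfl, by omega, agr_refl _ _ _⟩, fun X _ h => ?_⟩
      simp at h
    | insert P s _ ih =>
      obtain ⟨Z, l, hZ, ⟨t0, ht0⟩, hall⟩ := ih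
      by_cases hP : ∃ X1, A X1 0 k ∧ pat X1 k = P
      · obtain ⟨X1, hX1, hP1⟩ := hP
        obtain ⟨Z', l', s', t', hZ', h1, h2⟩ := jep0 hA hJ hZ hX1
        refine ⟨Z', l', hZ', ⟨_, ht0.trans h1⟩, fun X hX hXP => ?_⟩
        rcases Finset.mem_insert.1 hXP with h3 | h3
        · have h4 : Agr X X1 0 k 0 := agr_of_pat (h3.trans hP1.symm)
          exact ⟨t', h2.1, h2.2.1, h4.trans h2.2.2 (by omega) (by omega) (by omega)⟩
        · obtain ⟨t, ht⟩ := hall X hX h3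
          exact ⟨_, ht.trans h1⟩
      · refine ⟨Z, l, hZ, ⟨t0, ht0⟩, fun X hX hXP => ?_⟩
        rcases Finset.mem_insert.1 hXP with h3 | h3
        · exact absurd ⟨X, hX, h3⟩ hP
        · exact hall X hX h3
  obtain ⟨Z, l, h1, h2, h3⟩ := key Finset.univ
  exact ⟨Z, l, h1, h2, fun X hX => h3 X hX (Finset.mem_univ _)⟩

theorem jep_all (hA : Cls A c) (hJ : JEP A) (n : ℕ) {X0 : SimpleGraph ℤ} {m0 : ℤ}
    (h0 : A X0 0 m0) : ∃ Z l, A Z 0 l ∧ (∃ t, Occ X0 m0 Z 0 l t) ∧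
      ∀ X k, A X 0 k → k ≤ n → ∃ t, Occ X k Z 0 l t := by
  induction n with
  | zero =>
    refine ⟨X0, m0, h0, ⟨0, le_rfl, by omega, agr_refl _ _ _⟩, fun X k hX hk => ?_⟩
    have := hA.pos hX
    push_cast at hk
    omega
  | succ n ih =>
    obtain ⟨Z, l, hZ, ⟨t0, ht0⟩, hall⟩ := ih
    obtain ⟨Z', l', hZ', ⟨t1, ht1⟩, hall'⟩ := jep_len hA hJ (n + 1) hZ
    refine ⟨Z', l', hZ', ⟨_, ht0.trans ht1⟩, fun X k hX hk => ?_⟩
    rcases le_or_gt k n with h1 | h1
    · obtain ⟨t, ht⟩ := hall X k hX h1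
      exact ⟨_, ht.trans ht1⟩
    · have h2 : k = ((n + 1 : ℕ) : ℤ) := by push_cast at hk ⊢; omega
      subst h2
      exact hall' X hX

/-- extension to windows of a given length -/
theorem ext_of_inf (hA : Cls A c) (hJ : JEP A) (hinf : ∀ M : ℤ, ∃ X n, A X 0 n ∧ M < n) {M : ℤ}
    {X : SimpleGraph ℤ} {n : ℤ} (hX : A X 0 n) (hn : n ≤ M) :
    ∃ W s, A W 0 M ∧ Occ X n W 0 M s := by
  obtain ⟨Y, k, hY, hk⟩ := hinf M
  obtain ⟨Z, l, s, t, hZ, h1, h2⟩ := jep0 hA hJ hX hY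
  have h3 := hA.pos hX
  have e1 := h1.1
  have e2 := h1.2.1
  have e3 := h2.1
  have e4 := h2.2.1
  obtain ⟨x, hx, hx', hxs, hxs'⟩ : ∃ x, 0 ≤ x ∧ x + M ≤ l ∧ x ≤ s ∧ s + n ≤ x + M :=
    ⟨min s (l - M), by omega, by omega, by omega, by omega⟩
  refine ⟨sh Z (-x), s - x, hA.sh_mem (hA.sub hZ hx (by omega) hx' : A Z x (x + M)) (by omega)
    (by omega), by omega, by omega, ?_⟩
  exact h1.2.2.trans (agr_sh Z 0 l (-x)) (by omega) (by omega) (by omega)

/-! ### The repeatable case -/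

/-- adding long edges at a far vertex such that a window becomes connected -/
theorem connect_window (hA : Cls A c) {Z : SimpleGraph ℤ} {a b u p : ℤ} (hZ : A Z a b)
    (hu : a ≤ u) (hu' : u < b) (hp : a ≤ p) (hp' : p + c ≤ b)
    (hfar : u + (c + 1) ≤ p ∨ p + c + c ≤ u) :
    ∃ Z', A Z' a b ∧ (∀ i j, a ≤ i → i < j → j < b → j - i ≤ c → (Z.Adj i j ↔ Z'.Adj i j)) ∧
      ∀ x y, p ≤ x → x < p + c → p ≤ y → y < p + c → (res Z' a b).Reachable x y := by
  have hc := hA.one_le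
  set St : SimpleGraph ℤ := {
    Adj := fun i j => (i = u ∧ p ≤ j ∧ j < p + c) ∨ (j = u ∧ p ≤ i ∧ i < p + c)
    symm := ⟨fun _ _ h => h.symm⟩
    loopless := ⟨fun i h => by rcases h with h | h <;> omega⟩ } with hSt
  obtain ⟨F, hF1, hF2, hF3, hF4⟩ := exists_isAcyclic_reachable_eq_le_of_le_of_isAcyclic
    (H := res Z a b) (G := res Z a b ⊔ St) le_sup_left (hA.acyc hZ)
  have hsh : ∀ i j, a ≤ i → i < j → j < b → j - i ≤ c → (Z.Adj i j ↔ F.Adj i j) := by
    intro i j hi hij hj hs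
    constructor
    · intro h
      exact hF1 ⟨h, ⟨hi, by omega⟩, ⟨by omega, hj⟩⟩
    · intro h
      rcases hF2 h with h1 | h1
      · exact h1.1
      · exfalso
        rcases h1 with h1 | h1 <;> omega
  have hres : res F a b = F := by
    ext i j
    refine ⟨fun h => h.1, fun h => ?_⟩
    rcases hF2 h with h1 | h1
    · exact ⟨h, h1.2.1, h1.2.2⟩
    · refine ⟨h, ?_⟩
      rcases h1 with h1 | h1 <;> omega
  refine ⟨F, hA.short_agr hZ hsh (by rw [hres]; exact hF3), hsh, ?_⟩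
  intro x y hx hx' hy hy'
  rw [hres, hF4]
  have h1 : (res Z a b ⊔ St).Adj x u := Or.inr (Or.inr ⟨rfl, hx, hx'⟩)
  have h2 : (res Z a b ⊔ St).Adj u y := Or.inr (Or.inl ⟨rfl, hy, hy'⟩)
  exact h1.reachable.trans h2.reachable

/-- `T` occurs twice without overlap in an element of the class -/
def Rep (A : SimpleGraph ℤ → ℤ → ℤ → Prop) (T : SimpleGraph ℤ) (n : ℤ) : Prop :=
  ∃ Z s, n ≤ s ∧ A Z 0 (s + n) ∧ Agr T Z 0 n 0 ∧ Agr T Z 0 n s

theorem certU_of_rep (hA : Cls A c) (hJ : JEP A) (hinf : ∀ M : ℤ, ∃ X n, A X 0 n ∧ M < n)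
    (hrep : ∀ T n, A T 0 n → Rep A T n) : CertU A c := by
  have hc := hA.one_le
  refine ⟨fun X n hX hn => ext_of_inf hA hJ hinf hX hn, fun W W' hW hW' => ?_⟩
  -- a long element with `W` and `W'`
  obtain ⟨T1, l1, s1, t1, hT1, hs1, ht1⟩ := jep0 hA hJ hW hW'
  obtain ⟨Y, k, hY, hk⟩ := hinf (2 * c + 1)
  obtain ⟨T, n, s2, t2, hT, hs2, ht2⟩ := jep0 hA hJ hT1 hY
  have hWT := hs1.trans hs2
  have hWT' := ht1.trans hs2
  set a0 := s1 + s2 with ha0
  set b0 := t1 + s2 with hb0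
  have hn : 2 * c + 1 < n := by have := ht2.1; have := ht2.2.1; omega
  obtain ⟨Z, s, hs, hZ, hZ1, hZ2⟩ := hrep T n hT
  have ea := hWT.1
  have ea' := hWT.2.1
  have eb := hWT'.1
  have eb' := hWT'.2.1
  -- the element which ends with `W`
  have hX1 : A Z 0 (s + a0 + c) := hA.sub hZ le_rfl (by omega) (by omega)
  obtain ⟨X2, hX2, hX2s, hX2c⟩ := connect_window hA (u := 0) (p := s + a0) hX1 le_rfl (by omega)
    (by omega) le_rfl (Or.inl (by omega))
  -- the element which begins with `W'`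
  have hY1 : A Z b0 (s + n) := hA.sub hZ (by omega) (by omega) le_rfl
  obtain ⟨Y2, hY2, hY2s, hY2c⟩ := connect_window hA (u := s + n - 1) (p := b0) hY1 (by omega)
    (by omega) le_rfl (by omega) (Or.inr (by omega))
  have hY3 : A (sh Y2 (-b0)) 0 (s + n - b0) := hA.sh_mem hY2 (by omega) (by omega)
  obtain ⟨V, l, x, y, hV, hx, hy⟩ := jep0 hA hJ hX2 hY3
  obtain ⟨U, s', hs', hU, hU1, hU2⟩ := hrep V l hV
  have ex := hx.1
  have ex' := hx.2.1
  have ey := hy.1
  have ey' := hy.2.1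
  -- `X2` and `Y2` in `U`
  have hXU : Agr X2 U 0 (s + a0 + c) x := hx.2.2.trans hU1 (by omega) (by omega) (by omega)
  have hYU : Agr (sh Y2 (-b0)) U 0 (s + n - b0) (s' + y) :=
    hy.2.2.trans hU2 (by omega) (by omega) (by omega)
  have hYU' : Agr Y2 U b0 (s + n) (s' + y - b0) :=
    (agr_sh Y2 b0 (s + n) (-b0)).trans hYU (by omega) (by omega) (by omega)
  -- agreement on short pairs
  have hshort : ∀ {P Q : SimpleGraph ℤ} {a b p : ℤ}, a ≤ p → p + c ≤ b →
      (∀ i j, a ≤ i → i < j → j < b → j - i ≤ c → (P.Adj i j ↔ Q.Adj i j)) →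
      Agr P Q p (p + c) 0 := by
    intro P Q a b p hp hp' h
    refine agr_of_eq fun i j hi hi' hj hj' => ?_
    rcases lt_trichotomy i j with h5 | h5 | h5
    · exact h i j (by omega) h5 (by omega) (by omega)
    · subst h5; exact ⟨fun h => absurd h (P.irrefl), fun h => absurd h (Q.irrefl)⟩
    · have := h j i (by omega) h5 (by omega) (by omega)
      rw [adj_comm, this, adj_comm]
  refine ⟨U, s' + l, x + (s + a0), s' + y, hU, ⟨by omega, by omega, ?_⟩, ⟨by omega, by omega, ?_⟩,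
    by omega, ?_, ?_⟩
  · -- `W`
    have h1 : Agr W Z 0 c (s + a0) := hWT.2.2.trans hZ2 (by omega) (by omega) (by omega)
    have h2 : Agr Z X2 (s + a0) (s + a0 + c) 0 := hshort (by omega) le_rfl hX2s
    exact (h1.trans h2 (t'' := s + a0) (by omega) (by omega) (by omega)).trans hXU (by omega)
      (by omega) (by omega)
  · have h1 : Agr W' Z 0 c b0 := hWT'.2.2.trans hZ1 (by omega) (by omega) (by omega)
    have h2 : Agr Z Y2 b0 (b0 + c) 0 := hshort le_rfl (by omega) hY2s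
    exact (h1.trans h2 (t'' := b0) (by omega) (by omega) (by omega)).trans hYU' (by omega)
      (by omega) (by omega)
  · intro i j hi hi' hj hj'
    have h1 := hX2c (i - x) (j - x) (by omega) (by omega) (by omega) (by omega)
    have h2 := (reach_shift_iff hXU rfl rfl).2 h1
    simp only [sub_add_cancel, zero_add] at h2
    exact h2.mono (res_mono_left (by omega) (by omega))
  · intro i j hi hi' hj hj'
    have h1 := hY2c (i - (s' + y - b0)) (j - (s' + y - b0)) (by omega) (by omega) (by omega)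
      (by omega)
    have h2 := (reach_shift_iff hYU' rfl rfl).2 h1
    simp only [sub_add_cancel] at h2
    exact h2.mono (res_mono_left (by omega) (by omega))

end Pool.Agent.Q221.Forest
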