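import Pool.Agent.Q221.Forest.Nec

set_option autoImplicit false

/-!
# Classes with a rare element
-/

namespace Pool.Agent.Q221.Forest

open SimpleGraph

variable {A : SimpleGraph ℤ → ℤ → ℤ → Prop} {c : ℤ}

/-- `W` occurs at most once in every element -/
def Uniq (A : SimpleGraph ℤ → ℤ → ℤ → Prop) (W : SimpleGraph ℤ) (n : ℤ) : Prop :=
  ∀ Z a b s t, A Z a b → Occ W n Z a b s → Occ W n Z a b t → s = t

theorem exists_uniq (hA : Cls A c) {T : SimpleGraph ℤ} {n : ℤ} (hT : A T 0 n)
    (hrep : ¬ Rep A T n) : ∃ W k, A W 0 k ∧ Uniq A W k := by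
  classical
  have hn := hA.pos hT
  set D : Set ℕ := {d | ∃ Z, A Z 0 (d + n) ∧ Agr T Z 0 n 0 ∧ Agr T Z 0 n d} with hD
  have hlt : ∀ d ∈ D, (d : ℤ) < n := by
    rintro d ⟨Z, hZ, h1, h2⟩
    by_contra hcon
    exact hrep ⟨Z, d, by omega, hZ, h1, h2⟩
  have hbdd : BddAbove D := ⟨n.toNat, fun d hd => by have := hlt d hd; omega⟩
  have hne : D.Nonempty := ⟨0, T, by simpa using hT, agr_refl _ _ _, agr_refl _ _ _⟩
  obtain ⟨W, hW, hW1, hW2⟩ := Nat.sSup_mem hne hbdd
  set d := sSup D with hd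
  refine ⟨W, d + n, hW, ?_⟩
  have key : ∀ Z a b s t, A Z a b → Occ W (d + n) Z a b s → Occ W (d + n) Z a b t → ¬ s < t := by
    intro Z a b s t hZ hs ht hst
    have e1 := hs.1
    have e2 := hs.2.1
    have e3 := ht.1
    have e4 := ht.2.1
    have h1 : A (sh Z (-s)) 0 (((t - s).toNat + d : ℕ) + n) :=
      hA.sh_mem (hA.sub hZ e1 (by omega) e4 : A Z s (t + (d + n))) (by omega)
        (by push_cast; omega)
    have h2 : Agr T (sh Z (-s)) 0 n 0 := by
      refine (hW1.trans hs.2.2 (t'' := s) (by omega) (by omega) (by omega)).trans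
        (agr_sh Z s (s + n) (-s)) (by omega) (by omega) (by omega)
    have h3 : Agr T (sh Z (-s)) 0 n (((t - s).toNat + d : ℕ)) := by
      refine (hW2.trans ht.2.2 (t'' := d + t) (by omega) (by omega) (by omega)).trans
        (agr_sh Z (d + t) (d + t + n) (-s)) (by omega) (by omega) (by push_cast; omega)
    have h4 : (t - s).toNat + d ≤ d := le_csSup hbdd ⟨_, h1, h2, h3⟩
    omega
  intro Z a b s t hZ hs ht
  rcases lt_trichotomy s t with h | h | h
  · exact absurd h (key Z a b s t hZ hs ht)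
  · exact h
  · exact absurd h (key Z a b t s hZ ht hs)

theorem Uniq.super {W : SimpleGraph ℤ} {n : ℤ} (h : Uniq A W n) {V : SimpleGraph ℤ} {l s : ℤ}
    (hs : Occ W n V 0 l s) : Uniq A V l := by
  intro Z a b x y hZ hx hy
  have := h Z a b _ _ hZ (hs.trans hx) (hs.trans hy)
  omega

theorem Uniq.rigid (hA : Cls A c) (hJ : JEP A) {W : SimpleGraph ℤ} {n : ℤ} (h : Uniq A W n)
    {V V' : SimpleGraph ℤ} {a b s : ℤ} (hV : A V a b) (hV' : A V' a b) (hs : Occ W n V a b s)
    (hs' : Occ W n V' a b s) : Agr V V' a b 0 := by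
  have h1 : A (sh V (-a)) 0 (b - a) := hA.sh_mem hV (by omega) (by omega)
  have h2 : A (sh V' (-a)) 0 (b - a) := hA.sh_mem hV' (by omega) (by omega)
  have e1 := hs.1
  have e2 := hs.2.1
  have h3 : Occ W n (sh V (-a)) 0 (b - a) (s - a) := ⟨by omega, by omega,
    hs.2.2.trans (agr_sh V a b (-a)) (by omega) (by omega) (by omega)⟩
  have h4 : Occ W n (sh V' (-a)) 0 (b - a) (s - a) := ⟨by omega, by omega,
    hs'.2.2.trans (agr_sh V' a b (-a)) (by omega) (by omega) (by omega)⟩
  obtain ⟨Z, l, x, y, hZ, hx, hy⟩ := jep0 hA hJ h1 h2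
  have h5 := h Z 0 l _ _ hZ (h3.trans hx) (h4.trans hy)
  have h6 : x = y := by omega
  subst h6
  have h7 : Agr V Z a b (x - a) := (agr_sh V a b (-a)).trans hx.2.2 (by omega) (by omega)
    (by omega)
  have h8 : Agr V' Z a b (x - a) := (agr_sh V' a b (-a)).trans hy.2.2 (by omega) (by omega)
    (by omega)
  exact h7.trans (h8.symm rfl rfl rfl) (by omega) (by omega) (by omega)

/-- a long edge of an element with the rare element lies inside the rare element -/
theorem Uniq.edge_in (hA : Cls A c) (hJ : JEP A) {W : SimpleGraph ℤ} {n : ℤ} (h : Uniq A W n)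
    {V : SimpleGraph ℤ} {a b s i j : ℤ} (hV : A V a b) (hs : Occ W n V a b s) (hij : V.Adj i j)
    (hi : a ≤ i) (hj : j < b) (hl : c + 1 ≤ j - i) : s ≤ i ∧ j < s + n := by
  by_contra hcon
  have hc := hA.one_le
  have hadj : ∀ u v, ¬ (u = i ∧ v = j) → ¬ (u = j ∧ v = i) →
      (V.Adj u v ↔ (V.deleteEdges {s(i, j)}).Adj u v) := by
    intro u v h1 h2
    rw [deleteEdges_adj, Set.mem_singleton_iff, Sym2.eq_iff]
    constructor
    · intro h3
      exact ⟨h3, fun h4 => h4.elim h1 h2⟩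
    · intro h3
      exact h3.1
  have hV' : A (V.deleteEdges {s(i, j)}) a b := by
    refine hA.short_agr hV (fun u v _ _ _ _ => hadj u v (by omega) (by omega))
      ((hA.acyc hV).anti ?_)
    intro u v huv
    exact ⟨(deleteEdges_le _) huv.1, huv.2⟩
  have hs' : Occ W n (V.deleteEdges {s(i, j)}) a b s := by
    refine ⟨hs.1, hs.2.1, hs.2.2.trans (agr_of_eq (a := s) (b := s + n) fun u v hu hu' hv hv' =>
      hadj u v (by omega) (by omega)) (by omega) (by omega) (by omega)⟩
  have h1 := (h.rigid hA hJ hV hV' hs hs').eq hi (by omega) (by omega) hj |>.1 hij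
  rw [deleteEdges_adj] at h1
  exact h1.2 rfl

/-- adding a long edge between vertices which are not connected -/
theorem Cls.add_edge (hA : Cls A c) {V : SimpleGraph ℤ} {a b u v : ℤ} (hV : A V a b)
    (_hu : a ≤ u) (_hv : v < b) (hl : c + 1 ≤ v - u) (hr : ¬ (res V a b).Reachable u v) :
    A (res V a b ⊔ edge u v) a b := by
  have hc := hA.one_le
  refine hA.short_agr hV (fun i j hi hij hj hs => ⟨fun h1 => Or.inl ⟨h1, ⟨hi, by omega⟩,
    ⟨by omega, hj⟩⟩, fun h1 => ?_⟩) ((acyclic_add (hA.acyc hV) hr).anti (res_le _ _ _))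
  rcases h1 with h1 | h1
  · exact h1.1
  · exfalso
    rw [edge_adj] at h1
    omega

/-- vertices at a large distance, not both inside the rare element, are connected -/
theorem Uniq.conn_out (hA : Cls A c) (hJ : JEP A) {W : SimpleGraph ℤ} {n : ℤ} (h : Uniq A W n)
    {V : SimpleGraph ℤ} {a b s u v : ℤ} (hV : A V a b) (hs : Occ W n V a b s)
    (hu : a ≤ u) (hv : v < b) (hl : c + 1 ≤ v - u) (hout : ¬ (s ≤ u ∧ v < s + n)) :
    (res V a b).Reachable u v := by
  by_contra hr
  have hc := hA.one_le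
  have hV' := hA.add_edge hV hu hv hl hr
  have hs' : Occ W n (res V a b ⊔ edge u v) a b s := by
    have e1 := hs.1
    have e2 := hs.2.1
    refine ⟨hs.1, hs.2.1, hs.2.2.trans (agr_of_eq (a := s) (b := s + n) fun i j hi hi' hj hj' =>
      ⟨fun h1 => Or.inl ⟨h1, ⟨by omega, by omega⟩, ⟨by omega, by omega⟩⟩, fun h1 => ?_⟩)
      (by omega) (by omega) (by omega)⟩
    rcases h1 with h1 | h1
    · exact h1.1
    · exfalso
      rw [edge_adj] at h1
      omega
  have h1 : (res V a b ⊔ edge u v).Adj u v := by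
    right
    rw [edge_adj]
    exact ⟨Or.inl ⟨rfl, rfl⟩, by omega⟩
  have h2 := (h.rigid hA hJ hV hV' hs hs').eq hu (by omega) (by omega) hv |>.2 h1
  exact hr (Adj.reachable ⟨h2, ⟨hu, by omega⟩, ⟨by omega, hv⟩⟩)

/-- a vertex which is far from two given vertices -/
theorem exists_far {a b s n x y c : ℤ} (hc : 1 ≤ c) (h1 : n + 8 * c + 6 ≤ b - a) (hs : a ≤ s)
    (hs' : s + n ≤ b) (hn : 0 ≤ n) : ∃ w, a ≤ w ∧ w < b ∧ (w < s ∨ s + n ≤ w) ∧
      (w + (c + 1) ≤ x ∨ x + (c + 1) ≤ w) ∧ (w + (c + 1) ≤ y ∨ y + (c + 1) ≤ w) := by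
  rcases le_or_gt (a + (4 * c + 3)) s with h2 | h2
  · by_contra hcon
    push Not at hcon
    have e0 := hcon a (by omega) (by omega) (by omega)
    have e1 := hcon (a + (2 * c + 1)) (by omega) (by omega) (by omega)
    have e2 := hcon (a + (4 * c + 2)) (by omega) (by omega) (by omega)
    omega
  · by_contra hcon
    push Not at hcon
    have e0 := hcon (s + n) (by omega) (by omega) (by omega)
    have e1 := hcon (s + n + (2 * c + 1)) (by omega) (by omega) (by omega)
    have e2 := hcon (s + n + (4 * c + 2)) (by omega) (by omega) (by omega)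
    omega

theorem Uniq.conn_long (hA : Cls A c) (hJ : JEP A) {W : SimpleGraph ℤ} {n : ℤ} (h : Uniq A W n)
    (hn : 0 ≤ n) {V : SimpleGraph ℤ} {a b s x y : ℤ} (hV : A V a b) (hs : Occ W n V a b s)
    (hl : n + 8 * c + 6 ≤ b - a) (hx : a ≤ x) (hx' : x < b) (hy : a ≤ y) (hy' : y < b) :
    (res V a b).Reachable x y := by
  have hc := hA.one_le
  obtain ⟨w, hw, hw', hwo, hwx, hwy⟩ := exists_far (x := x) (y := y) hA.one_le hl hs.1 hs.2.1 hn
  have key : ∀ z, a ≤ z → z < b → (w + (c + 1) ≤ z ∨ z + (c + 1) ≤ w) →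
      (res V a b).Reachable z w := by
    intro z hz hz' hzw
    rcases hzw with h1 | h1
    · exact (h.conn_out hA hJ hV hs hw hz' (by omega) (by omega)).symm
    · exact h.conn_out hA hJ hV hs hz hw' (by omega) (by omega)
  exact (key x hx hx' hwx).trans (key y hy hy' hwy).symm

theorem Cls.delete_add (hA : Cls A c) {V : SimpleGraph ℤ} {a b p q u v : ℤ} (hV : A V a b)
    (hpq : c + 1 ≤ q - p) (hl : c + 1 ≤ v - u)
    (hr : ¬ ((res V a b).deleteEdges {s(p, q)}).Reachable u v) :
    A ((res V a b).deleteEdges {s(p, q)} ⊔ edge u v) a b := by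
  have hc := hA.one_le
  refine hA.short_agr hV (fun i j hi hij hj hs => ⟨fun h1 => Or.inl ?_, fun h1 => ?_⟩)
    ((acyclic_add ((hA.acyc hV).anti (deleteEdges_le _)) hr).anti (res_le _ _ _))
  · rw [deleteEdges_adj, Set.mem_singleton_iff, Sym2.eq_iff]
    refine ⟨⟨h1, ⟨hi, by omega⟩, ⟨by omega, hj⟩⟩, ?_⟩
    omega
  · rcases h1 with h1 | h1
    · exact ((deleteEdges_le _) h1).1
    · exfalso
      rw [edge_adj] at h1
      omega

/-- there are no long edges at all -/
theorem Uniq.no_long_edge (hA : Cls A c) (hJ : JEP A)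
    (hinf : ∀ M : ℤ, ∃ X n, A X 0 n ∧ M < n) {W : SimpleGraph ℤ} {n : ℤ} (hW : A W 0 n)
    (h : Uniq A W n) {Y : SimpleGraph ℤ} {a b i j : ℤ} (hY : A Y a b) (hi : a ≤ i) (hj : j < b)
    (hl : c + 1 ≤ j - i) : ¬ Y.Adj i j := by
  intro hadj
  have hc := hA.one_le
  have hn := hA.pos hW
  -- an element with a very long edge gives a contradiction
  have hno : ∀ (U : SimpleGraph ℤ) (a b u v : ℤ), A U a b → a ≤ u → v < b → n + c + 1 ≤ v - u →
      ¬ U.Adj u v := by
    intro U a b u v hU hu hv huv huadj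
    have hU0 : A (sh U (-a)) 0 (b - a) := hA.sh_mem hU (by omega) (by omega)
    obtain ⟨Z, l, x, y, hZ, hx, hy⟩ := jep0 hA hJ hU0 hW
    have h1 : Agr U Z a b (x - a) := (agr_sh U a b (-a)).trans hx.2.2 (by omega) (by omega)
      (by omega)
    have e1 := hx.1
    have e2 := hx.2.1
    have h2 : Z.Adj (u + (x - a)) (v + (x - a)) :=
      (h1 u v hu (by omega) (by omega) hv).1 huadj
    have h3 := h.edge_in hA hJ hZ hy h2 (by omega) (by omega) (by omega)
    omega
  -- a long element with the rare element and the edge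
  have hY0 : A (sh Y (-a)) 0 (b - a) := hA.sh_mem hY (by omega) (by omega)
  obtain ⟨Z1, l1, x1, y1, hZ1, hx1, hy1⟩ := jep0 hA hJ hY0 hW
  obtain ⟨X, k, hX, hk⟩ := hinf (3 * n + 8 * c + 10)
  obtain ⟨V, l, x2, y2, hV, hx2, hy2⟩ := jep0 hA hJ hZ1 hX
  have hWV := hy1.trans hx2
  have hYV := hx1.trans hx2
  have e1 := hYV.1
  have e2 := hYV.2.1
  have e3 := hWV.1
  have e4 := hWV.2.1
  have e5 := hy2.1
  have e6 := hy2.2.1
  have h1 : Agr Y V a b (x1 + x2 - a) := (agr_sh Y a b (-a)).trans hYV.2.2 (by omega) (by omega)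
    (by omega)
  set p := i + (x1 + x2 - a) with hp
  set q := j + (x1 + x2 - a) with hq
  have hpq : V.Adj p q := (h1 i j hi (by omega) (by omega) hj).1 hadj
  obtain ⟨h2, h3⟩ := h.edge_in hA hJ hV hWV hpq (by omega) (by omega) (by omega)
  have hconn : ∀ z, 0 ≤ z → z < l → (res V 0 l).Reachable p z := fun z hz hz' =>
    h.conn_long hA hJ hn.le hV hWV (by omega) (by omega) (by omega) hz hz'
  have hadj' : (res V 0 l).Adj p q := ⟨hpq, ⟨by omega, by omega⟩, ⟨by omega, by omega⟩⟩
  have hsep := not_reachable_delete (hA.acyc hV) hadj'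
  -- a vertex far away
  obtain ⟨z, hz, hz', hzf⟩ : ∃ z, 0 ≤ z ∧ z < l ∧
      (z + (n + c + 1) ≤ y1 + x2 ∨ y1 + x2 + n + (n + c + 1) ≤ z) := by
    rcases le_or_gt (n + c + 1) (y1 + x2) with h5 | h5
    · exact ⟨0, le_rfl, by omega, Or.inl (by omega)⟩
    · exact ⟨l - 1, by omega, by omega, Or.inr (by omega)⟩
  rcases reachable_delete (v := q) (hconn z hz hz') with h4 | h4
  · -- `z` is connected with `p`, so not with `q`
    have h5 : ¬ ((res V 0 l).deleteEdges {s(p, q)}).Reachable q z := fun h6 =>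
      hsep (h4.trans h6.symm)
    rcases hzf with h6 | h6
    · have h7 := hA.delete_add (u := z) (v := q) hV (by omega : c + 1 ≤ q - p) (by omega)
        (fun h8 => h5 h8.symm)
      refine hno _ 0 l z q h7 hz (by omega) (by omega) (Or.inr ?_)
      rw [edge_adj]
      exact ⟨Or.inl ⟨rfl, rfl⟩, by omega⟩
    · have h7 := hA.delete_add (u := q) (v := z) hV (by omega : c + 1 ≤ q - p) (by omega) h5
      refine hno _ 0 l q z h7 (by omega) hz' (by omega) (Or.inr ?_)
      rw [edge_adj]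
      exact ⟨Or.inl ⟨rfl, rfl⟩, by omega⟩
  · have h5 : ¬ ((res V 0 l).deleteEdges {s(p, q)}).Reachable p z := fun h6 =>
      hsep (h6.trans h4.symm)
    rcases hzf with h6 | h6
    · have h7 := hA.delete_add (u := z) (v := p) hV (by omega : c + 1 ≤ q - p) (by omega)
        (fun h8 => h5 h8.symm)
      refine hno _ 0 l z p h7 hz (by omega) (by omega) (Or.inr ?_)
      rw [edge_adj]
      exact ⟨Or.inl ⟨rfl, rfl⟩, by omega⟩
    · have h7 := hA.delete_add (u := p) (v := z) hV (by omega : c + 1 ≤ q - p) (by omega) h5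
      refine hno _ 0 l p z h7 (by omega) hz' (by omega) (Or.inr ?_)
      rw [edge_adj]
      exact ⟨Or.inl ⟨rfl, rfl⟩, by omega⟩

theorem conn_of_no_long (hA : Cls A c)
    (hno : ∀ (Y : SimpleGraph ℤ) (a b i j : ℤ), A Y a b → a ≤ i → j < b → c + 1 ≤ j - i →
      ¬ Y.Adj i j) {N : ℤ} (hN : 8 * c + 6 ≤ N) : Conn A N := by
  intro X hX x y hx hx' hy hy'
  have hc := hA.one_le
  have h1 : ∀ u v, 0 ≤ u → v < N → c + 1 ≤ v - u → (res X 0 N).Reachable u v := by
    intro u v hu hv huv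
    by_contra hr
    refine hno _ 0 N u v (hA.add_edge hX hu hv huv hr) hu hv huv (Or.inr ?_)
    rw [edge_adj]
    exact ⟨Or.inl ⟨rfl, rfl⟩, by omega⟩
  obtain ⟨w, hw, hw', _, hwx, hwy⟩ := exists_far (a := 0) (b := N) (s := 0) (n := 0) (x := x)
    (y := y) hc (by omega) le_rfl (by omega) le_rfl
  have key : ∀ z, 0 ≤ z → z < N → (w + (c + 1) ≤ z ∨ z + (c + 1) ≤ w) →
      (res X 0 N).Reachable z w := by
    intro z hz hz' hzw
    rcases hzw with h2 | h2
    · exact (h1 w z hw hz' (by omega)).symm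
    · exact h1 z w hz hw' (by omega)
  exact (key x hx hx' hwx).trans (key y hy hy' hwy).symm

theorem certB_of_uniq (hA : Cls A c) (hJ : JEP A) (hinf : ∀ M : ℤ, ∃ X n, A X 0 n ∧ M < n)
    {W : SimpleGraph ℤ} {n : ℤ} (hW : A W 0 n) (h : Uniq A W n) :
    ∃ N Z m r, CertB A c N Z m r := by
  have hc := hA.one_le
  have hno : ∀ (Y : SimpleGraph ℤ) (a b i j : ℤ), A Y a b → a ≤ i → j < b → c + 1 ≤ j - i →
      ¬ Y.Adj i j := fun Y a b i j hY hi hj hl => h.no_long_edge hA hJ hinf hW hY hi hj hl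
  set N := max (8 * c + 6) n with hNdef
  have hN1 : 8 * c + 6 ≤ N := le_max_left _ _
  have hN2 : n ≤ N := le_max_right _ _
  have hconn := conn_of_no_long hA hno hN1
  obtain ⟨W0, s0, hW0, hs0⟩ := ext_of_inf hA hJ hinf hW hN2
  have hu : Uniq A W0 N := h.super hs0
  obtain ⟨Z, l, hZ, ⟨m, hm⟩, hall⟩ := jep_all hA hJ (N + 1).toNat hW0
  have e1 := hm.1
  have e2 := hm.2.1
  refine ⟨N, Z, m, l - N - m, by omega, by omega, e1, by omega, ?_, hconn, ?_, ?_, ?_, ?_, ?_⟩
  · intro X k hX hk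
    exact ext_of_inf hA hJ hinf hX (by omega)
  · have : m + (l - N - m) + N = l := by ring
    rwa [this]
  · intro Y hY
    obtain ⟨t, ht⟩ := hall Y (N + 1) hY (by omega)
    exact ⟨t, ht.1, by have := ht.2.1; omega, ht.2.2⟩
  · -- right
    intro p q hp hp' hq hq' hpq
    have hZl : A Z 0 (p + N) := hA.sub hZ le_rfl (by omega) (by omega)
    have hZr : A (sh Z (p - q)) p (p + (N + 1)) :=
      hA.sh_mem (hA.sub hZ hq (by omega) (by omega) : A Z q (q + (N + 1))) (by omega) (by omega)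
    have h1 : Agr Z (sh Z (p - q)) p (p + N) 0 := hpq.trans
      (agr_sh Z q (q + N) (p - q)) (by omega) (by omega) (by omega)
    have h2 := hA.glue_conn hZl hZr (by omega) (by omega) (by omega) h1
      (fun x y hx hx' hy hy' => conn_all' hA (by omega) hconn (by omega)
        (hA.sub hZr le_rfl (by omega) (by omega)) hx hx' hy hy')
    have h3 : Agr Z (gl Z 0 (p + N) (sh Z (p - q)) p (p + (N + 1))) 0 (p + (N + 1)) 0 := by
      refine hu.rigid hA hJ (hA.sub hZ le_rfl (by omega) (by omega)) h2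
        (s := m) ⟨e1, by omega, hm.2.2⟩ ⟨e1, by omega, hm.2.2.trans (gl_left h1) (by omega)
          (by omega) (by omega)⟩
    have h4 : Agr Z (sh Z (p - q)) p (p + (N + 1)) 0 :=
      (h3.mono (a' := p) (by omega) le_rfl).trans ((gl_right h1).symm (a' := p)
        (b' := p + (N + 1)) (t' := 0) (by omega) (by omega) (by omega)) (by omega) (by omega)
        (by omega)
    exact h4.trans ((agr_sh Z q (q + (N + 1)) (p - q)).symm (a' := p) (b' := p + (N + 1))
      (t' := q - p) (by omega) (by omega) (by omega)) (by omega) (by omega) (by omega)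
  · -- left
    intro p q hp hp' hq hq' hpq
    have hZr : A Z p l := hA.sub hZ (by omega) (by omega) le_rfl
    have hZl : A (sh Z (p - q)) (p - 1) (p + N) :=
      hA.sh_mem (hA.sub hZ (by omega) (by omega) (by omega) : A Z (q - 1) (q + N)) (by omega)
        (by omega)
    have h1' : Agr Z (sh Z (p - q)) p (p + N) 0 := hpq.trans
      (agr_sh Z q (q + N) (p - q)) (by omega) (by omega) (by omega)
    have h1 : Agr (sh Z (p - q)) Z p (p + N) 0 := h1'.symm (by omega) (by omega) (by omega)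
    have h2 := hA.glue_conn hZl hZr (by omega) (by omega) (by omega) h1
      (fun x y hx hx' hy hy' => conn_all' hA (by omega) hconn (by omega)
        (hA.sub hZr le_rfl (by omega) (by omega)) hx hx' hy hy')
    have h3 : Agr Z (gl (sh Z (p - q)) (p - 1) (p + N) Z p l) (p - 1) l 0 := by
      refine hu.rigid hA hJ (hA.sub hZ (by omega) (by omega) le_rfl) h2
        (s := m) ⟨by omega, by omega, hm.2.2⟩ ⟨by omega, by omega, hm.2.2.trans (gl_right h1)
          (by omega) (by omega) (by omega)⟩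
    have h4 : Agr Z (sh Z (p - q)) (p - 1) (p + N) 0 :=
      (h3.mono (b' := p + N) le_rfl (by omega)).trans ((gl_left h1).symm (a' := p - 1)
        (b' := p + N) (t' := 0) (by omega) (by omega) (by omega)) (by omega) (by omega)
        (by omega)
    exact h4.trans ((agr_sh Z (q - 1) (q + N) (p - q)).symm (a' := p - 1) (b' := p + N)
      (t' := q - p) (by omega) (by omega) (by omega)) (by omega) (by omega) (by omega)
  · -- uniq
    intro p q hp hp' hq hq' hpq
    have hZl : A Z 0 (q + N) := hA.sub hZ le_rfl (by omega) (by omega)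
    have hZr : A (sh Z (q - p)) q (l + (q - p)) :=
      hA.sh_mem (hA.sub hZ hp (by omega) le_rfl : A Z p l) (by omega) (by omega)
    have h1' : Agr (sh Z (q - p)) Z q (q + N) 0 :=
      ((agr_sh Z p (p + N) (q - p)).symm (a' := q) (b' := q + N) (t' := p - q) (by omega)
        (by omega) (by omega)).trans hpq (by omega) (by omega) (by omega)
    have h1 : Agr Z (sh Z (q - p)) q (q + N) 0 := h1'.symm (by omega) (by omega) (by omega)
    have h2 := hA.glue_conn hZl hZr (by omega) (by omega) (by omega) h1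
      (fun x y hx hx' hy hy' => conn_all' hA (by omega) hconn (by omega)
        (hA.sub hZr le_rfl (by omega) (by omega)) hx hx' hy hy')
    have h3 := hu _ _ _ m (m + (q - p)) h2 ⟨e1, by omega, hm.2.2.trans (gl_left h1) (by omega)
      (by omega) (by omega)⟩ ⟨by omega, by omega, (hm.2.2.trans (agr_sh Z m (m + N) (q - p))
        (t'' := m + (q - p)) (by omega) (by omega) (by omega)).trans (gl_right h1) (by omega)
        (by omega) (by omega)⟩
    omega

/-- **The certificates.** -/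
theorem cert_of_jep (hA : Cls A c) (hJ : JEP A) :
    (∀ X n, ¬ A X 0 n) ∨
    (∃ Z l, A Z 0 l ∧ ∀ X n, A X 0 n → n ≤ l + 1 → ∃ s, Occ X n Z 0 l s) ∨
    CertU A c ∨ ∃ N Z m r, CertB A c N Z m r := by
  by_cases h0 : ∀ X n, ¬ A X 0 n
  · exact Or.inl h0
  · right
    push Not at h0
    obtain ⟨X0, n0, hX0⟩ := h0
    by_cases hinf : ∀ M : ℤ, ∃ X n, A X 0 n ∧ M < n
    · right
      by_cases hrep : ∀ T n, A T 0 n → Rep A T n
      · exact Or.inl (certU_of_rep hA hJ hinf hrep)
      · right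
        push Not at hrep
        obtain ⟨T, n, hT, hT'⟩ := hrep
        obtain ⟨W, k, hW, hu⟩ := exists_uniq hA hT hT'
        exact certB_of_uniq hA hJ hinf hW hu
    · left
      push Not at hinf
      obtain ⟨M, hM⟩ := hinf
      obtain ⟨Z, l, hZ, _, hall⟩ := jep_all hA hJ M.toNat hX0
      refine ⟨Z, l, hZ, fun X n hX _ => hall X n hX ?_⟩
      have := hM X n hX
      omega

/-- the joint embedding property is equivalent to the existence of a certificate -/
theorem jep_iff_cert (hA : Cls A c) : JEP A ↔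
    (∀ X n, ¬ A X 0 n) ∨
    (∃ Z l, A Z 0 l ∧ ∀ X n, A X 0 n → n ≤ l + 1 → ∃ s, Occ X n Z 0 l s) ∨
    CertU A c ∨ ∃ N Z m r, CertB A c N Z m r := by
  refine ⟨cert_of_jep hA, ?_⟩
  rintro (h | ⟨Z, l, hZ, h⟩ | h | ⟨N, Z, m, r, h⟩)
  · intro X n Y m hX
    exact absurd hX (h X n)
  · exact jep_of_certF hA hZ h
  · exact jep_of_certU hA h
  · exact jep_of_certB hA h

end Pool.Agent.Q221.Forest
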