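import Pool.Agent.Q221.Forest.Cls

set_option autoImplicit false

/-!
# Certificates for the joint embedding property
-/

namespace Pool.Agent.Q221.Forest

open SimpleGraph

/-- `X` on `[0, n)` occurs in `Z` on `[a, b)` at `s` -/
def Occ (X : SimpleGraph ℤ) (n : ℤ) (Z : SimpleGraph ℤ) (a b s : ℤ) : Prop :=
  a ≤ s ∧ s + n ≤ b ∧ Agr X Z 0 n s

/-- the joint embedding property -/
def JEP (A : SimpleGraph ℤ → ℤ → ℤ → Prop) : Prop :=
  ∀ X n Y m, A X 0 n → A Y 0 m → ∃ Z a b s t, A Z a b ∧ Occ X n Z a b s ∧ Occ Y m Z a b t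

theorem Occ.trans {X : SimpleGraph ℤ} {n : ℤ} {W : SimpleGraph ℤ} {m s : ℤ}
    {Z : SimpleGraph ℤ} {a b t : ℤ} (h : Occ X n W 0 m s) (h' : Occ W m Z a b t) :
    Occ X n Z a b (s + t) :=
  ⟨by have := h.1; have := h'.1; omega, by have := h.2.1; have := h'.2.1; omega,
    h.2.2.trans h'.2.2 (by have := h.1; omega) (by have := h.2.1; omega) rfl⟩

/-- the certificate for classes in which everything can be repeated -/
def CertU (A : SimpleGraph ℤ → ℤ → ℤ → Prop) (c : ℤ) : Prop :=
  (∀ X n, A X 0 n → n ≤ c → ∃ W s, A W 0 c ∧ Occ X n W 0 c s) ∧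
  (∀ W W', A W 0 c → A W' 0 c → ∃ Z l p q, A Z 0 l ∧ Occ W c Z 0 l p ∧ Occ W' c Z 0 l q ∧
    p + c ≤ q ∧
    (∀ x y, p ≤ x → x < p + c → p ≤ y → y < p + c → (res Z 0 (p + c)).Reachable x y) ∧
    (∀ x y, q ≤ x → x < q + c → q ≤ y → y < q + c → (res Z q l).Reachable x y))

variable {A : SimpleGraph ℤ → ℤ → ℤ → Prop} {c : ℤ}

theorem Cls.sh_mem (hA : Cls A c) {X : SimpleGraph ℤ} {a b t a' b' : ℤ} (h : A X a b)
    (ha : a' = a + t) (hb : b' = b + t) : A (sh X t) a' b' :=
  hA.agr' h (agr_sh X a b t) ha hb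

theorem jepU_aux (hA : Cls A c) (h : CertU A c) {X Y : SimpleGraph ℤ} {n m : ℤ}
    (hX : A X 0 n) (hY : A Y 0 m) (hn : c ≤ n) (hm : c ≤ m) :
    ∃ Z a b s t, A Z a b ∧ Occ X n Z a b s ∧ Occ Y m Z a b t := by
  have hc := hA.one_le
  have hW : A (sh X (-(n - c))) 0 c :=
    hA.agr' (hA.sub hX (a' := n - c) (b' := n) (by omega) (by omega) le_rfl)
      (agr_sh X _ _ _) (by omega) (by omega)
  have hW' : A Y 0 c := hA.sub hY le_rfl (by omega) hm
  obtain ⟨Z, l, p, q, hZ, ⟨hp0, hpl, hpZ⟩, ⟨hq0, hql, hqZ⟩, hpq, hcp, hcq⟩ := h.2 _ _ hW hW'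
  -- the left part
  set Xt := sh X (p + c - n) with hXt
  have hXtA : A Xt (p + c - n) (p + c) := hA.sh_mem hX (by omega) (by omega)
  have e1 : Agr Xt Z p (p + c) 0 := by
    refine agr_of_eq fun i j hi hi' hj hj' => ?_
    have h1 := hpZ (i - p) (j - p) (by omega) (by omega) (by omega) (by omega)
    simp only [sub_add_cancel] at h1
    rw [← h1]
    simp only [hXt, sh]
    have e2 : i - p - -(n - c) = i - (p + c - n) := by ring
    have e3 : j - p - -(n - c) = j - (p + c - n) := by ring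
    rw [e2, e3]
  have e0 : p + c - c = p := by ring
  have hZ1 : A (gl Xt (p + c - n) (p + c) Z p l) (p + c - n) l := by
    have := hA.transfer_left (x := p + c) hZ hXtA (by omega) (by omega) hpl
      (by rw [e0]; exact e1) (by
        intro u v hu hu' hv hv' _
        rw [e0] at hu hv
        exact hcp u v hu hu' hv hv')
    rwa [e0] at this
  set Z1 := gl Xt (p + c - n) (p + c) Z p l with hZ1d
  have hZ1Z : Agr Z Z1 p l 0 := gl_right e1
  have hZ1X : Agr Xt Z1 (p + c - n) (p + c) 0 := gl_left e1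
  -- the right part
  set Yt := sh Y q with hYt
  have hYtA : A Yt q (q + m) := hA.sh_mem hY (by omega) (by omega)
  have e4 : Agr Z1 Yt q (q + c) 0 := by
    refine agr_of_eq fun i j hi hi' hj hj' => ?_
    rw [← hZ1Z.eq (by omega) (by omega) (by omega) (by omega)]
    have h1 := hqZ (i - q) (j - q) (by omega) (by omega) (by omega) (by omega)
    simp only [sub_add_cancel] at h1
    rw [← h1]
    rfl
  have hZ2 := hA.transfer_right (x := q) hZ1 hYtA (by omega) hql (by omega) e4 (by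
    intro u v hu hu' hv hv' _
    have := hcq u v hu hu' hv hv'
    rwa [res_eq_of_agr (hZ1Z.mono (by omega) le_rfl)] at this)
  refine ⟨_, _, _, p + c - n, q, hZ2, ⟨le_rfl, by omega, ?_⟩, ⟨by omega, le_rfl, ?_⟩⟩
  · have h1 : Agr X Xt 0 n (p + c - n) := agr_sh X _ _ _
    refine h1.trans ((hZ1X.mono (a' := p + c - n) (b' := p + c) le_rfl le_rfl).trans
      ((gl_left e4).mono (a' := p + c - n) (b' := p + c) le_rfl (by omega)) (t'' := 0)
        (by omega) (by omega) rfl) (by omega) (by omega) (by omega)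
  · have h1 : Agr Y Yt 0 m q := agr_sh Y _ _ _
    exact h1.trans (gl_right e4) (by omega) (by omega) (by omega)

theorem jep_of_certU (hA : Cls A c) (h : CertU A c) : JEP A := by
  have key : ∀ X n, A X 0 n → ∃ X' n' s, A X' 0 n' ∧ c ≤ n' ∧ Occ X n X' 0 n' s := by
    intro X n hX
    rcases le_or_gt n c with h1 | h1
    · obtain ⟨W, s, hW, hs⟩ := h.1 X n hX h1
      exact ⟨W, c, s, hW, le_rfl, hs⟩
    · exact ⟨X, n, 0, hX, h1.le, le_rfl, by omega, agr_refl X 0 n⟩
  intro X n Y m hX hY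
  obtain ⟨X', n', s, hX', hn', hs⟩ := key X n hX
  obtain ⟨Y', m', t, hY', hm', ht⟩ := key Y m hY
  obtain ⟨Z, a, b, s', t', hZ, h1, h2⟩ := jepU_aux hA h hX' hY' hn' hm'
  exact ⟨Z, a, b, s + s', t + t', hZ, hs.trans h1, ht.trans h2⟩

/-! ### Classes with connected windows -/

/-- all elements of length `N` are connected -/
def Conn (A : SimpleGraph ℤ → ℤ → ℤ → Prop) (N : ℤ) : Prop :=
  ∀ X, A X 0 N → ∀ x y, 0 ≤ x → x < N → 0 ≤ y → y < N → (res X 0 N).Reachable x y

theorem conn_all (hA : Cls A c) {N : ℤ} (hN : 2 ≤ N) (h : Conn A N) {X : SimpleGraph ℤ}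
    (k : ℕ) : ∀ {a b : ℤ}, b - a = N + k → A X a b → ∀ x y, a ≤ x → x < b → a ≤ y → y < b →
      (res X a b).Reachable x y := by
  induction k with
  | zero =>
    intro a b hab hX x y hx hx' hy hy'
    have h1 : A (sh X (-a)) 0 N := hA.sh_mem hX (by omega) (by push_cast at hab; omega)
    have h2 := h _ h1 (x - a) (y - a) (by omega) (by push_cast at hab; omega) (by omega)
      (by push_cast at hab; omega)
    have h3 : Agr (sh X (-a)) X 0 N a := (agr_sh X a b (-a)).symm (by omega)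
      (by push_cast at hab; omega) (by omega)
    have h4 := (reach_shift_iff h3 (a' := a) (b' := b) (by omega)
      (by push_cast at hab; omega)).2 h2
    simpa using h4
  | succ k ih =>
    intro a b hab hX
    push_cast at hab
    have h1 : ∀ x y, a ≤ x → x < b - 1 → a ≤ y → y < b - 1 → (res X a b).Reachable x y := by
      intro x y hx hx' hy hy'
      exact (ih (a := a) (b := b - 1) (by omega) (hA.sub hX le_rfl (by omega) (by omega))
        x y hx hx' hy hy').mono (res_mono_left le_rfl (by omega))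
    have h2 : (res X a b).Reachable (b - 2) (b - 1) :=
      (ih (a := a + 1) (b := b) (by omega) (hA.sub hX (by omega) (by omega) le_rfl)
        (b - 2) (b - 1) (by omega) (by omega) (by omega) (by omega)).mono
          (res_mono_left (by omega) le_rfl)
    have h3 : ∀ x, a ≤ x → x < b → (res X a b).Reachable x (b - 2) := by
      intro x hx hx'
      rcases lt_or_ge x (b - 1) with h4 | h4
      · exact h1 x (b - 2) hx h4 (by omega) (by omega)
      · have : x = b - 1 := by omega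
        subst this
        exact h2.symm
    intro x y hx hx' hy hy'
    exact (h3 x hx hx').trans (h3 y hy hy').symm

theorem conn_all' (hA : Cls A c) {N : ℤ} (hN : 2 ≤ N) (h : Conn A N) {X : SimpleGraph ℤ}
    {a b : ℤ} (hab : N ≤ b - a) (hX : A X a b) {x y : ℤ} (hx : a ≤ x) (hx' : x < b) (hy : a ≤ y)
    (hy' : y < b) : (res X a b).Reachable x y :=
  conn_all hA hN h (b - a - N).toNat (by omega) hX x y hx hx' hy hy'

/-- there are no edges of length at least `N` -/
theorem no_long (hA : Cls A c) {N : ℤ} (hN : 2 ≤ N) (h : Conn A N) {X : SimpleGraph ℤ}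
    {a b : ℤ} (hX : A X a b) {i j : ℤ} (hi : a ≤ i) (hij : N ≤ j - i) (hj : j < b) :
    ¬ X.Adj i j := by
  intro hadj
  have hX' : A X i (j + 1) := hA.sub hX hi (by omega) (by omega)
  have hac := hA.acyc hX'
  have hadj' : (res X i (j + 1)).Adj i j := ⟨hadj, ⟨le_rfl, by omega⟩, ⟨by omega, by omega⟩⟩
  apply not_reachable_delete hac hadj'
  have h1 : (res X i j).Reachable i (j - 1) := conn_all' hA hN h (by omega)
    (hA.sub hX' le_rfl (by omega) (by omega)) le_rfl (by omega) (by omega) (by omega)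
  have h2 : (res X (i + 1) (j + 1)).Reachable (j - 1) j := conn_all' hA hN h (by omega)
    (hA.sub hX' (by omega) (by omega) le_rfl) (by omega) (by omega) (by omega) (by omega)
  refine (h1.mono ?_).trans (h2.mono ?_)
  · intro u v huv
    rw [deleteEdges_adj]
    refine ⟨res_mono_left le_rfl (by omega) huv, ?_⟩
    intro he
    rw [Set.mem_singleton_iff, Sym2.eq_iff] at he
    have := huv.2
    rcases he with ⟨rfl, rfl⟩ | ⟨rfl, rfl⟩ <;> omega
  · intro u v huv
    rw [deleteEdges_adj]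
    refine ⟨res_mono_left (by omega) le_rfl huv, ?_⟩
    intro he
    rw [Set.mem_singleton_iff, Sym2.eq_iff] at he
    have := huv.2
    rcases he with ⟨rfl, rfl⟩ | ⟨rfl, rfl⟩ <;> omega

theorem no_long' (hA : Cls A c) {N : ℤ} (hN : 2 ≤ N) (h : Conn A N) {X : SimpleGraph ℤ}
    {a b : ℤ} (hX : A X a b) {i j : ℤ} (hi : a ≤ i) (hi' : i < b) (hj : a ≤ j) (hj' : j < b)
    (hij : N ≤ j - i ∨ N ≤ i - j) : ¬ X.Adj i j := by
  rcases hij with h1 | h1
  · exact no_long hA hN h hX hi h1 hj'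
  · intro h2
    exact no_long hA hN h hX hj h1 hi' h2.symm

end Pool.Agent.Q221.Forest
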